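import Pool.Agent.Work.MP_9a1701_nt.P.Range1

-- merged part: Pool.Agent.Work.MP_9a1701_nt.T.CoreG
section
/-!
# The core theorem with a growing constant in the point bound
-/

set_option autoImplicit false
open Finset Filter

namespace Pool.Agent.Work.MP_9a1701_nt.P

/-- The point bound with an extra factor `P`. -/
def HPTg (D : Set ℕ) (ρ : ℕ → ℝ) (x s L i1 : ℕ) (P : ℝ) : Prop :=
  ∀ i ∈ Ico L i1, ∀ z : ℕ, i * s ≤ z → ∀ K : ℕ, L ≤ K → ∀ n : ℕ,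
    Ex ρ (Icc 1 x) (fun Q => (cntK (cfg D Q) z ((i + 1) * s) K n : ℝ)) ≤ 4 * P / K

/-- The finite hypotheses with the factor `x ^ (δ / 2)`. -/
def HFing (D : Set ℕ) (ρ : ℕ → ℝ) (l0 : ℝ) : Prop :=
  ∀ δ η : ℝ, 0 < δ → δ ≤ 1 / 10 → 0 < η → η ≤ 1 → ∀ᶠ x : ℕ in atTop,
    HPTg D ρ x (sp x) (Lp δ x) (ip δ x) ((x : ℝ) ^ (δ / 2)) ∧
      HUP D ρ x (sp x) (Lp δ x) (ip δ x) ⌊η * x⌋₊ l0 η

lemma CoreG_ratio {δ : ℝ} (hδ : 0 < δ) {C : ℝ} (hC : 0 < C) : ∀ᶠ x : ℕ in atTop,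
    C * (Real.log x + 1) ^ 2 ≤ Lp δ x / (x : ℝ) ^ (δ / 2) := by
  filter_upwards [log_pow_le_Lp (half_pos hδ) 2 (show 0 < 2 * C by positivity),
    eventually_ge_atTop 1] with x h hx
  have hx0 : (0 : ℝ) < x := by exact_mod_cast hx
  have h1 := Lp_le (half_pos hδ) hx
  have h2 := le_Lp δ x
  have e : (x : ℝ) ^ δ = (x : ℝ) ^ (δ / 2) * (x : ℝ) ^ (δ / 2) := by
    rw [← Real.rpow_add hx0, add_halves]
  rw [le_div_iff₀ (by positivity)]
  calc _ ≤ (x : ℝ) ^ (δ / 2) * (x : ℝ) ^ (δ / 2) := by gcongr; linarith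
    _ ≤ _ := e ▸ h2

section
variable {D : Set ℕ} {ρ : ℕ → ℝ} {x s L i1 : ℕ} {P : ℝ}

lemma pt_geg (h : HPTg D ρ x s L i1 P) (hP : 1 ≤ P) (hs : 1 ≤ s) (hL : 1 ≤ L) {i : ℕ} (hi : i ∈ Ico L i1)
    {z : ℕ} (hz : i * s ≤ z) {M : ℕ} (h1 : L ≤ M) (h2 : M ≤ i) (n : ℕ) :
    Ex ρ (Icc 1 x) (fun Q => (cntGe (cfg D Q) z ((i + 1) * s) M n : ℝ)) ≤ 8 * P / M := by
  have hP0 : 0 < P := by linarith
  have hiL := (mem_Ico.1 hi).1
  have hlo : 1 ≤ i * s := Nat.mul_pos (by omega) hs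
  have h0 : ∀ Q : Finset ℕ, (cntGe (cfg D Q) z ((i + 1) * s) M n : ℝ) =
      ∑ K ∈ (Icc 1 n).filter (fun K => M ≤ K ∧ K * (i * s) ≤ n ∧ n < K * ((i + 1) * s)),
        (cntK (cfg D Q) z ((i + 1) * s) K n : ℝ) := by
    intro Q
    rw [cntGe_eq_sum _ hlo hz]
    push_cast
    rfl
  simp only [h0]
  rw [Ex_sum]
  have h3 := sum_inv_le (s := s) (i := i) (M := M) (n := n) hs (by omega) h2
  calc _ ≤ ∑ K ∈ (Icc 1 n).filter (fun K => M ≤ K ∧ K * (i * s) ≤ n ∧ n < K * ((i + 1) * s)),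
        4 * P * (1 / (K : ℝ)) := by
        refine sum_le_sum fun K hK => ?_
        rw [mul_one_div]
        exact h i hi z hz K (h1.trans (mem_filter.1 hK).2.1) n
    _ ≤ 4 * P * (2 / M) := by
        rw [← mul_sum]
        exact mul_le_mul_of_nonneg_left h3 (by positivity)
    _ = 8 * P / M := by ring

lemma cell_mean_leg (hρ : Prob ρ) (h : HPTg D ρ x s L i1 P) (hP : 1 ≤ P) (hs : 1 ≤ s) (hL : 1 ≤ L) {i : ℕ}
    (hi : i ∈ Ico L i1) {n : ℕ} (hn : L * (i1 * s) ≤ n) :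
    Ex ρ (Icc 1 x) (fun Q => (cnt (cfg D Q) (i * s) ((i + 1) * s) n : ℝ)) ≤ 8 * P / L := by
  obtain ⟨hiL, hi1⟩ := mem_Ico.1 hi
  have h1 : L * ((i + 1) * s) ≤ n :=
    le_trans (Nat.mul_le_mul_left _ (Nat.mul_le_mul_right _ hi1)) hn
  refine le_trans (Ex_mono hρ fun Q _ => ?_) (pt_geg h hP hs hL hi le_rfl le_rfl hiL n)
  rw [cnt_eq_cntGe _ h1]
  exact_mod_cast cntGe_anti _ _ _ (Nat.le_succ L) n

theorem Ex_Z_leg (hρ : Prob ρ) (h : HPTg D ρ x s L i1 P) (hP : 1 ≤ P) (hs : 1 ≤ s) (hL : 1 ≤ L) :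
    Ex ρ (Icc 1 x) (fun Q => ∑ i ∈ Ico L i1, Zi (cfg D Q) x s i) ≤ 32 * P * x / L := by
  have hP0 : 0 < P := by linarith
  rw [Ex_sum]
  have key : ∀ i ∈ Ico L i1, Ex ρ (Icc 1 x) (fun Q => Zi (cfg D Q) x s i) ≤
      16 * P * x * (1 / (i : ℝ) ^ 2) := by
    intro i hi
    have hiL := (mem_Ico.1 hi).1
    have hi1 : 1 ≤ i := by omega
    have hi0 : (0 : ℝ) < i := by exact_mod_cast hi1
    refine le_trans (Ex_mono hρ fun Q _ => pairs (cfg D Q) (x := x) hs hi1) ?_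
    rw [Ex_const_mul, Ex_sum]
    have h1 : ∀ p ∈ Ico (i * s) ((i + 1) * s) ×ˢ Ico (i * s) ((i + 1) * s),
        Ex ρ (Icc 1 x) (fun Q => ind (p ∈ blk (cfg D Q) (i * s) ((i + 1) * s) ∧
          bsum (cfg D Q) p.1 p.2 ≤ x) *
          (cntGe (cfg D Q) (p.2 + 1) ((i + 1) * s) i (bsum (cfg D Q) p.1 p.2) : ℝ)) ≤
        8 * P / i * Ex ρ (Icc 1 x) (fun Q => ind (p ∈ blk (cfg D Q) (i * s) ((i + 1) * s) ∧
          bsum (cfg D Q) p.1 p.2 ≤ x)) := by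
      intro p hp
      have hp2 := (mem_Ico.1 (mem_product.1 hp).2).1
      have hlow : ∀ (Q : Finset ℕ) (t : ℕ), t ≤ p.2 →
          (t ∈ cfg D Q ↔ t ∈ cfg D (Q ∩ range (p.2 + 1))) := by
        intro Q t ht
        simp only [mem_cfg, mem_inter, mem_range, Nat.lt_succ_iff, ht, and_true]
      have hsum : ∀ Q : Finset ℕ, bsum (cfg D Q) p.1 p.2 =
          bsum (cfg D (Q ∩ range (p.2 + 1))) p.1 p.2 :=
        fun Q => bsum_congr fun t _ ht => hlow Q t ht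
      refine Ex_mul_le hρ (range (p.2 + 1)) _ (fun Q => bsum (cfg D Q) p.1 p.2)
        (fun Q n => (cntGe (cfg D Q) (p.2 + 1) ((i + 1) * s) i n : ℝ)) _
        (fun Q => ind_nonneg _) (fun Q => ind_congr ?_) hsum (fun Q n => ?_) fun n => ?_
      · rw [← hsum Q, mem_blk, mem_blk]
        refine and_congr_left fun _ => and_congr_right fun _ => and_congr_right fun h12 =>
          and_congr_right fun _ => ?_
        rw [hlow Q p.1 h12, hlow Q p.2 le_rfl]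
      · congr 1
        refine cntGe_congr (fun t ht _ => ?_) _ _
        have : ¬ t < p.2 + 1 := by omega
        simp only [mem_cfg, Finset.mem_sdiff, mem_range, this, not_false_eq_true, and_true]
      · exact pt_geg h hP hs hL hi (by omega) hiL le_rfl n
    refine le_trans (mul_le_mul_of_nonneg_left (sum_le_sum h1) (by norm_num)) ?_
    rw [← mul_sum, ← Ex_sum]
    have h2 : Ex ρ (Icc 1 x) (fun Q => ∑ p ∈ Ico (i * s) ((i + 1) * s) ×ˢ Ico (i * s) ((i + 1) * s),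
        ind (p ∈ blk (cfg D Q) (i * s) ((i + 1) * s) ∧ bsum (cfg D Q) p.1 p.2 ≤ x)) ≤
        (x : ℝ) / i := by
      refine Ex_le_const hρ fun Q _ => le_trans ?_ (cell_count (cfg D Q) (x := x) hs hi1)
      exact Core1_sum_ind _ _ _ fun p _ hp => mem_filter.2 hp
    calc _ ≤ 2 * (8 * P / (i : ℝ) * ((x : ℝ) / i)) := by gcongr
      _ = _ := by field_simp; ring
  refine le_trans (sum_le_sum key) ?_
  rw [← mul_sum]
  calc _ ≤ 16 * P * (x : ℝ) * (2 / L) := mul_le_mul_of_nonneg_left (sum_inv_sq_le hL) (by positivity)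
    _ = _ := by ring

lemma mean_pointg (hρ : Prob ρ) (h : HPTg D ρ x s L i1 P) (hP : 1 ≤ P) (hs : 1 ≤ s) (hL : 1 ≤ L)
    (hi : i1 * s ≤ x) {n : ℕ} (hn : L * (i1 * s) ≤ n) (k : ℕ) {l0 : ℝ} (hl : 0 ≤ l0) :
    |Ex ρ (Icc 1 x) (fun Q => ind (Yc (cfg D Q) s L i1 n = k)) - poi k l0| ≤
      16 * P / L * lam D ρ x s L i1 n + |lam D ρ x s L i1 n - l0| +
        ∑ i ∈ Ico L i1, Ex ρ (Icc 1 x) fun Q =>
          (cnt (cfg D Q) (i * s) ((i + 1) * s) n : ℝ) -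
            ind (cnt (cfg D Q) (i * s) ((i + 1) * s) n ≠ 0) := by
  have hP0 : 0 < P := by linarith
  have hLC := lecam (U := Icc 1 x) hρ (Ico L i1) (fun i => Ico (i * s) ((i + 1) * s))
    (fun i _ j _ hij => Core2_disj s hij)
    (by
      intro i hi0 t ht
      rw [mem_Ico] at hi0 ht
      rw [mem_Icc]
      have h1 : (i + 1) * s ≤ i1 * s := Nat.mul_le_mul_right s hi0.2
      have h2 : 1 * 1 ≤ i * s := Nat.mul_le_mul (hL.trans hi0.1) hs
      omega)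
    (fun i Q => cnt (cfg D Q) (i * s) ((i + 1) * s) n ≠ 0)
    (by
      intro i _ Q
      have : cnt (cfg D Q) (i * s) ((i + 1) * s) n =
          cnt (cfg D (Q ∩ Ico (i * s) ((i + 1) * s))) (i * s) ((i + 1) * s) n := by
        refine cnt_congr (fun t h1 h2 => ?_) n
        rw [mem_cfg, mem_cfg, mem_inter, mem_Ico]
        tauto
      rw [this]) k
  set p : ℕ → ℝ := fun i => Ex ρ (Icc 1 x) fun Q =>
    ind (cnt (cfg D Q) (i * s) ((i + 1) * s) n ≠ 0) with hp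
  set m : ℕ → ℝ := fun i => Ex ρ (Icc 1 x) fun Q =>
    (cnt (cfg D Q) (i * s) ((i + 1) * s) n : ℝ) with hm
  have hp0 : ∀ i, 0 ≤ p i := fun i => Ex_nonneg hρ fun Q _ => ind_nonneg _
  have hpm : ∀ i, p i ≤ m i := fun i => Ex_mono hρ fun Q _ => Core2_ind_le _
  have hm8 : ∀ i ∈ Ico L i1, m i ≤ 8 * P / L := fun i hi0 => cell_mean_leg hρ h hP hs hL hi0 hn
  have hlam : lam D ρ x s L i1 n = ∑ i ∈ Ico L i1, m i := rfl
  have hE : Ex ρ (Icc 1 x) (fun Q => ind (Yc (cfg D Q) s L i1 n = k)) =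
      Ex ρ (Icc 1 x) (fun Q => ind ((@Finset.filter ℕ
        (fun i => cnt (cfg D Q) (i * s) ((i + 1) * s) n ≠ 0)
        (fun _ => Classical.propDecidable _) (Ico L i1)).card = k)) := by
    refine Ex_congr fun Q _ => ind_congr ?_
    unfold Yc
    congr!
  have h1 : |Ex ρ (Icc 1 x) (fun Q => ind (Yc (cfg D Q) s L i1 n = k)) -
      poi k (∑ i ∈ Ico L i1, p i)| ≤ 2 * ∑ i ∈ Ico L i1, p i ^ 2 := by
    rw [hE]
    exact hLC
  have h2 : ∑ i ∈ Ico L i1, p i ^ 2 ≤ 8 * P / L * lam D ρ x s L i1 n := by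
    rw [hlam, mul_sum]
    refine sum_le_sum fun i hi0 => ?_
    rw [sq]
    exact mul_le_mul ((hpm i).trans (hm8 i hi0)) (hpm i) (hp0 i) (by positivity)
  have h3 := poi_lip k (sum_nonneg fun i (_ : i ∈ Ico L i1) => hp0 i) hl
  have h4 : ∑ i ∈ Ico L i1, (Ex ρ (Icc 1 x) fun Q =>
      (cnt (cfg D Q) (i * s) ((i + 1) * s) n : ℝ) -
        ind (cnt (cfg D Q) (i * s) ((i + 1) * s) n ≠ 0)) =
      lam D ρ x s L i1 n - ∑ i ∈ Ico L i1, p i := by
    rw [hlam, ← sum_sub_distrib]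
    exact sum_congr rfl fun i _ => Ex_sub _ _
  have h5 : ∑ i ∈ Ico L i1, p i ≤ lam D ρ x s L i1 n := by
    rw [hlam]
    exact sum_le_sum fun i _ => hpm i
  have h6 : |∑ i ∈ Ico L i1, p i - l0| ≤
      |lam D ρ x s L i1 n - l0| + (lam D ρ x s L i1 n - ∑ i ∈ Ico L i1, p i) := by
    have a1 := le_abs_self (lam D ρ x s L i1 n - l0)
    have a2 := neg_abs_le (lam D ρ x s L i1 n - l0)
    rw [abs_le]
    constructor <;> linarith
  have h7 := abs_sub_le (Ex ρ (Icc 1 x) (fun Q => ind (Yc (cfg D Q) s L i1 n = k)))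
    (poi k (∑ i ∈ Ico L i1, p i)) (poi k l0)
  have h8 : (16 : ℝ) * P / L * lam D ρ x s L i1 n = 2 * (8 * P / L * lam D ρ x s L i1 n) := by ring
  rw [h4, h8]
  linarith

theorem mean_Fkg (hρ : Prob ρ) (h : HPTg D ρ x s L i1 P) (hP : 1 ≤ P) (hs : 1 ≤ s) (hL : 1 ≤ L) (hLi : L ≤ i1)
    (hx : x ≤ s ^ 2) (hi : i1 * s ≤ x) {n0 : ℕ} (hn : L * (i1 * s) ≤ n0) (k : ℕ) {l0 η : ℝ}
    (hl : 0 ≤ l0) (hη : 0 < η) (hη1 : η ≤ 1 / 4)
    (hup : HUP D ρ x s L i1 n0 l0 η) (hn0 : (n0 : ℝ) ≤ η * x) (hi' : ((i1 * s : ℕ) : ℝ) ≤ η * x)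
    (hLP : P / (L : ℝ) ≤ η) (hS : l0 - η ≤ ∑ t ∈ Ico (L * s) (i1 * s), pit D ρ t / t) :
    |Ex ρ (Icc 1 x) (fun Q => Fk (cfg D Q) x s L i1 k) - x * poi k l0| ≤
      (55 + 19 * l0) * η * x := by
  have hP0 : 0 < P := by linarith
  have hLη : 1 / (L : ℝ) ≤ η := le_trans (by gcongr) hLP
  have hx0 : (0 : ℝ) ≤ x := Nat.cast_nonneg x
  have hηx : η * x ≤ 1 / 4 * x := mul_le_mul_of_nonneg_right hη1 hx0
  have hn0x : n0 ≤ x := by
    have : (n0 : ℝ) ≤ x := by linarith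
    exact_mod_cast this
  obtain ⟨hA, hB⟩ := lam_L1 hρ hs hL hLi hx hi hl hη hη1 hup hn0 hi' hLη hS
  have hZ := Ex_Z_leg hρ h hP hs hL
  set e : ℕ → ℝ := fun n => Ex ρ (Icc 1 x) (fun Q => ind (Yc (cfg D Q) s L i1 n = k)) with he
  set z : ℕ → ℝ := fun n => ∑ i ∈ Ico L i1, Ex ρ (Icc 1 x) fun Q =>
    (cnt (cfg D Q) (i * s) ((i + 1) * s) n : ℝ) -
      ind (cnt (cfg D Q) (i * s) ((i + 1) * s) n ≠ 0) with hz
  have hF : Ex ρ (Icc 1 x) (fun Q => Fk (cfg D Q) x s L i1 k) = ∑ n ∈ Icc 1 x, e n := by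
    rw [← Ex_sum]
    refine Ex_congr fun Q _ => ?_
    unfold Fk
    exact Core2_card _ _
  have hZ' : Ex ρ (Icc 1 x) (fun Q => ∑ i ∈ Ico L i1, Zi (cfg D Q) x s i) =
      ∑ n ∈ Icc 1 x, z n := by
    rw [Ex_sum, hz, sum_comm]
    refine sum_congr rfl fun i _ => ?_
    unfold Zi
    rw [Ex_sum]
  have hz0 : ∀ n, 0 ≤ z n := fun n =>
    sum_nonneg fun i _ => Ex_nonneg hρ fun Q _ => sub_nonneg.mpr (Core2_ind_le _)
  have hsub : Ioc n0 x ⊆ Icc 1 x := by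
    intro n hn1
    rw [mem_Ioc] at hn1
    rw [mem_Icc]
    omega
  have hz1 : ∑ n ∈ Ioc n0 x, z n ≤ 32 * P * x / L := by
    rw [hZ'] at hZ
    exact (sum_le_sum_of_subset_of_nonneg hsub fun n _ _ => hz0 n).trans hZ
  have hPP : (x : ℝ) * poi k l0 = ∑ _n ∈ Icc 1 x, poi k l0 := by
    rw [sum_const, nsmul_eq_mul, Nat.card_Icc, Nat.add_sub_cancel]
  have hI : Icc 1 x = Ioc 0 x := by
    ext n
    rw [mem_Icc, mem_Ioc]
    omega
  have hsplit : ∑ n ∈ Icc 1 x, |e n - poi k l0| =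
      ∑ n ∈ Ioc 0 n0, |e n - poi k l0| + ∑ n ∈ Ioc n0 x, |e n - poi k l0| := by
    rw [hI, sum_Ioc_consecutive _ (Nat.zero_le n0) hn0x]
  have h1 : ∑ n ∈ Ioc 0 n0, |e n - poi k l0| ≤ n0 := by
    have : ∑ n ∈ Ioc 0 n0, |e n - poi k l0| ≤ ∑ _n ∈ Ioc 0 n0, (1 : ℝ) := by
      refine sum_le_sum fun n _ => ?_
      have a1 : 0 ≤ e n := Ex_nonneg hρ fun Q _ => ind_nonneg _
      have a2 : e n ≤ 1 := Ex_le_const hρ fun Q _ => ind_le_one _
      have a3 := poi_nonneg k hl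
      have a4 := poi_le_one k hl
      rw [abs_le]
      constructor <;> linarith
    rw [sum_const, nsmul_eq_mul, Nat.card_Ioc, Nat.sub_zero, mul_one] at this
    exact this
  have h2 : ∑ n ∈ Ioc n0 x, |e n - poi k l0| ≤
      16 * P / L * ∑ n ∈ Ioc n0 x, lam D ρ x s L i1 n +
        ∑ n ∈ Ioc n0 x, |lam D ρ x s L i1 n - l0| + ∑ n ∈ Ioc n0 x, z n := by
    rw [mul_sum, ← sum_add_distrib, ← sum_add_distrib]
    refine sum_le_sum fun n hn1 => ?_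
    rw [mem_Ioc] at hn1
    exact mean_pointg hρ h hP hs hL hi (hn.trans hn1.1.le) k hl
  have h3 : (16 : ℝ) * P / L * ∑ n ∈ Ioc n0 x, lam D ρ x s L i1 n ≤ 16 * η * ((l0 + 1) * x) := by
    have a1 : (16 : ℝ) * P / L ≤ 16 * η := by
      rw [mul_div_assoc]
      linarith
    calc (16 : ℝ) * P / L * ∑ n ∈ Ioc n0 x, lam D ρ x s L i1 n
        ≤ 16 * P / L * ((l0 + 1) * x) := mul_le_mul_of_nonneg_left hB (by positivity)
      _ ≤ 16 * η * ((l0 + 1) * x) := mul_le_mul_of_nonneg_right a1 (by positivity)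
  have h4 : 32 * P * (x : ℝ) / L ≤ 32 * (η * x) := by
    have a1 : (x : ℝ) * (P / L) ≤ x * η := mul_le_mul_of_nonneg_left hLP hx0
    have a2 : 32 * P * (x : ℝ) / L = 32 * (x * (P / L)) := by ring
    rw [a2]
    linarith
  rw [hF, hPP, ← sum_sub_distrib]
  refine (abs_sum_le_sum_abs _ _).trans ?_
  rw [hsplit]
  have h5 : (55 + 19 * l0) * η * x =
      η * x + (16 * η * ((l0 + 1) * x) + (6 + 3 * l0) * η * x + 32 * (η * x)) := by ring
  rw [h5]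
  linarith

theorem core_fing (hρ : Prob ρ) (h : HPTg D ρ x s L i1 P) (hP : 1 ≤ P) (hs : 1 ≤ s) (hL : 1 ≤ L) (hLi : L ≤ i1)
    (hx0 : 1 ≤ x) (hx : x ≤ s ^ 2) (hi : i1 * s ≤ x) {n0 : ℕ} (hn : L * (i1 * s) ≤ n0) (k : ℕ)
    {l0 η : ℝ} (hl : 0 ≤ l0) (hη : 0 < η) (hη1 : η ≤ 1 / 4)
    (hup : HUP D ρ x s L i1 n0 l0 η) (hn0 : (n0 : ℝ) ≤ η * x) (hi' : ((i1 * s : ℕ) : ℝ) ≤ η * x)
    (hLP : P / (L : ℝ) ≤ η) (hS : l0 - η ≤ ∑ t ∈ Ico (L * s) (i1 * s), pit D ρ t / t)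
    (hW : Ex ρ (Icc 1 x) (fun Q => Wt (cfg D Q) x s L i1) ≤ η * x) :
    Ex ρ (Icc 1 x) (fun Q => ind (70 * (1 + l0) * η * x < |Rk (cfg D Q) k x - x * poi k l0|)) ≤
      8 / (η ^ 2 * L) + (4 * (s : ℝ) ^ 3 + 2 * (x : ℝ) ^ 2 / s) / (η * x) ^ 2 +
        32 * P / (η * L) := by
  have hP0 : 0 < P := by linarith
  have hLη : 1 / (L : ℝ) ≤ η := le_trans (by gcongr) hLP
  have hxp : (0 : ℝ) < x := by exact_mod_cast hx0
  have hLp : (0 : ℝ) < L := by exact_mod_cast hL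
  have ha : 0 < η * x := mul_pos hη hxp
  have hm := mean_Fkg hρ h hP hs hL hLi hx hi hn k hl hη hη1 hup hn0 hi' hLP hS
  have hZ := Ex_Z_leg hρ h hP hs hL
  have hvF := var_Fk (D := D) hρ hs hL hi k
  have hvW := var_Wt (D := D) (x := x) (L := L) (i1 := i1) hρ hs
  have c1 := chebyshev (U := Icc 1 x) hρ (fun Q => Fk (cfg D Q) x s L i1 k)
    (Ex ρ (Icc 1 x) fun Q => Fk (cfg D Q) x s L i1 k) ha
  have c2 := chebyshev (U := Icc 1 x) hρ (fun Q => Wt (cfg D Q) x s L i1)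
    (Ex ρ (Icc 1 x) fun Q => Wt (cfg D Q) x s L i1) ha
  have c3 := markov (U := Icc 1 x) (F := fun Q => ∑ i ∈ Ico L i1, Zi (cfg D Q) x s i) hρ
    (fun Q => sum_nonneg fun i _ => Zi_nonneg _ x s i) ha
  generalize (Ex ρ (Icc 1 x) fun Q => Fk (cfg D Q) x s L i1 k) = mF at hm hvF c1
  generalize (Ex ρ (Icc 1 x) fun Q => Wt (cfg D Q) x s L i1) = mW at hW hvW c2
  refine (Ex_mono hρ (G := fun Q => ind (η * x < |Fk (cfg D Q) x s L i1 k - mF|) +
    ind (η * x < |Wt (cfg D Q) x s L i1 - mW|) +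
    ind (η * x < ∑ i ∈ Ico L i1, Zi (cfg D Q) x s i)) fun Q _ => ?_).trans ?_
  · have hd := disc (cfg D Q) (i1 := i1) k hs hL hx hi
    have hL2 : 2 * (x : ℝ) / L ≤ 2 * (η * x) := by
      have := mul_le_mul_of_nonneg_right hLη hxp.le
      calc 2 * (x : ℝ) / L = 2 * (1 / L * x) := by ring
        _ ≤ 2 * (η * x) := by linarith
    refine Core3_union fun h0 => ?_
    by_contra hc
    simp only [not_or, not_lt] at hc
    obtain ⟨h1, h2, h3⟩ := hc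
    have h4 := abs_le.1 h1
    have h5 := abs_le.1 h2
    have h6 := abs_le.1 hd
    have h7 := abs_le.1 hm
    have h8 : 0 ≤ l0 * (η * x) := mul_nonneg hl ha.le
    refine absurd h0 (not_lt.2 (abs_le.2 ⟨?_, ?_⟩)) <;> nlinarith
  · rw [Ex_add, Ex_add]
    refine add_le_add (add_le_add (c1.trans ?_) (c2.trans ?_)) (c3.trans ?_)
    · refine (div_le_div_of_nonneg_right hvF (by positivity)).trans (le_of_eq ?_)
      field_simp
    · exact div_le_div_of_nonneg_right hvW (by positivity)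
    · refine (div_le_div_of_nonneg_right hZ ha.le).trans (le_of_eq ?_)
      field_simp

end

theorem coreg {D : Set ℕ} {ρ : ℕ → ℝ} (hρ : Prob ρ) {c : ℝ} (hc : 0 ≤ c) (hM : HMert D ρ c)
    (hS : HSparse D ρ) (hF : HFing D ρ (c * Real.log 2)) : HConc D ρ (c * Real.log 2) := by
  intro k η0 hη0
  have hl : 0 ≤ c * Real.log 2 := mul_nonneg hc (Real.log_nonneg one_le_two)
  obtain ⟨η, hη, hη1, hη2⟩ : ∃ η : ℝ, 0 < η ∧ η ≤ 1 / 4 ∧ 70 * (1 + c * Real.log 2) * η ≤ η0 :=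
    ⟨min (1 / 4) (η0 / (70 * (1 + c * Real.log 2))), by positivity, min_le_left _ _,
      (le_div_iff₀' (by positivity)).1 (min_le_right _ _)⟩
  obtain ⟨δ, hδ, hδ1, hδ2⟩ : ∃ δ : ℝ, 0 < δ ∧ δ ≤ 1 / 10 ∧ 16 * (c + 1) * δ ≤ η :=
    ⟨min (1 / 10) (η / (16 * (c + 1))), by positivity, min_le_left _ _,
      (le_div_iff₀' (by positivity)).1 (min_le_right _ _)⟩
  have hε : 0 < η / 24 := by positivity
  obtain ⟨z0, hz0⟩ := hM _ hε
  obtain ⟨z1, hz1⟩ := eventually_atTop.1 (hS _ hε)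
  have hC : 0 < 106 / η ^ 2 := by positivity
  filter_upwards [hF δ η hδ hδ1 hη (by linarith only [hη1]), par1 hδ hδ1 hη, par2 hδ hδ1,
    CoreG_ratio hδ hC, CoreG_ratio hδ (show 0 < 1 / η by positivity), log_pow_le_sp 2 hC,
    log_pow_le_sp 0 (show (0 : ℝ) < (z0 + z1 + 1 : ℕ) by positivity), eventually_ge_atTop 2]
    with x h1 h2 h3 h4 h4' h5 h6 hx
  obtain ⟨p1, p2, p3, p4, p5, p6, -⟩ := h2
  obtain ⟨q1, q2, q3, q4⟩ := h3
  rw [pow_zero, mul_one, Nat.cast_le] at h6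
  have hx0 : (0 : ℝ) < x := Nat.cast_pos.2 (by omega)
  have hs : 1 ≤ sp x := by omega
  have hs0 : (0 : ℝ) < sp x := Nat.cast_pos.2 hs
  have hsx : (sp x : ℝ) ^ 2 ≤ 4 * x := by
    have := pow_le_pow_left₀ hs0.le (sp_le (show 1 ≤ x by omega)) 2
    rw [mul_pow, Real.sq_sqrt hx0.le] at this
    linarith only [this]
  have r1 : sp x ≤ Lp δ x * sp x := Nat.le_mul_of_pos_left _ (by omega)
  have r2 : Lp δ x * sp x ≤ ip δ x * sp x := Nat.mul_le_mul_right _ p2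
  have m1 := Core4_up hc hε.le (hz0 _ _ (by omega) r1) q1 (by linarith only [hδ1])
  have m2 := Core4_up hc hε.le (hz0 (ip δ x * sp x) (x + 1) (by omega) (by omega)) q2
    (by linarith only [hδ1])
  have m3 := (abs_le.1 (hz0 _ _ (by omega) r2)).1
  have m4 := mul_le_mul_of_nonneg_left (hz1 (sp x) (by omega)) (show (0 : ℝ) ≤ 2 * sp x by
    positivity)
  have hW : Ex ρ (Icc 1 x) (fun Q => Wt (cfg D Q) x (sp x) (Lp δ x) (ip δ x)) ≤ η * x := by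
    have n1 := mul_le_mul_of_nonneg_left m1 hx0.le
    have n2 := mul_le_mul_of_nonneg_left m2 hx0.le
    have n3 := mul_le_mul_of_nonneg_left hsx hη.le
    have n4 := mul_le_mul_of_nonneg_left hδ2 hx0.le
    have n5 := mul_pos hx0 hδ
    have n6 := mul_pos hx0 hη
    linarith only [mean_Wt (D := D) (x := x) hρ hs (show 1 ≤ Lp δ x by omega) p2, n1, n2, n3, n4,
      n5, n6, m4]
  have hlow : c * Real.log 2 - η ≤ ∑ t ∈ Ico (Lp δ x * sp x) (ip δ x * sp x), pit D ρ t / t := by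
    have n1 := mul_le_mul_of_nonneg_left q3 hc
    have n2 := mul_le_mul_of_nonneg_left q4 hε.le
    linarith only [m3, n1, n2, hδ2, hδ, hη]
  have hP : 1 ≤ (x : ℝ) ^ (δ / 2) := Real.one_le_rpow (by exact_mod_cast (by omega : 1 ≤ x))
    (by positivity)
  have hL0 : (0 : ℝ) < Lp δ x := Nat.cast_pos.2 (by omega)
  have hlog : 0 < Real.log x := Real.log_pos (by exact_mod_cast hx)
  have hLP : (x : ℝ) ^ (δ / 2) / Lp δ x ≤ η := by
    have u1 : 1 / η ≤ Lp δ x / (x : ℝ) ^ (δ / 2) :=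
      le_trans (le_mul_of_one_le_right (by positivity) (one_le_pow₀ (by linarith))) h4'
    rw [div_le_div_iff₀ hη (by positivity)] at u1
    rw [div_le_iff₀ hL0]
    linarith
  have ht := Core4_tail hη (by linarith only [hη1]) hlog hx0 hs0 hsx h4 h5
  have e1 : 8 / (η ^ 2 * Lp δ x) ≤ 8 / (η ^ 2 * (Lp δ x / (x : ℝ) ^ (δ / 2))) := by
    gcongr
    exact div_le_self hL0.le hP
  have e2 : 32 * (x : ℝ) ^ (δ / 2) / (η * Lp δ x) =
      32 / (η * (Lp δ x / (x : ℝ) ^ (δ / 2))) := by field_simp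
  refine le_trans (Ex_mono hρ fun Q _ => ?_) ((core_fing hρ h1.1 hP hs (by omega) p2 (by omega)
    (le_sp_sq x) (by omega) p4 k hl hη hη1 h1.2 (Nat.floor_le (by positivity)) p5 hLP hlow
      hW).trans (by rw [e2]; linarith))
  by_cases h : η0 * x < |Rk (cfg D Q) k x - x * poi k (c * Real.log 2)|
  · rw [ind_pos h, ind_pos ((mul_le_mul_of_nonneg_right hη2 hx0.le).trans_lt h)]
  · rw [ind_neg h]
    exact ind_nonneg _

end Pool.Agent.Work.MP_9a1701_nt.P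
end

-- merged part: Pool.Agent.Work.MP_9a1701_nt.V.V4
section
/-!
# Integers that are not sums of blocks outside the cells
-/

set_option autoImplicit false
open Finset Filter

namespace Pool.Agent.Work.MP_9a1701_nt.P

/-- Number of `n ∈ G` with `Yc = k`. -/
noncomputable def FG (A : Set ℕ) (G : Finset ℕ) (s L i1 k : ℕ) : ℝ :=
  ((G.filter fun n => Yc A s L i1 n = k).card : ℝ)

/-- The `n ≤ x` that are not the sum of a block below or above the cells. -/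
noncomputable def Gout (A : Set ℕ) (x s L i1 : ℕ) : Finset ℕ :=
  (Icc 1 x).filter fun n => cnt A 1 (L * s) n = 0 ∧ cnt A (i1 * s) (x + 1) n = 0

lemma Gout_sub (A : Set ℕ) (x s L i1 : ℕ) : Gout A x s L i1 ⊆ Icc 1 x := filter_subset _ _

lemma Gout_card (A : Set ℕ) {x s L i1 : ℕ} (hs : 1 ≤ s) (hL : 1 ≤ L) (hLi : L ≤ i1)
    (hx : x ≤ s ^ 2) : (x : ℝ) - Wt A x s L i1 ≤ (Gout A x s L i1).card := by
  classical
  have h0 := card_filter_add_card_filter_not (s := Icc 1 x)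
    fun n => cnt A 1 (L * s) n = 0 ∧ cnt A (i1 * s) (x + 1) n = 0
  rw [Nat.card_Icc, Nat.add_sub_cancel] at h0
  have h1 : ((Icc 1 x).filter fun n =>
      ¬ (cnt A 1 (L * s) n = 0 ∧ cnt A (i1 * s) (x + 1) n = 0)).card ≤
      (((Icc 1 x).filter fun t => t ∉ Ico (L * s) (i1 * s)).biUnion fun t =>
        (blk A 1 (x + 1)).filter fun p => p.1 = t ∧ bsum A p.1 p.2 ≤ x).card := by
    refine card_le_card_of_surjOn (fun p => bsum A p.1 p.2) fun n hn => ?_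
    obtain ⟨a1, a2⟩ := mem_filter.1 (mem_coe.1 hn)
    have a3 := (mem_Icc.1 a1).2
    have hLs : 1 * 1 ≤ L * s := Nat.mul_le_mul hL hs
    have hi : L * s ≤ i1 * s := Nat.mul_le_mul_right _ hLi
    have key : ∀ lo hi : ℕ, 1 ≤ lo → (∀ t, lo ≤ t → t < hi → t ∉ Ico (L * s) (i1 * s)) →
        cnt A lo hi n ≠ 0 → n ∈ (fun p : ℕ × ℕ => bsum A p.1 p.2) '' (((((Icc 1 x).filter
          fun t => t ∉ Ico (L * s) (i1 * s)).biUnion fun t => (blk A 1 (x + 1)).filter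
            fun p => p.1 = t ∧ bsum A p.1 p.2 ≤ x : Finset (ℕ × ℕ))) : Set (ℕ × ℕ)) := by
      intro lo hi h1 h2 h3
      obtain ⟨p, hp⟩ := card_pos.1 (Nat.pos_of_ne_zero h3)
      obtain ⟨b1, b2⟩ := mem_filter.1 hp
      obtain ⟨c1, c2, c3, c4, c5⟩ := mem_blk.1 b1
      have c6 := le_bsum c2 c5
      refine ⟨p, mem_coe.2 (mem_biUnion.2 ⟨p.1, mem_filter.2 ⟨mem_Icc.2 ⟨by omega, by omega⟩,
        h2 _ c1 (by omega)⟩, mem_filter.2 ⟨mem_blk.2 ⟨by omega, c2, by omega, c4, c5⟩, rfl,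
          by omega⟩⟩), b2⟩
    rcases not_and_or.1 a2 with h | h
    · exact key 1 (L * s) le_rfl (fun t _ h2 h3 => by
        have := (mem_Ico.1 h3).1
        omega) h
    · exact key (i1 * s) (x + 1) (by omega) (fun t h1 _ h3 => by
        have := (mem_Ico.1 h3).2
        omega) h
  have h2 := (Nat.cast_le (α := ℝ)).2 (h1.trans card_biUnion_le)
  rw [Nat.cast_sum] at h2
  have h3 := h2.trans (sum_le_sum fun t ht =>
    start_count A hs hx (mem_Icc.1 (mem_filter.1 ht).1).1)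
  have h4 : (x : ℝ) = ((Gout A x s L i1).card : ℝ) + (((Icc 1 x).filter fun n =>
      ¬ (cnt A 1 (L * s) n = 0 ∧ cnt A (i1 * s) (x + 1) n = 0)).card : ℝ) := by
    unfold Gout
    exact_mod_cast h0.symm
  unfold Wt
  linarith

lemma V4_left (A : Set ℕ) {a a' : ℕ} (b : ℕ) (h : a ≤ a') : bsum A a' b ≤ bsum A a b := by
  rw [Blk1_bsum, Blk1_bsum]
  refine sum_le_sum_of_subset fun t ht => ?_
  rw [Blk1_mem] at ht ⊢
  exact ⟨h.trans ht.1, ht.2⟩

open Classical in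
/-- Blocks that start below `L s` and end at or above it. -/
lemma cross_low (A : Set ℕ) {x s L : ℕ} (hs : 1 ≤ s) (hL : 1 ≤ L) (hx : x ≤ s ^ 2) :
    ((((blk A 1 (x + 1)).filter fun p => p.1 < L * s ∧ L * s ≤ p.2 ∧
      bsum A p.1 p.2 ≤ x).card : ℕ) : ℝ) ≤ 2 * x / L := by
  have h0 : 0 < L * s := Nat.mul_pos hL hs
  have h := card_le_card_of_injOn (s := (blk A 1 (x + 1)).filter fun p =>
      p.1 < L * s ∧ L * s ≤ p.2 ∧ bsum A p.1 p.2 ≤ x)
    (t := Icc 1 (2 * s) ×ˢ Icc 1 (x / (L * s)))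
    (fun p => (bcard A p.1 (L * s - 1), bcard A (L * s) p.2))
    (fun p hp => by
      obtain ⟨h1, h2, h3, h4⟩ := mem_filter.1 (mem_coe.1 hp)
      obtain ⟨-, a2, -, a4, a5⟩ := mem_blk.1 h1
      have c1 : bcard A (L * s) p.2 ≤ x / (L * s) := (Nat.le_div_iff_mul_le h0).2
        ((bcard_mul_le A _ _).trans ((V4_left A _ h2.le).trans h4))
      have c2 : bcard A p.1 (L * s - 1) ≤ 2 * s :=
        bcard_le_two_mul hs hx ((Blk3_mono _ (by omega)).trans h4)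
      have c3 := bcard_pos (b := L * s - 1) (by omega) a4
      have c4 : 1 ≤ bcard A (L * s) p.2 := by
        rw [Blk1_bcard]
        exact card_pos.2 ⟨p.2, Blk1_mem.2 ⟨h3, le_rfl, a5⟩⟩
      exact mem_coe.2 (mem_product.2 ⟨mem_Icc.2 ⟨c3, c2⟩, mem_Icc.2 ⟨c4, c1⟩⟩))
    (fun p hp q hq e => by
      obtain ⟨h1, h2, h2', -⟩ := mem_filter.1 (mem_coe.1 hp)
      obtain ⟨h3, h4, h4', -⟩ := mem_filter.1 (mem_coe.1 hq)
      obtain ⟨-, -, -, a4, a5⟩ := mem_blk.1 h1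
      obtain ⟨-, -, -, b4, b5⟩ := mem_blk.1 h3
      obtain ⟨e1, e2⟩ := Prod.mk.inj e
      refine Prod.ext ?_ ?_
      · rcases lt_trichotomy p.1 q.1 with h | h | h
        · exact absurd e1 (bcard_lt_left (by omega) h a4).ne'
        · exact h
        · exact absurd e1 (bcard_lt_left (by omega) h b4).ne
      · rcases lt_trichotomy p.2 q.2 with h | h | h
        · exact absurd e2 (bcard_lt_right h4' h b5).ne
        · exact h
        · exact absurd e2 (bcard_lt_right h2' h a5).ne')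
  rw [card_product, Nat.card_Icc, Nat.card_Icc, Nat.add_sub_cancel, Nat.add_sub_cancel] at h
  refine (Nat.cast_le.2 h).trans ?_
  have hs' : (0 : ℝ) < s := by exact_mod_cast hs
  have hL' : (0 : ℝ) < L := by exact_mod_cast hL
  have h1 : ((x / (L * s) : ℕ) : ℝ) ≤ x / (L * s) := by
    rw [← Nat.cast_mul]
    exact Nat.cast_div_le
  push_cast
  calc 2 * (s : ℝ) * ((x / (L * s) : ℕ) : ℝ) ≤ 2 * s * (x / (L * s)) := by gcongr
    _ = _ := by field_simp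

theorem disc_low (A : Set ℕ) {x s L i1 : ℕ} (k : ℕ) (hs : 1 ≤ s) (hL : 1 ≤ L) (hx : x ≤ s ^ 2)
    (hi : i1 * s ≤ x) :
    FG A (Gout A x s L i1) s L i1 k - (4 * x / L + ∑ i ∈ Ico L i1, Zi A x s i) ≤ Rk A k x := by
  classical
  set G := Gout A x s L i1 with hG
  have hGs : G ⊆ Icc 1 x := Gout_sub A x s L i1
  have h1 : ∀ n ∈ G, Yc A s L i1 n ≤ rep A n := fun n hn => by
    rw [rep_eq_cnt (mem_Icc.1 (hGs hn)).2]
    refine card_le_card_of_surjOn (fun p => p.1 / s) fun i hi' => ?_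
    obtain ⟨a1, a2⟩ := mem_filter.1 (mem_coe.1 hi')
    obtain ⟨a3, a4⟩ := mem_Ico.1 a1
    obtain ⟨p, hp⟩ := card_pos.1 (Nat.pos_of_ne_zero a2)
    obtain ⟨b1, b2⟩ := mem_filter.1 hp
    obtain ⟨c1, c2, c3, c4, c5⟩ := mem_blk.1 b1
    have d1 : 0 < i * s := Nat.mul_pos (by omega) hs
    have d2 : (i + 1) * s ≤ i1 * s := Nat.mul_le_mul_right _ a4
    exact ⟨p, mem_coe.2 (mem_filter.2 ⟨mem_blk.2 ⟨by omega, c2, by omega, c4, c5⟩, b2⟩),
      Nat.div_eq_of_lt_le c1 (c2.trans_lt c3)⟩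
  have hab := Blk2_abs G (rep A) (Yc A s L i1) k (fun n => (rep A n : ℝ) - Yc A s L i1 n)
    (fun n hn => sub_nonneg.2 (Nat.cast_le.2 (h1 n hn))) fun n hn h => by
      have h2 : Yc A s L i1 n + 1 ≤ rep A n := lt_of_le_of_ne (h1 n hn) h.symm
      have h3 : (Yc A s L i1 n : ℝ) + 1 ≤ rep A n := by exact_mod_cast h2
      linarith
  have h2 : ((blk A 1 (x + 1)).filter fun p => bsum A p.1 p.2 ∈ G) ⊆
      ((blk A 1 (x + 1)).filter fun p => p.1 < L * s ∧ L * s ≤ p.2 ∧ bsum A p.1 p.2 ≤ x) ∪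
      (((Ico L i1).biUnion fun i => (blk A 1 (x + 1)).filter fun p =>
        p.1 ∈ Ico (i * s) ((i + 1) * s) ∧ (i + 1) * s ≤ p.2 ∧ bsum A p.1 p.2 ≤ x) ∪
      (Ico L i1).biUnion fun i => (blk A (i * s) ((i + 1) * s)).filter fun p =>
        bsum A p.1 p.2 ∈ G) := fun p hp => by
    obtain ⟨a1, a2⟩ := mem_filter.1 hp
    obtain ⟨b1, b2, b3, b4, b5⟩ := mem_blk.1 a1
    have a3 := (mem_Icc.1 (hGs a2)).2
    obtain ⟨-, g1, g2⟩ := mem_filter.1 a2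
    by_cases c : p.1 ∈ Ico (L * s) (i1 * s)
    · have d1 : p.1 / s ∈ Ico L i1 := mem_Ico.2 ⟨(Nat.le_div_iff_mul_le hs).2 (mem_Ico.1 c).1,
        (Nat.div_lt_iff_lt_mul hs).2 (mem_Ico.1 c).2⟩
      have d2 := Nat.div_mul_le_self p.1 s
      have d3 : p.1 < (p.1 / s + 1) * s := (Nat.div_lt_iff_lt_mul hs).1 (Nat.lt_succ_self _)
      refine mem_union_right _ ?_
      by_cases c' : (p.1 / s + 1) * s ≤ p.2
      · exact mem_union_left _ (mem_biUnion.2 ⟨_, d1, mem_filter.2 ⟨a1, mem_Ico.2 ⟨d2, d3⟩, c', a3⟩⟩)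
      · exact mem_union_right _ (mem_biUnion.2 ⟨_, d1, mem_filter.2
          ⟨mem_blk.2 ⟨d2, b2, not_le.1 c', b4, b5⟩, a2⟩⟩)
    · rw [mem_Ico] at c
      by_cases c1 : p.1 < L * s
      · by_cases c2 : L * s ≤ p.2
        · exact mem_union_left _ (mem_filter.2 ⟨a1, c1, c2, a3⟩)
        · exact absurd g1 (card_ne_zero.2 ⟨p, mem_filter.2
            ⟨mem_blk.2 ⟨b1, b2, not_le.1 c2, b4, b5⟩, rfl⟩⟩)
      · exact absurd g2 (card_ne_zero.2 ⟨p, mem_filter.2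
          ⟨mem_blk.2 ⟨by omega, b2, b3, b4, b5⟩, rfl⟩⟩)
  have h3 := (card_le_card h2).trans ((card_union_le _ _).trans (add_le_add le_rfl
    ((card_union_le _ _).trans (add_le_add card_biUnion_le card_biUnion_le))))
  have h4 := (Nat.cast_le (α := ℝ)).2 h3
  rw [Nat.cast_add, Nat.cast_add, Nat.cast_sum, Nat.cast_sum] at h4
  have h5 := h4.trans (add_le_add (cross_low A hs hL hx) (add_le_add (sum_le_sum fun i hi' =>
      cross_count A hs (hL.trans (mem_Ico.1 hi').1)) le_rfl))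
  have hs' : (0 : ℝ) < s := by exact_mod_cast hs
  have hx' : (x : ℝ) ≤ s ^ 2 := by exact_mod_cast hx
  have h6 : ∑ i ∈ Ico L i1, ((x : ℝ) / (i * s)) ^ 2 ≤ 2 * x / L := by
    calc ∑ i ∈ Ico L i1, ((x : ℝ) / (i * s)) ^ 2
        ≤ ∑ i ∈ Ico L i1, (x : ℝ) * (1 / (i : ℝ) ^ 2) := sum_le_sum fun i _ => by
          have e : ((x : ℝ) / (i * s)) ^ 2 = x / s ^ 2 * (x * (1 / (i : ℝ) ^ 2)) := by ring
          rw [e]
          exact mul_le_of_le_one_left (by positivity) ((div_le_one (by positivity)).2 hx')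
      _ ≤ (x : ℝ) * (2 / L) := by
          rw [← mul_sum]
          exact mul_le_mul_of_nonneg_left (sum_inv_sq_le hL) (Nat.cast_nonneg _)
      _ = _ := by ring
  have h7 : ∑ n ∈ G, (rep A n : ℝ) =
      (((blk A 1 (x + 1)).filter fun p => bsum A p.1 p.2 ∈ G).card : ℝ) := by
    rw [← Blk2_sum]
    exact sum_congr rfl fun n hn => by rw [rep_eq_cnt (mem_Icc.1 (hGs hn)).2]
  have h8 : ∑ n ∈ G, (Yc A s L i1 n : ℝ) =
      ∑ i ∈ Ico L i1, ∑ n ∈ G, ind (cnt A (i * s) ((i + 1) * s) n ≠ 0) := by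
    rw [sum_comm]
    refine sum_congr rfl fun n _ => ?_
    rw [Yc, card_filter, Nat.cast_sum]
    refine sum_congr rfl fun i _ => ?_
    split_ifs with h
    · rw [ind_pos h, Nat.cast_one]
    · rw [ind_neg h, Nat.cast_zero]
  have h9 : ∑ i ∈ Ico L i1, ((((blk A (i * s) ((i + 1) * s)).filter fun p =>
      bsum A p.1 p.2 ∈ G).card : ℝ) - ∑ n ∈ G, ind (cnt A (i * s) ((i + 1) * s) n ≠ 0)) ≤
      ∑ i ∈ Ico L i1, Zi A x s i := by
    refine sum_le_sum fun i _ => ?_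
    rw [← Blk2_sum, ← sum_sub_distrib]
    exact sum_le_sum_of_subset_of_nonneg hGs fun n _ _ => sub_nonneg.2 (Core2_ind_le _)
  have h10 : (((G.filter fun n => rep A n = k).card : ℕ) : ℝ) ≤ Rk A k x :=
    Nat.cast_le.2 (card_le_card (filter_subset_filter _ hGs))
  rw [sum_sub_distrib] at h9 hab
  rw [h7, h8] at hab
  have h11 := (abs_le.1 hab).1
  have e : 4 * (x : ℝ) / L = 2 * x / L + 2 * x / L := by ring
  unfold FG
  linarith

theorem bdiffG {A A' : Set ℕ} {G : Finset ℕ} {x s L i1 i : ℕ} (hG : G ⊆ Icc 1 x) (k : ℕ)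
    (hs : 1 ≤ s) (hi : 1 ≤ i)
    (h : ∀ t, t ∉ Ico (i * s) ((i + 1) * s) → (t ∈ A ↔ t ∈ A')) :
    |FG A G s L i1 k - FG A' G s L i1 k| ≤ 2 * x / i := by
  refine (Blk2_abs G (Yc A s L i1) (Yc A' s L i1) k
    (fun n => (cnt A (i * s) ((i + 1) * s) n : ℝ) + cnt A' (i * s) ((i + 1) * s) n)
    (fun n _ => by positivity) fun n _ h1 => ?_).trans ?_
  · have h2 : 1 ≤ cnt A (i * s) ((i + 1) * s) n + cnt A' (i * s) ((i + 1) * s) n := by
      by_contra h2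
      refine h1 (congrArg card (filter_congr fun j _ => ?_))
      by_cases e : j = i
      · rw [e]
        omega
      · rw [cnt_congr fun t h3 h4 => h t fun h5 => e ?_]
        rw [← Nat.div_eq_of_lt_le h3 h4, Nat.div_eq_of_lt_le (mem_Ico.1 h5).1 (mem_Ico.1 h5).2]
    exact_mod_cast h2
  have h1 : ∀ B : Set ℕ, ∑ n ∈ G, (cnt B (i * s) ((i + 1) * s) n : ℝ) ≤ x / i := fun B => by
    rw [Blk2_sum]
    refine le_trans (Nat.cast_le.2 (card_le_card fun p hp => ?_)) (cell_count B hs hi)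
    exact mem_filter.2 ⟨(mem_filter.1 hp).1, (mem_Icc.1 (hG (mem_filter.1 hp).2)).2⟩
  rw [sum_add_distrib, two_mul, add_div]
  exact add_le_add (h1 A) (h1 A')

lemma FG_congr {A A' : Set ℕ} (G : Finset ℕ) {s L i1 : ℕ} (k : ℕ)
    (h : ∀ i ∈ Ico L i1, ∀ t ∈ Ico (i * s) ((i + 1) * s), (t ∈ A ↔ t ∈ A')) :
    FG A G s L i1 k = FG A' G s L i1 k := by
  have h1 : ∀ n, Yc A s L i1 n = Yc A' s L i1 n := fun n =>
    congrArg card (filter_congr fun i hi => by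
      rw [cnt_congr fun t h3 h4 => h i hi t (mem_Ico.2 ⟨h3, h4⟩)])
  simp only [FG, h1]

variable {D : Set ℕ} {ρ : ℕ → ℝ} {x s L i1 : ℕ}

lemma var_FG (hρ : Prob ρ) {G : Finset ℕ} (hG : G ⊆ Icc 1 x) (hs : 1 ≤ s) (hL : 1 ≤ L)
    (hi : i1 * s ≤ x) (k : ℕ) :
    Ex ρ (Icc 1 x) (fun Q => (FG (cfg D Q) G s L i1 k -
      Ex ρ (Icc 1 x) fun Q => FG (cfg D Q) G s L i1 k) ^ 2) ≤ 8 * (x : ℝ) ^ 2 / L := by
  have h := efron_stein (U := Icc 1 x) hρ (Ico L i1) (fun i => Ico (i * s) ((i + 1) * s))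
    (fun i _ j _ hij => Core3_disj s hij)
    (fun i hi' t ht => by
      rw [mem_Ico] at hi' ht
      have h1 : 1 * 1 ≤ i * s := Nat.mul_le_mul (hL.trans hi'.1) hs
      have h2 : (i + 1) * s ≤ i1 * s := Nat.mul_le_mul_right s hi'.2
      rw [mem_Icc]
      omega)
    (fun Q => FG (cfg D Q) G s L i1 k)
    (fun Q => FG_congr G k fun i hi' t ht => by
      rw [mem_cfg, mem_cfg, mem_inter]
      have : t ∈ (Ico L i1).biUnion fun i => Ico (i * s) ((i + 1) * s) :=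
        mem_biUnion.2 ⟨i, hi', ht⟩
      tauto)
    (fun i => 2 * (x : ℝ) / i)
    (fun i hi' Q Q' e => bdiffG hG k hs (hL.trans (mem_Ico.1 hi').1) fun t ht => by
      rw [mem_cfg, mem_cfg, Core3_sdiff e ht])
  refine h.trans ?_
  have e : ∑ i ∈ Ico L i1, (2 * (x : ℝ) / i) ^ 2 =
      4 * (x : ℝ) ^ 2 * ∑ i ∈ Ico L i1, 1 / (i : ℝ) ^ 2 := by
    rw [mul_sum]
    refine sum_congr rfl fun i _ => ?_
    ring
  rw [e]
  refine (mul_le_mul_of_nonneg_left (sum_inv_sq_le hL) (by positivity)).trans (le_of_eq ?_)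
  ring

/-- The set `Gout` is independent of the cells, so the deviation bound for a fixed set applies. -/
lemma dev_FG (hρ : Prob ρ) (hs : 1 ≤ s) (hL : 1 ≤ L) (hi : i1 * s ≤ x) (k : ℕ) {a : ℝ}
    (ha : 0 < a) :
    Ex ρ (Icc 1 x) (fun Q => ind (a < |FG (cfg D Q) (Gout (cfg D Q) x s L i1) s L i1 k -
      Ex ρ (Icc 1 x) fun Q' => FG (cfg D Q') (Gout (cfg D Q) x s L i1) s L i1 k|)) ≤
      8 * (x : ℝ) ^ 2 / L / a ^ 2 := by
  classical
  set V : Finset ℕ := Ico 0 (L * s) ∪ Ico (i1 * s) (x + 1) with hV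
  set dec : ℕ → Finset ℕ := fun n => (Denumerable.eqv (Finset ℕ)).symm n ∩ Icc 1 x with hdec
  have h := Ex_mul_le (U := Icc 1 x) hρ V (fun _ => 1)
    (fun Q => Denumerable.eqv (Finset ℕ) (Gout (cfg D Q) x s L i1))
    (fun Q n => ind (a < |FG (cfg D Q) (dec n) s L i1 k -
      Ex ρ (Icc 1 x) fun Q' => FG (cfg D Q') (dec n) s L i1 k|))
    (8 * (x : ℝ) ^ 2 / L / a ^ 2) (fun _ => zero_le_one) (fun _ => rfl)
    (fun Q => by
      congr 1
      unfold Gout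
      refine filter_congr fun n _ => ?_
      rw [cnt_congr (A := cfg D Q) (A' := cfg D (Q ∩ V)) (lo := 1) (hi := L * s) fun t _ h2 => by
          have : t ∈ V := mem_union_left _ (mem_Ico.2 ⟨Nat.zero_le _, h2⟩)
          rw [mem_cfg, mem_cfg, mem_inter]
          tauto,
        cnt_congr (A := cfg D Q) (A' := cfg D (Q ∩ V)) (lo := i1 * s) (hi := x + 1)
          fun t h1 h2 => by
          have : t ∈ V := mem_union_right _ (mem_Ico.2 ⟨h1, h2⟩)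
          rw [mem_cfg, mem_cfg, mem_inter]
          tauto])
    (fun Q n => by
      rw [FG_congr (A := cfg D Q) (A' := cfg D (Q \ V)) (dec n) k fun i hi' t ht => by
        rw [mem_Ico] at hi' ht
        have h1 : L * s ≤ i * s := Nat.mul_le_mul_right s hi'.1
        have h2 : (i + 1) * s ≤ i1 * s := Nat.mul_le_mul_right s hi'.2
        have : t ∉ V := by
          rw [hV, mem_union, mem_Ico, mem_Ico]
          omega
        rw [mem_cfg, mem_cfg, Finset.mem_sdiff]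
        tauto])
    (fun n => (chebyshev hρ _ _ ha).trans (div_le_div_of_nonneg_right
      (var_FG hρ inter_subset_right hs hL hi k) (by positivity)))
  rw [Ex_const, mul_one] at h
  refine le_trans (le_of_eq (Ex_congr fun Q _ => ?_)) h
  have e : dec (Denumerable.eqv (Finset ℕ) (Gout (cfg D Q) x s L i1)) =
      Gout (cfg D Q) x s L i1 := by
    rw [hdec]
    simp only [Equiv.symm_apply_apply]
    exact inter_eq_left.2 (Gout_sub _ _ _ _ _)
  rw [one_mul, e]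

end Pool.Agent.Work.MP_9a1701_nt.P
end

-- merged part: Pool.Agent.Work.MP_9a1701_nt.V.V5
section
/-!
# The multiplicative lower bound, finite form
-/

set_option autoImplicit false
open Finset Filter

namespace Pool.Agent.Work.MP_9a1701_nt.P

lemma poi_low (k : ℕ) {γ l0 l : ℝ} (h1 : γ ≤ 1) (h0 : 0 ≤ γ) (hl0 : 0 ≤ l0) (hl : 0 ≤ l) :
    (1 - γ) ^ k * poi k l0 * ind ((1 - γ) * l0 ≤ l) - max (l - l0) 0 ≤ poi k l := by
  have p0 := poi_nonneg k hl0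
  have p1 := poi_nonneg k hl
  have g0 : 0 ≤ 1 - γ := sub_nonneg.2 h1
  have m0 := le_max_right (l - l0) 0
  by_cases h : (1 - γ) * l0 ≤ l
  · rw [ind_pos h, mul_one]
    rcases le_total l l0 with h2 | h2
    · have a1 : Real.exp (-l0) ≤ Real.exp (-l) := Real.exp_le_exp.2 (neg_le_neg h2)
      have a2 : ((1 - γ) * l0) ^ k ≤ l ^ k := pow_le_pow_left₀ (mul_nonneg g0 hl0) h k
      have a3 : (1 - γ) ^ k * poi k l0 ≤ poi k l := by
        unfold poi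
        calc (1 - γ) ^ k * (Real.exp (-l0) * l0 ^ k / k.factorial)
            = Real.exp (-l0) * ((1 - γ) * l0) ^ k / k.factorial := by rw [mul_pow]; ring
          _ ≤ _ := by gcongr
      linarith
    · have a1 := (abs_le.1 (poi_lip k hl hl0)).1
      rw [abs_of_nonneg (sub_nonneg.2 h2)] at a1
      have a2 : (1 - γ) ^ k * poi k l0 ≤ poi k l0 :=
        mul_le_of_le_one_left p0 (pow_le_one₀ g0 (by linarith))
      have a3 := le_max_left (l - l0) 0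
      linarith
  · rw [ind_neg h, mul_zero]
    linarith

variable {D : Set ℕ} {ρ : ℕ → ℝ} {x s L i1 : ℕ} {P : ℝ}

lemma lam_nonneg (hρ : Prob ρ) (n : ℕ) : 0 ≤ lam D ρ x s L i1 n :=
  sum_nonneg fun _ _ => Ex_nonneg hρ fun _ _ => Nat.cast_nonneg _

open Classical in
/-- Few `n` have a small mean. -/
lemma low_count (hρ : Prob ρ) (hs : 1 ≤ s) (hL : 1 ≤ L) (hLi : L ≤ i1) (hx : x ≤ s ^ 2)
    (hi : i1 * s ≤ x) {n0 : ℕ} {l0 η θ γ : ℝ} (hl : 0 ≤ l0) (hη : 0 < η) (hη1 : η ≤ 1 / 4)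
    (hθ0 : 0 ≤ θ) (hθ1 : θ ≤ 1)
    (hup : HUP D ρ x s L i1 n0 l0 η) (hn0 : (n0 : ℝ) ≤ η * x) (hi' : ((i1 * s : ℕ) : ℝ) ≤ η * x)
    (hLη : 1 / (L : ℝ) ≤ η)
    (hS : l0 * (1 - θ) - η ≤ ∑ t ∈ Ico (L * s) (i1 * s), pit D ρ t / t) :
    γ * l0 * (((Ioc n0 x).filter fun n => ¬ (1 - γ) * l0 ≤ lam D ρ x s L i1 n).card : ℝ) ≤
      θ * l0 * x + (5 + 3 * l0) * (η * x) := by
  have hx0 : (0 : ℝ) ≤ x := Nat.cast_nonneg x
  have hn00 : (0 : ℝ) ≤ n0 := Nat.cast_nonneg n0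
  have hM := mass_total (D := D) hρ hs hL hLi hx hi n0
  set S := ∑ t ∈ Ico (L * s) (i1 * s), pit D ρ t / t with hSdef
  have hcard : ((Ioc n0 x).card : ℝ) ≤ x := by
    rw [Nat.card_Ioc]
    exact_mod_cast Nat.sub_le x n0
  have hconst : ∑ _n ∈ Ioc n0 x, l0 ≤ l0 * x := by
    rw [sum_const, nsmul_eq_mul, mul_comm]
    exact mul_le_mul_of_nonneg_left hcard hl
  have hxL : (x : ℝ) / L ≤ η * x := by
    rw [div_eq_mul_one_div, mul_comm]
    exact mul_le_mul_of_nonneg_right hLη hx0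
  have hxL0 : (0 : ℝ) ≤ (x : ℝ) / L := by positivity
  have hi2 : (i1 : ℝ) * s ≤ η * x := by exact_mod_cast hi'
  have hηx : η * x ≤ 1 / 4 * x := mul_le_mul_of_nonneg_right hη1 hx0
  have hηx0 : 0 ≤ η * x := by positivity
  unfold HUP at hup
  have e0 : γ * l0 * (((Ioc n0 x).filter fun n =>
      ¬ (1 - γ) * l0 ≤ lam D ρ x s L i1 n).card : ℝ) ≤
      ∑ n ∈ Ioc n0 x, max (l0 - lam D ρ x s L i1 n) 0 := by
    rw [mul_comm, ← nsmul_eq_mul]
    refine (card_nsmul_le_sum _ (fun n => max (l0 - lam D ρ x s L i1 n) 0) _ fun n hn => ?_).trans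
      (sum_le_sum_of_subset_of_nonneg (filter_subset _ _) fun n _ _ => le_max_right _ _)
    have := not_le.1 (mem_filter.1 hn).2
    exact le_trans (by linarith) (le_max_left _ _)
  have e1 : ∑ n ∈ Ioc n0 x, max (l0 - lam D ρ x s L i1 n) 0 =
      ∑ n ∈ Ioc n0 x, max (lam D ρ x s L i1 n - l0) 0 -
        ∑ n ∈ Ioc n0 x, lam D ρ x s L i1 n + ∑ _n ∈ Ioc n0 x, l0 := by
    rw [← sum_sub_distrib, ← sum_add_distrib]
    refine sum_congr rfl fun n _ => ?_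
    rcases le_total (lam D ρ x s L i1 n) l0 with h | h
    · rw [max_eq_left (sub_nonneg.2 h), max_eq_right (sub_nonpos.2 h)]
      ring
    · rw [max_eq_right (sub_nonpos.2 h), max_eq_left (sub_nonneg.2 h)]
      ring
  have c0 : (0 : ℝ) ≤ (x : ℝ) - x / L - 2 * n0 := by linarith
  have c1 : ((x : ℝ) - x / L - 2 * n0) * (l0 * (1 - θ) - η) ≤ ((x : ℝ) - x / L - 2 * n0) * S :=
    mul_le_mul_of_nonneg_left hS c0
  have d0 : 0 ≤ l0 * (1 - θ) := mul_nonneg hl (sub_nonneg.2 hθ1)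
  have c2 : ((x : ℝ) - 3 * (η * x)) * (l0 * (1 - θ)) ≤
      ((x : ℝ) - x / L - 2 * n0) * (l0 * (1 - θ)) :=
    mul_le_mul_of_nonneg_right (by linarith) d0
  have c3 : ((x : ℝ) - x / L - 2 * n0) * η ≤ x * η :=
    mul_le_mul_of_nonneg_right (by linarith) hη.le
  have c4 : 2 * (x : ℝ) / L = 2 * (x / L) := by ring
  have c5 : 0 ≤ η * x * (l0 * θ) := mul_nonneg hηx0 (mul_nonneg hl hθ0)
  rw [c4] at hM
  rw [e1] at e0
  nlinarith

open Classical in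
theorem mean_FG (hρ : Prob ρ) (h : HPTg D ρ x s L i1 P) (hP : 1 ≤ P) (hs : 1 ≤ s) (hL : 1 ≤ L)
    (hi : i1 * s ≤ x) {n0 : ℕ} (hn : L * (i1 * s) ≤ n0) (k : ℕ) {l0 η γ β : ℝ}
    (hl : 0 ≤ l0) (hη : 0 < η) (hη1 : η ≤ 1 / 4) (h1 : γ ≤ 1) (h0 : 0 ≤ γ)
    (hup : HUP D ρ x s L i1 n0 l0 η) (hn0 : (n0 : ℝ) ≤ η * x) (hLP : P / (L : ℝ) ≤ η)
    (hβ : (((Ioc n0 x).filter fun n => ¬ (1 - γ) * l0 ≤ lam D ρ x s L i1 n).card : ℝ) ≤ β * x)
    {G : Finset ℕ} (hG : G ⊆ Icc 1 x) :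
    (1 - γ) ^ k * poi k l0 * (G.card - η * x - β * x) - (49 + 16 * l0) * (η * x) ≤
      Ex ρ (Icc 1 x) (fun Q => FG (cfg D Q) G s L i1 k) := by
  have hP0 : 0 < P := by linarith
  have hx0 : (0 : ℝ) ≤ x := Nat.cast_nonneg x
  have hηx : η * x ≤ 1 / 4 * x := mul_le_mul_of_nonneg_right hη1 hx0
  have hZ := Ex_Z_leg hρ h hP hs hL
  set c : ℝ := (1 - γ) ^ k * poi k l0 with hc
  have c0 : 0 ≤ c := mul_nonneg (pow_nonneg (sub_nonneg.2 h1) k) (poi_nonneg k hl)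
  set e : ℕ → ℝ := fun n => Ex ρ (Icc 1 x) (fun Q => ind (Yc (cfg D Q) s L i1 n = k)) with he
  set z : ℕ → ℝ := fun n => ∑ i ∈ Ico L i1, Ex ρ (Icc 1 x) fun Q =>
    (cnt (cfg D Q) (i * s) ((i + 1) * s) n : ℝ) -
      ind (cnt (cfg D Q) (i * s) ((i + 1) * s) n ≠ 0) with hz
  have hF : Ex ρ (Icc 1 x) (fun Q => FG (cfg D Q) G s L i1 k) = ∑ n ∈ G, e n := by
    rw [← Ex_sum]
    refine Ex_congr fun Q _ => ?_
    unfold FG
    exact Core2_card _ _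
  have hZ' : Ex ρ (Icc 1 x) (fun Q => ∑ i ∈ Ico L i1, Zi (cfg D Q) x s i) =
      ∑ n ∈ Icc 1 x, z n := by
    rw [Ex_sum, hz, sum_comm]
    refine sum_congr rfl fun i _ => ?_
    unfold Zi
    rw [Ex_sum]
  have hz0 : ∀ n, 0 ≤ z n := fun n =>
    sum_nonneg fun i _ => Ex_nonneg hρ fun Q _ => sub_nonneg.mpr (Core2_ind_le _)
  set G' := G ∩ Ioc n0 x with hG'
  have s1 : G' ⊆ G := inter_subset_left
  have s2 : G' ⊆ Ioc n0 x := inter_subset_right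
  have hz1 : ∑ n ∈ G', z n ≤ 32 * P * x / L := by
    rw [hZ'] at hZ
    exact (sum_le_sum_of_subset_of_nonneg (s1.trans hG) fun n _ _ => hz0 n).trans hZ
  unfold HUP at hup
  have hu1 : ∑ n ∈ G', max (lam D ρ x s L i1 n - l0) 0 ≤ η * x :=
    (sum_le_sum_of_subset_of_nonneg s2 fun n _ _ => le_max_right _ _).trans hup
  have hB : ∑ n ∈ G', lam D ρ x s L i1 n ≤ (l0 + 1) * x := by
    have e2 : ∑ n ∈ G', lam D ρ x s L i1 n ≤
        ∑ n ∈ G', max (lam D ρ x s L i1 n - l0) 0 + ∑ _n ∈ G', l0 := by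
      rw [← sum_add_distrib]
      refine sum_le_sum fun n _ => ?_
      have := le_max_left (lam D ρ x s L i1 n - l0) 0
      linarith
    have e3 : (G'.card : ℝ) ≤ x := by
      have := card_le_card (s1.trans hG)
      rw [Nat.card_Icc, Nat.add_sub_cancel] at this
      exact_mod_cast this
    rw [sum_const, nsmul_eq_mul] at e2
    have := mul_le_mul_of_nonneg_right e3 hl
    linarith
  have h2 : ∑ n ∈ G', (c * ind ((1 - γ) * l0 ≤ lam D ρ x s L i1 n) -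
      max (lam D ρ x s L i1 n - l0) 0 - 16 * P / L * lam D ρ x s L i1 n - z n) ≤
      ∑ n ∈ G', e n := by
    refine sum_le_sum fun n hn1 => ?_
    have a1 := (mem_Ioc.1 (s2 hn1)).1
    have a2 := (abs_le.1 (mean_pointg hρ h hP hs hL hi (hn.trans a1.le) k
      (lam_nonneg (D := D) (x := x) (s := s) (L := L) (i1 := i1) hρ n))).1
    rw [sub_self, abs_zero, add_zero] at a2
    have a3 := poi_low k h1 h0 hl (lam_nonneg (D := D) (x := x) (s := s) (L := L) (i1 := i1) hρ n)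
    simp only [he, hz]
    linarith
  have h3 : ∑ n ∈ G', e n ≤ ∑ n ∈ G, e n :=
    sum_le_sum_of_subset_of_nonneg s1 fun n _ _ => Ex_nonneg hρ fun Q _ => ind_nonneg _
  have h4 : (G.card : ℝ) - η * x - β * x ≤
      ∑ n ∈ G', ind ((1 - γ) * l0 ≤ lam D ρ x s L i1 n) := by
    rw [← Core2_card]
    have a1 : G ⊆ (G'.filter fun n => (1 - γ) * l0 ≤ lam D ρ x s L i1 n) ∪ (Ioc 0 n0 ∪
        (Ioc n0 x).filter fun n => ¬ (1 - γ) * l0 ≤ lam D ρ x s L i1 n) := by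
      intro n hn1
      have b1 := mem_Icc.1 (hG hn1)
      by_cases b2 : n ≤ n0
      · exact mem_union_right _ (mem_union_left _ (mem_Ioc.2 ⟨b1.1, b2⟩))
      · have b3 : n ∈ Ioc n0 x := mem_Ioc.2 ⟨not_le.1 b2, b1.2⟩
        by_cases b4 : (1 - γ) * l0 ≤ lam D ρ x s L i1 n
        · exact mem_union_left _ (mem_filter.2 ⟨mem_inter.2 ⟨hn1, b3⟩, b4⟩)
        · exact mem_union_right _ (mem_union_right _ (mem_filter.2 ⟨b3, b4⟩))
    have a2 := (card_le_card a1).trans ((card_union_le _ _).trans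
      (add_le_add le_rfl (card_union_le _ _)))
    rw [Nat.card_Ioc, Nat.sub_zero] at a2
    have a3 := (Nat.cast_le (α := ℝ)).2 a2
    rw [Nat.cast_add, Nat.cast_add] at a3
    linarith
  have h5 : (16 : ℝ) * P / L * ∑ n ∈ G', lam D ρ x s L i1 n ≤ 16 * η * ((l0 + 1) * x) := by
    have a1 : (16 : ℝ) * P / L ≤ 16 * η := by
      rw [mul_div_assoc]
      linarith
    calc (16 : ℝ) * P / L * ∑ n ∈ G', lam D ρ x s L i1 n
        ≤ 16 * P / L * ((l0 + 1) * x) := mul_le_mul_of_nonneg_left hB (by positivity)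
      _ ≤ 16 * η * ((l0 + 1) * x) := mul_le_mul_of_nonneg_right a1 (by positivity)
  have h6 : 32 * P * (x : ℝ) / L ≤ 32 * (η * x) := by
    have a1 : (x : ℝ) * (P / L) ≤ x * η := mul_le_mul_of_nonneg_left hLP hx0
    have a2 : 32 * P * (x : ℝ) / L = 32 * (x * (P / L)) := by ring
    rw [a2]
    linarith
  rw [sum_sub_distrib, sum_sub_distrib, sum_sub_distrib, ← mul_sum, ← mul_sum] at h2
  have h7 := mul_le_mul_of_nonneg_left h4 c0
  rw [hF]
  linarith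

open Classical in
theorem core_low (hρ : Prob ρ) (h : HPTg D ρ x s L i1 P) (hP : 1 ≤ P) (hs : 1 ≤ s) (hL : 1 ≤ L)
    (hLi : L ≤ i1) (hx0 : 1 ≤ x) (hx : x ≤ s ^ 2) (hi : i1 * s ≤ x) {n0 : ℕ}
    (hn : L * (i1 * s) ≤ n0) (k : ℕ) {l0 η γ β θ : ℝ} (hl : 0 ≤ l0) (hη : 0 < η)
    (hη1 : η ≤ 1 / 4) (h1 : γ ≤ 1) (h0 : 0 ≤ γ)
    (hup : HUP D ρ x s L i1 n0 l0 η) (hn0 : (n0 : ℝ) ≤ η * x) (hLP : P / (L : ℝ) ≤ η)
    (hβ : (((Ioc n0 x).filter fun n => ¬ (1 - γ) * l0 ≤ lam D ρ x s L i1 n).card : ℝ) ≤ β * x)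
    (hW : Ex ρ (Icc 1 x) (fun Q => Wt (cfg D Q) x s L i1) ≤ θ * x) :
    Ex ρ (Icc 1 x) (fun Q => ind (Rk (cfg D Q) k x <
      ((1 - γ) ^ k * poi k l0 * (1 - θ - β) - (57 + 16 * l0) * η) * x)) ≤
      8 / (η ^ 2 * L) + (4 * (s : ℝ) ^ 3 + 2 * (x : ℝ) ^ 2 / s) / (η * x) ^ 2 +
        32 * P / (η * L) := by
  have hP0 : 0 < P := by linarith
  have hLη : 1 / (L : ℝ) ≤ η := le_trans (by gcongr) hLP
  have hxp : (0 : ℝ) < x := by exact_mod_cast hx0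
  have hLp : (0 : ℝ) < L := by exact_mod_cast hL
  have ha : 0 < η * x := mul_pos hη hxp
  have hZ := Ex_Z_leg hρ h hP hs hL
  have hvW := var_Wt (D := D) (x := x) (L := L) (i1 := i1) hρ hs
  have c1 := dev_FG (D := D) hρ hs hL hi k ha
  have c2 := chebyshev (U := Icc 1 x) hρ (fun Q => Wt (cfg D Q) x s L i1)
    (Ex ρ (Icc 1 x) fun Q => Wt (cfg D Q) x s L i1) ha
  have c3 := markov (U := Icc 1 x) (F := fun Q => ∑ i ∈ Ico L i1, Zi (cfg D Q) x s i) hρ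
    (fun Q => sum_nonneg fun i _ => Zi_nonneg _ x s i) ha
  generalize (Ex ρ (Icc 1 x) fun Q => Wt (cfg D Q) x s L i1) = mW at hW hvW c2
  refine (Ex_mono hρ (G := fun Q => ind (η * x <
      |FG (cfg D Q) (Gout (cfg D Q) x s L i1) s L i1 k -
        Ex ρ (Icc 1 x) fun Q' => FG (cfg D Q') (Gout (cfg D Q) x s L i1) s L i1 k|) +
    ind (η * x < |Wt (cfg D Q) x s L i1 - mW|) +
    ind (η * x < ∑ i ∈ Ico L i1, Zi (cfg D Q) x s i)) fun Q _ => ?_).trans ?_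
  · have hd := disc_low (cfg D Q) (i1 := i1) k hs hL hx hi
    have hm := mean_FG hρ h hP hs hL hi hn k hl hη hη1 h1 h0 hup hn0 hLP hβ
      (Gout_sub (cfg D Q) x s L i1)
    have hg := Gout_card (cfg D Q) hs hL hLi hx
    have hL2 : 4 * (x : ℝ) / L ≤ 4 * (η * x) := by
      have := mul_le_mul_of_nonneg_right hLη hxp.le
      calc 4 * (x : ℝ) / L = 4 * (1 / L * x) := by ring
        _ ≤ 4 * (η * x) := by linarith
    refine Core3_union fun h0' => ?_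
    by_contra hc
    simp only [not_or, not_lt] at hc
    obtain ⟨h1', h2, h3⟩ := hc
    have h4 := (abs_le.1 h1').1
    have h5 := (abs_le.1 h2).2
    have g0 : 0 ≤ 1 - γ := sub_nonneg.2 h1
    have c0 : 0 ≤ (1 - γ) ^ k * poi k l0 := mul_nonneg (pow_nonneg g0 k) (poi_nonneg k hl)
    have c1' : (1 - γ) ^ k * poi k l0 ≤ 1 :=
      mul_le_one₀ (pow_le_one₀ g0 (by linarith)) (poi_nonneg k hl) (poi_le_one k hl)
    generalize (1 - γ) ^ k * poi k l0 = c at *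
    have h6 : x - θ * x - η * x - η * x - β * x ≤
        ((Gout (cfg D Q) x s L i1).card : ℝ) - η * x - β * x := by linarith
    have h7 := mul_le_mul_of_nonneg_left h6 c0
    have h8 := mul_le_mul_of_nonneg_right c1' ha.le
    refine absurd h0' (not_lt.2 ?_)
    nlinarith
  · rw [Ex_add, Ex_add]
    refine add_le_add (add_le_add (c1.trans ?_) (c2.trans ?_)) (c3.trans ?_)
    · refine le_of_eq ?_
      field_simp
    · exact div_le_div_of_nonneg_right hvW (by positivity)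
    · refine (div_le_div_of_nonneg_right hZ ha.le).trans (le_of_eq ?_)
      field_simp

end Pool.Agent.Work.MP_9a1701_nt.P
end
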