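import Pool.Agent.Work.MP_9a1701_nt.T.OscC

/-!
# Prime number estimates without the variance condition
-/

set_option autoImplicit false
open Finset Filter

namespace Pool.Agent.Work.MP_9a1701_nt.P

variable {al : ℕ → ℝ} {α : ℝ}

/-- The keeping probabilities converge. -/
structure Thin0 (al : ℕ → ℝ) (α : ℝ) : Prop where
  prob : Prob al
  lim : Tendsto al atTop (nhds α)

/-- The variance condition with one exponent. -/
def VarK (al : ℕ → ℝ) (κ : ℝ) : Prop :=
  ∀ᶠ n : ℕ in atTop, (n : ℝ) ^ (-κ) ≤ al n * (1 - al n)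

lemma VarK.mono {κ κ' : ℝ} (h : VarK al κ) (hk : κ ≤ κ') : VarK al κ' := by
  filter_upwards [h, eventually_ge_atTop 1] with n h1 hn
  exact (Real.rpow_le_rpow_of_exponent_le (by exact_mod_cast hn) (neg_le_neg hk)).trans h1

lemma Thin0.nonneg (hT : Thin0 al α) : 0 ≤ α :=
  ge_of_tendsto' hT.lim fun t => (hT.prob t).1

lemma Thin0.le_one (hT : Thin0 al α) : α ≤ 1 :=
  le_of_tendsto' hT.lim fun t => (hT.prob t).2

theorem short_pntV (hT : Thin0 al α) {ε : ℝ} (hε : 0 < ε) (a : ℕ) :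
    ∀ᶠ z : ℕ in atTop, ∀ B : ℕ, (z : ℝ) / Real.log z ^ a ≤ B → B ≤ z →
      ∑ t ∈ Ico z (z + B), rhoC al t ≤ (α + ε) * B / Real.log (2 * z) := by
  obtain ⟨η, hη, hη1, hη2⟩ : ∃ η : ℝ, 0 < η ∧ η ≤ 1 ∧ η ≤ ε / 3 :=
    ⟨min 1 (ε / 3), lt_min one_pos (by positivity), min_le_left _ _, min_le_right _ _⟩
  have h0 := hT.nonneg
  have h1 := hT.le_one
  obtain ⟨n0, hn0⟩ := eventually_atTop.1
    (hT.lim.eventually_le_const (show α < α + η from lt_add_of_pos_right α hη))
  filter_upwards [PrimesC_short hη a, eventually_ge_atTop n0, eventually_ge_atTop 1]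
    with z hz hz0 hz1 B hB1 hB2
  have z1 : (1 : ℝ) ≤ z := by exact_mod_cast hz1
  have l0 : 0 ≤ Real.log (2 * z) := Real.log_nonneg (by linarith)
  have B0 : (0 : ℝ) ≤ B := Nat.cast_nonneg _
  have k1 : ∑ t ∈ Ico z (z + B), rhoC al t ≤ (α + η) * ∑ t ∈ Ico z (z + B), ind t.Prime := by
    rw [mul_sum]
    refine sum_le_sum fun t ht => ?_
    rw [PrimesC_eq]
    exact mul_le_mul_of_nonneg_right (hn0 t (hz0.trans (mem_Ico.1 ht).1)) (ind_nonneg _)
  have k2 := mul_le_mul_of_nonneg_left (hz B hB1 hB2) (show 0 ≤ α + η by linarith)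
  have k3 : (α + η) * (1 + η) ≤ α + ε := by
    have c1 := mul_le_mul_of_nonneg_right h1 hη.le
    have c2 := mul_le_mul_of_nonneg_right hη1 hη.le
    linarith
  refine k1.trans (k2.trans ?_)
  rw [← mul_div_assoc, ← mul_assoc]
  exact div_le_div_of_nonneg_right (mul_le_mul_of_nonneg_right k3 B0) l0

theorem hmertV (hT : Thin0 al α) : HMert ∅ (rhoC al) α := by
  intro ε hε
  obtain ⟨η, hη, hη1, hη2⟩ : ∃ η : ℝ, 0 < η ∧ η ≤ 1 ∧ η ≤ ε / 2 :=
    ⟨min 1 (ε / 2), lt_min one_pos (by positivity), min_le_left _ _, min_le_right _ _⟩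
  have h0 := hT.nonneg
  have h1 := hT.le_one
  obtain ⟨n0, hn0⟩ := eventually_atTop.1
    ((hT.lim.eventually_le_const (show α < α + η from lt_add_of_pos_right α hη)).and
      (hT.lim.eventually_const_le (show α - η < α from sub_lt_self α hη)))
  obtain ⟨z0, hz0⟩ := PrimesC_mert hη
  refine ⟨max 2 (max n0 z0), fun u v hu huv => ?_⟩
  have u2 : 2 ≤ u := (le_max_left _ _).trans hu
  have un : n0 ≤ u := (le_max_left _ _).trans ((le_max_right _ _).trans hu)
  have a2 := abs_le.1 (hz0 u v ((le_max_right _ _).trans ((le_max_right _ _).trans hu)) huv)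
  have a3 := sub_nonneg.2 (ll_mono u2 huv)
  have c1 : ∑ t ∈ Ico u v, pit ∅ (rhoC al) t / t ≤
      (α + η) * ∑ t ∈ Ico u v, ind t.Prime / (t : ℝ) := by
    rw [mul_sum]
    refine sum_le_sum fun t ht => ?_
    rw [PrimesC_pit, mul_div_assoc]
    exact mul_le_mul_of_nonneg_right (hn0 t (un.trans (mem_Ico.1 ht).1)).1
      (div_nonneg (ind_nonneg _) (Nat.cast_nonneg _))
  have c2 : (α - η) * ∑ t ∈ Ico u v, ind t.Prime / (t : ℝ) ≤
      ∑ t ∈ Ico u v, pit ∅ (rhoC al) t / t := by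
    rw [mul_sum]
    refine sum_le_sum fun t ht => ?_
    rw [PrimesC_pit, mul_div_assoc]
    exact mul_le_mul_of_nonneg_right (hn0 t (un.trans (mem_Ico.1 ht).1)).2
      (div_nonneg (ind_nonneg _) (Nat.cast_nonneg _))
  generalize ∑ t ∈ Ico u v, pit ∅ (rhoC al) t / t = S at c1 c2 ⊢
  generalize ∑ t ∈ Ico u v, ind t.Prime / (t : ℝ) = P at c1 c2 a2
  generalize ll v - ll u = Δ at a2 a3 ⊢
  have d1 := mul_le_mul_of_nonneg_left a2.1 h0
  have d2 := mul_le_mul_of_nonneg_left a2.2 h0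
  have d3 := mul_le_mul_of_nonneg_left a2.2 hη.le
  have d4 := mul_le_mul_of_nonneg_right h1 hη.le
  have d5 := mul_le_mul_of_nonneg_right hη1 hη.le
  have d6 := mul_le_mul_of_nonneg_right hη2 a3
  have d7 := mul_nonneg hε.le a3
  rw [abs_le]
  constructor <;> linarith

theorem hsparseV (hT : Thin0 al α) : HSparse ∅ (rhoC al) := by
  intro ε hε
  have h1 := (Pool.Agent.Lib.ANT.tendsto_primeCounting_mul_log_div.comp
    tendsto_natCast_atTop_atTop).eventually_le_const one_lt_two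
  filter_upwards [h1, Primes_log.eventually_ge_atTop (2 / ε), eventually_ge_atTop 1]
    with z a1 a3 a4
  have z0 : (0 : ℝ) < z := by exact_mod_cast a4
  simp only [Function.comp_apply, Nat.floor_natCast] at a1
  rw [div_le_iff₀ z0] at a1
  rw [div_le_iff₀ hε] at a3
  have b1 : ∑ t ∈ Ico 1 z, ind t.Prime ≤ (Nat.primeCounting z : ℝ) := by
    have e : (Nat.primeCounting z : ℝ) = ∑ t ∈ range (z + 1), ind t.Prime := by
      rw [Nat.primeCounting, Nat.primeCounting', Nat.count_eq_card_filter_range, card_filter,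
        Nat.cast_sum]
      refine sum_congr rfl fun t _ => ?_
      by_cases h : t.Prime
      · rw [if_pos h, ind_pos h, Nat.cast_one]
      · rw [if_neg h, ind_neg h, Nat.cast_zero]
    rw [e]
    refine sum_le_sum_of_subset_of_nonneg (fun t ht => ?_) fun t _ _ => ind_nonneg _
    have := (mem_Ico.1 ht).2
    exact mem_range.2 (by omega)
  have b2 : (Nat.primeCounting z : ℝ) ≤ ε * z := by
    have c1 := mul_le_mul_of_nonneg_left a3 (Nat.cast_nonneg (α := ℝ) (Nat.primeCounting z))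
    have c2 := mul_le_mul_of_nonneg_right a1 hε.le
    rw [← mul_assoc] at c1
    linarith
  have b3 : ∑ t ∈ Ico 1 z, pit ∅ (rhoC al) t ≤ ∑ t ∈ Ico 1 z, ind t.Prime := by
    refine sum_le_sum fun t _ => ?_
    rw [PrimesC_pit]
    exact mul_le_of_le_one_left (ind_nonneg _) (hT.prob t).2
  linarith

theorem gbar_leV (hT : Thin0 al α) {δ η ε : ℝ} (h0 : 0 < δ) (h1 : δ ≤ 1 / 10) (hη : 0 < η)
    (hε : 0 < ε) :
    ∀ᶠ x : ℕ in atTop, ∀ K0 K1 l H N B m : ℕ, 1 ≤ K0 → K0 ≤ K1 → Lp δ x ≤ 2 * K1 →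
      K1 * (Lp δ x * sp x) ≤ 2 * x → l = ⌈Real.log x⌉₊ → H ≤ x →
      N = (x + H) / K1 + 1 → B = N / l ^ 9 + 1 → η * x ≤ 2 * K1 * m → m ≤ N →
      gbar (fun m' => Ex al (PI 1 (x + 1)) fun Q => gg (cx x Q) K0 m') B m ≤
        (α + ε) / Real.log m := by
  obtain ⟨z0, hz0⟩ := eventually_atTop.1 (short_pntV hT (half_pos hε) 10)
  filter_upwards [log_pow_le_Lp h0 10 (C := 8 / ε) (by positivity),
    log_pow_le_Lp h0 0 (C := 8 / η) (by positivity), log_pow_le_Lp h0 0 (C := 12) (by norm_num),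
    Range3_log_ge (12 / η), Range3_log_ge (2 ^ 19), eventually_ge_atTop (z0 ^ 2),
    eventually_ge_atTop 4] with x ha hb hc hd he hf hx4
  intro K0 K1 l H N B m hK0 hK01 hL hK hl hH hNd hB hm hmN
  have hK1 : 1 ≤ K1 := hK0.trans hK01
  have hK1' : (1 : ℝ) ≤ K1 := by exact_mod_cast hK1
  have hx' : (4 : ℝ) ≤ x := by exact_mod_cast hx4
  set lg : ℝ := Real.log x with hlg
  have hlg1 : (1 : ℝ) ≤ lg := le_trans (by norm_num) he
  have hl1 : lg ≤ l := by rw [hl]; exact Nat.le_ceil _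
  have hl2 : (l : ℝ) ≤ lg + 1 := by rw [hl]; exact (Nat.ceil_lt_add_one (by linarith)).le
  have hl0 : 1 ≤ l := by exact_mod_cast hlg1.trans hl1
  have hl0' : (1 : ℝ) ≤ l := hlg1.trans hl1
  obtain ⟨n1, n2, b1, b2⟩ := OscC_NB hK1 hl0 hH hNd hB
  set L : ℝ := (Lp δ x : ℝ) with hLd
  set s : ℝ := (sp x : ℝ) with hsd
  set y : ℝ := (x : ℝ) / K1 with hy
  have hs1 : (1 : ℝ) ≤ s := by
    rw [hsd]; exact_mod_cast (Nat.le_add_left 1 _ : 1 ≤ Nat.sqrt x + 1)
  have hsq : √(x : ℝ) ≤ s := sqrt_le_sp x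
  have hxs : (x : ℝ) ≤ s ^ 2 := by rw [hsd]; exact_mod_cast le_sp_sq x
  have hKr : (K1 : ℝ) * (L * s) ≤ 2 * x := by rw [hLd, hsd]; exact_mod_cast hK
  have hL4 : (12 : ℝ) ≤ L := by simpa using hc
  have hK6 : (6 : ℝ) ≤ K1 := by
    have : L ≤ 2 * K1 := by rw [hLd]; exact_mod_cast hL
    linarith
  have hy1 : L * s / 2 ≤ y := by
    rw [hy, le_div_iff₀ (by linarith)]; linarith
  have hy2 : y ≤ x / 6 := by
    rw [hy]; exact div_le_div_of_nonneg_left (by linarith) (by norm_num) hK6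
  have hLs : L ≤ L * s := le_mul_of_one_le_right (by linarith) hs1
  have hN2 : (N : ℝ) ≤ 3 * y := by linarith
  have hηL : 8 ≤ η * L := by
    have : 8 / η ≤ L := by simpa using hb
    rwa [div_le_iff₀' hη] at this
  have hm1 : η * y ≤ 2 * m := by
    rw [hy, ← mul_div_assoc, div_le_iff₀ (by linarith)]; linarith
  have hl9 : (l : ℝ) ≤ (l : ℝ) ^ 9 := le_self_pow₀ hl0' (by norm_num)
  have hl9' : (0 : ℝ) < (l : ℝ) ^ 9 := by positivity
  have hηl : 12 ≤ η * (l : ℝ) ^ 9 := by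
    have : 12 / η ≤ (l : ℝ) ^ 9 := hd.trans (hl1.trans hl9)
    rwa [div_le_iff₀' hη] at this
  have hηy : 4 * s ≤ η * y := by
    have h3 : η * (L * s / 2) ≤ η * y := mul_le_mul_of_nonneg_left hy1 hη.le
    have h4 : 8 * s ≤ η * L * s := mul_le_mul_of_nonneg_right hηL (by linarith)
    linarith
  have hBm : B ≤ m := by
    have h3 : (N : ℝ) / l ^ 9 ≤ η * y / 4 := by
      rw [div_le_iff₀ hl9']
      have h4 : 0 ≤ y := by linarith
      have h5 : 12 * y ≤ η * (l : ℝ) ^ 9 * y := mul_le_mul_of_nonneg_right hηl h4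
      linarith
    have : (B : ℝ) ≤ m := by linarith
    exact_mod_cast this
  have hB1 : 1 ≤ B := by rw [hB]; exact Nat.le_add_left 1 _
  have hB1' : (0 : ℝ) < B := by exact_mod_cast hB1
  set z : ℕ := B * (m / B) with hz
  have hzB : B ≤ z := by
    have : 1 ≤ m / B := (Nat.one_le_div_iff hB1).2 hBm
    exact Nat.le_mul_of_pos_right B this
  have hzm : z ≤ m := Nat.mul_div_le m B
  have hz2 : m ≤ 2 * z := by
    have h := Nat.lt_mul_div_succ m hB1
    rw [mul_add, mul_one, ← hz] at h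
    omega
  have hz2' : (m : ℝ) ≤ 2 * z := by exact_mod_cast hz2
  have hzs : √(x : ℝ) ≤ z := by linarith
  have hsx : (2 : ℝ) ≤ √(x : ℝ) := by
    rw [show (2 : ℝ) = √4 by rw [show (4 : ℝ) = 2 ^ 2 by norm_num, Real.sqrt_sq (by norm_num)]]
    exact Real.sqrt_le_sqrt hx'
  have hzz : z0 ≤ z := by
    have h3 : (z0 : ℝ) ≤ √(x : ℝ) := by
      apply Real.le_sqrt_of_sq_le
      exact_mod_cast hf
    exact_mod_cast h3.trans hzs
  have hlz : lg / 2 ≤ Real.log z := by
    rw [hlg, ← Real.log_sqrt (by linarith)]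
    exact Real.log_le_log (by linarith) hzs
  have hzlog : (z : ℝ) / Real.log z ^ 10 ≤ B := by
    refine le_trans ?_ b1
    have h3 : (l : ℝ) ^ 9 ≤ Real.log z ^ 10 := by
      calc (l : ℝ) ^ 9 ≤ (2 * lg) ^ 9 := by gcongr; linarith
        _ = lg ^ 9 * 2 ^ 19 / 2 ^ 10 := by ring
        _ ≤ lg ^ 9 * lg / 2 ^ 10 := by gcongr
        _ = (lg / 2) ^ 10 := by ring
        _ ≤ _ := by gcongr
    have h4 : (z : ℝ) ≤ N := by exact_mod_cast hzm.trans hmN
    gcongr
  have hp := hz0 z hzz B hzlog hzB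
  have hm2 : (2 : ℝ) ≤ m := by linarith
  have hlm : 0 < Real.log m := Real.log_pos (by linarith)
  have hlm2 : Real.log m ≤ lg + 1 := by
    have h3 : (m : ℝ) ≤ 2 * x := by
      have : (m : ℝ) ≤ N := by exact_mod_cast hmN
      linarith
    have h4 : Real.log 2 ≤ 1 := by have := Real.log_two_lt_d9; linarith
    calc Real.log m ≤ Real.log (2 * x) := Real.log_le_log (by linarith) h3
      _ = Real.log 2 + lg := by rw [Real.log_mul (by norm_num) (by linarith)]
      _ ≤ _ := by linarith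
  have hα := hT.nonneg
  have hp2 : (α + ε / 2) * B / Real.log (2 * z) ≤ (α + ε / 2) * B / Real.log m := by
    gcongr
  have hK2 : (K0 : ℝ) ≤ ε / 2 * B / Real.log m := by
    rw [le_div_iff₀ hlm]
    have h3 : (K0 : ℝ) ≤ 2 * s := by
      have h4 : (K0 : ℝ) ≤ K1 := by exact_mod_cast hK01
      have h5 : (K1 : ℝ) * s ≤ 2 * s * s := by
        have h6 : (K1 : ℝ) * s * 1 ≤ K1 * s * L :=
          mul_le_mul_of_nonneg_left (by linarith) (by positivity)
        linarith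
      have := le_of_mul_le_mul_right h5 (by linarith)
      linarith
    have h4 : L * s / 2 / (lg + 1) ^ 9 ≤ B := by
      refine le_trans ?_ b1
      gcongr
      linarith
    have h5 : 8 * (lg + 1) ^ 10 ≤ ε * L := by
      have := mul_le_mul_of_nonneg_left ha hε.le
      calc 8 * (lg + 1) ^ 10 = ε * (8 / ε * (lg + 1) ^ 10) := by field_simp
        _ ≤ _ := this
    have h6 : 2 * s * (lg + 1) ≤ ε / 2 * (L * s / 2 / (lg + 1) ^ 9) := by
      rw [← mul_div_assoc, le_div_iff₀ (by positivity)]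
      calc 2 * s * (lg + 1) * (lg + 1) ^ 9 = s / 4 * (8 * (lg + 1) ^ 10) := by ring
        _ ≤ s / 4 * (ε * L) := by gcongr
        _ = _ := by ring
    calc (K0 : ℝ) * Real.log m ≤ 2 * s * (lg + 1) := by gcongr
      _ ≤ _ := h6
      _ ≤ ε / 2 * B := by gcongr
  have hzx : z + B ≤ x + 1 := by
    have h3 : 2 * N ≤ x := by
      have : 2 * (N : ℝ) ≤ x := by linarith
      exact_mod_cast this
    omega
  have hsum := OscC_sum hT.prob hK0 hzx
  unfold gbar
  rw [← hz, div_le_iff₀ hB1']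
  calc _ ≤ _ := hsum
    _ ≤ (α + ε / 2) * B / Real.log m + ε / 2 * B / Real.log m := by linarith
    _ = _ := by ring


end Pool.Agent.Work.MP_9a1701_nt.P
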