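import Pool.Agent.Work.MP_9a1701_nt.V.V1
import Pool.Agent.Work.MP_9a1701_nt.T.ModC1
import Pool.Agent.Work.MP_9a1701_nt.P.ModB
import Pool.Agent.Work.MP_9a1701_nt.V.V5
import Pool.Agent.Work.MP_9a1701_nt.P.Bridge

-- merged part: Pool.Agent.Work.MP_9a1701_nt.V.V2
section
/-!
# One long range with one exponent
-/

set_option autoImplicit false
open Finset Filter

namespace Pool.Agent.Work.MP_9a1701_nt.P

variable {al : ℕ → ℝ} {α : ℝ}

theorem tw_smallV {δ : ℝ} (h0 : 0 < δ) (h1 : δ ≤ 1 / 10) :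
    ∃ κ0 : ℝ, 0 < κ0 ∧ ∀ al : ℕ → ℝ, Prob al → ∀ κ η : ℝ, 0 < κ → κ ≤ κ0 → 0 < η → ∀ᶠ x : ℕ in atTop,
      ∀ rr w KL K1 H N : ℕ, rr = Lp κ x → Par x rr w K1 → Lp δ x ≤ 2 * KL → KL ≤ K1 →
        K1 + w ≤ 2 * KL → w * rr ^ 9 ≤ KL → H = KL * rr ^ 8 → H ≤ x → N = (x + H) / KL + 1 →
        ∑ n ∈ Ioc ⌊η * x⌋₊ x, tw al x w rr K1 N H n ≤ H * x / (rr : ℝ) ^ 10 := by
  obtain ⟨κ0, k0, h⟩ := tws_small h0 h1
  refine ⟨κ0, k0, fun al hρ κ η hκ hκ0 hη => (h κ η hκ hκ0 hη).mono fun x hx => ?_⟩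
  intro rr w KL K1 H N hr hP k1 k2 k3 k4 hH k5 hN
  have r8 : (8 : ℝ) ≤ rr := by exact_mod_cast hP.h8
  have r0 : (0 : ℝ) < rr := by linarith only [r8]
  have s : ∀ (I : Finset ℕ) (f : ℕ → ℝ) (d : ℝ), 0 ≤ d → I.card ≤ 4 * rr → (∀ i ∈ I, f i ≤ d) →
      ∑ i ∈ I, f i ≤ 4 * rr * d := fun I f d d0 k k' =>
    (sum_le_card_nsmul _ _ _ k').trans (by
      rw [nsmul_eq_mul]
      exact mul_le_mul_of_nonneg_right (by exact_mod_cast k) d0)
  unfold tw
  rw [sum_comm]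
  refine (s _ _ (4 * rr * (4 * rr * (2 * (H * x / (rr : ℝ) ^ 16)))) (by positivity) (by simp)
    fun q hq => ?_).trans ?_
  · obtain ⟨q1, q2⟩ := mem_Icc.1 hq
    rw [sum_comm]
    refine s _ _ _ (by positivity) ((card_filter_le _ _).trans (by rwa [Finset.card_range]))
      fun r hr' => ?_
    rw [sum_comm]
    refine s _ _ _ (by positivity) (by rw [Nat.card_Ico]; omega) fun a ha => ?_
    obtain ⟨a1, a2⟩ := mem_Ico.1 ha
    have nd : ¬ q ∣ a * r := fun d =>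
      absurd (Nat.le_of_dvd a1 ((mem_filter.1 hr').2.symm.dvd_of_dvd_mul_right d)) (not_le.2 a2)
    have k := hx rr w KL K1 H N q (a * r) hr k1 k2 k3 k4 hH k5 (k2.trans hP.lex) hN q1 q2 nd
    rw [sum_add_distrib, two_mul]
    exact add_le_add (k _ (abs_gam_le hρ hP Real.abs_cos_le_one q r a))
      (k _ (abs_gam_le hρ hP Real.abs_sin_le_one q r a))
  · have p : (8 : ℝ) ^ 3 ≤ (rr : ℝ) ^ 3 := pow_le_pow_left₀ (by norm_num) r8 3
    calc _ = H * x * 128 / (rr : ℝ) ^ 13 := by field_simp; ring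
      _ ≤ H * x * (rr : ℝ) ^ 3 / (rr : ℝ) ^ 13 :=
          div_le_div_of_nonneg_right (mul_le_mul_of_nonneg_left (by linarith only [p])
            (by positivity)) (by positivity)
      _ = _ := by field_simp

theorem var_geV {δ κ : ℝ} (hV : VarK al κ) (h0 : 0 < δ) (hκ : 0 < κ) : ∀ᶠ x : ℕ in atTop,
    ∀ u : ℕ, Lp δ x * sp x ≤ u → u ≤ x → 1 / (Lp κ x : ℝ) ≤ al u * (1 - al u) := by
  obtain ⟨N0, hN0⟩ := eventually_atTop.1 hV
  filter_upwards [An_rpow_ev (δ := 1 / 2) (by norm_num) N0, eventually_ge_atTop 1]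
    with x a1 hx u hu hux
  have hx' : (1 : ℝ) ≤ x := by exact_mod_cast hx
  rw [← Real.sqrt_eq_rpow] at a1
  have hL : 1 ≤ Lp δ x := by
    have : (1 : ℝ) ≤ Lp δ x := (Real.one_le_rpow hx' h0.le).trans (le_Lp δ x)
    exact_mod_cast this
  have hs : N0 ≤ sp x := by exact_mod_cast a1.trans (sqrt_le_sp x)
  have hsu : sp x ≤ u := le_trans (Nat.le_mul_of_pos_left _ hL) hu
  have hs0 := An_sp_pos x
  have hu0 : (0 : ℝ) < u := by exact_mod_cast (by omega : 0 < u)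
  refine le_trans ?_ (hN0 u (hs.trans hsu))
  rw [Real.rpow_neg hu0.le, ← one_div]
  refine one_div_le_one_div_of_le (Real.rpow_pos_of_pos hu0 κ) (le_trans ?_ (le_Lp κ x))
  exact Real.rpow_le_rpow hu0.le (by exact_mod_cast hux) hκ.le

theorem range_finalV {δ : ℝ} (h0 : 0 < δ) (h1 : δ ≤ 1 / 10) :
    ∃ κ0 : ℝ, 0 < κ0 ∧ κ0 ≤ δ / 400 ∧ ∀ (al : ℕ → ℝ) (α : ℝ), Thin0 al α →
      ∀ (κ η ε : ℝ) (R : ℕ), 0 < κ → κ ≤ κ0 → VarK al κ → 0 < η → η ≤ 1 →
      0 < ε → 2 ≤ R → ∀ᶠ x : ℕ in atTop, ∀ rr : ℕ, rr = Lp κ x → ∀ q ∈ Ico R (2 * R), ∀ w : ℕ,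
        Lp δ x ≤ 2 * R * (rr ^ 9 * w) → q * (rr ^ 9 * w) * (Lp δ x * sp x) ≤ 2 * x →
        ∃ err : ℕ → ℝ, (∀ n, 0 ≤ err n) ∧
          ∑ n ∈ Ioc ⌊η * x⌋₊ x, err n ≤ x / (Real.log x + 1) ^ 2 ∧
          ∀ n ∈ Ioc ⌊η * x⌋₊ x,
            ∑ j ∈ range (rr ^ 9),
              ∑ K ∈ Ioc (q * (rr ^ 9 * w) + j * w) (q * (rr ^ 9 * w) + j * w + w),
                Ex al (PI 1 (x + 1)) (fun Q => (cntGood (cx x Q) (Lp δ x * sp x)
                  (2 * (x / (q * (rr ^ 9 * w) + j * w))) (w * rr) (q * (rr ^ 9 * w) + j * w) rr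
                  (2 * w) K n : ℝ)) ≤
              (α + ε) * (1 + 4 / (R : ℝ)) *
                ∑ K ∈ Ioc (q * (rr ^ 9 * w)) ((q + 1) * (rr ^ 9 * w)),
                  1 / (K * Real.log ((n : ℝ) / K)) + err n := by
  obtain ⟨κ1, hκ1, htw⟩ := tw_smallV h0 h1
  refine ⟨min (δ / 400) κ1, lt_min (by positivity) hκ1, min_le_left _ _, ?_⟩
  intro al α hT κ η ε R hκ hκ0 hV hη _ hε hR
  have hR' : (2 : ℝ) ≤ R := by exact_mod_cast hR
  have hC : 0 < (8 + 6 * ε) / ε := by positivity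
  filter_upwards [gbar_leV hT h0 h1 hη (half_pos hε),
    osc' h0 h1 hη (show (0 : ℝ) < 1 / 18 by norm_num),
    htw al hT.prob κ η hκ (hκ0.trans (min_le_right _ _)) hη,
    par3 (C := 2 * R + 21 + (8 + 6 * ε) / ε) h0 h1 hκ (hκ0.trans (min_le_left _ _)) hη
      (by positivity), var_geV hV h0 hκ] with x hg ho ht hp hv
  intro rr hrr q hq w hw hx
  rw [← hrr] at hp hv
  obtain ⟨p8, pex, p200, pC, pl, pK⟩ := hp
  obtain ⟨hq1, hq2⟩ := mem_Ico.1 hq
  have hy : 1 ≤ Real.log x + 1 := le_add_of_nonneg_left (Real.log_natCast_nonneg x)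
  have hy3 : 1 ≤ (Real.log x + 1) ^ 3 := one_le_pow₀ hy
  have pC1 : 2 * R + 21 + (8 + 6 * ε) / ε ≤ rr :=
    (le_mul_of_one_le_right (by positivity) hy3).trans pC
  have pC2 : 21 * (Real.log x + 1) ^ 3 ≤ rr :=
    (mul_le_mul_of_nonneg_right (by linarith) (by linarith)).trans pC
  have pR : 2 * R ≤ rr := by
    have : (2 * R : ℝ) ≤ rr := by linarith
    exact_mod_cast this
  have r1 : 1 ≤ rr := by omega
  have r8 : rr ≤ rr ^ 8 := Nat.le_self_pow (by norm_num) _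
  have r9 : rr ≤ rr ^ 9 := Nat.le_self_pow (by norm_num) _
  have hw1 : 1 ≤ w := by
    refine Nat.pos_of_ne_zero fun e => ?_
    rw [e, mul_zero, mul_zero] at hw
    exact absurd (p200.trans hw) (Nat.pow_pos r1).not_ge
  obtain ⟨p, rfl⟩ : ∃ p, q = p + 1 := ⟨q - 1, by omega⟩
  have hp1 : 1 ≤ p := by omega
  obtain ⟨w0, hw0⟩ : ∃ w0, w0 = rr ^ 9 * w := ⟨_, rfl⟩
  have w3 : 8 * w ≤ w0 := hw0 ▸ Nat.mul_le_mul_right _ (p8.trans r9)
  rw [← hw0] at hw hx ⊢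
  obtain ⟨K0, hK0d⟩ : ∃ K0, K0 = p * w0 := ⟨_, rfl⟩
  obtain ⟨KL, hKLd⟩ : ∃ KL, KL = (p + 1) * w0 := ⟨_, rfl⟩
  obtain ⟨K2, hK2d⟩ : ∃ K2, K2 = (p + 1 + 1) * w0 := ⟨_, rfl⟩
  rw [← hKLd] at hx
  rw [← hKLd, ← hK2d]
  have hK0 : w0 ≤ K0 := hK0d ▸ Nat.le_mul_of_pos_left _ hp1
  have e1 : KL = K0 + w0 := by rw [hKLd, hK0d]; ring
  have e2 : K2 = K0 + 2 * w0 := by rw [hK2d, hK0d]; ring
  have hK01 : 1 ≤ K0 := by omega
  have hK1 : 1 ≤ KL := by omega
  have hL : Lp δ x ≤ 2 * KL := by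
    refine hw.trans ?_
    rw [hKLd, mul_assoc]
    exact Nat.mul_le_mul_left _ (Nat.mul_le_mul_right _ hq1)
  obtain ⟨H, hH⟩ : ∃ H, H = KL * rr ^ 8 := ⟨_, rfl⟩
  obtain ⟨N, hNd⟩ : ∃ N, N = (x + H) / KL + 1 := ⟨_, rfl⟩
  obtain ⟨B, hB⟩ : ∃ B, B = N / ⌈Real.log x⌉₊ ^ 9 + 1 := ⟨_, rfl⟩
  obtain ⟨k1, k2, -⟩ := pK KL hL (hx.trans (by omega))
  rw [← hH] at k2
  have hH4 : KL * 8 ≤ H := hH ▸ Nat.mul_le_mul_left _ (p8.trans r8)
  have hH2 : K2 < H := by omega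
  have hxN : x + H ≤ KL * N := hNd ▸ (Nat.lt_mul_div_succ (x + H) hK1).le
  have hj : ∀ j ∈ range (rr ^ 9), KL + j * w + w ≤ K2 := fun j hj => by
    have : (j + 1) * w ≤ rr ^ 9 * w := Nat.mul_le_mul_right _ (mem_range.1 hj)
    rw [add_mul, one_mul] at this
    omega
  have hj2 : ∀ j ∈ range (rr ^ 9), _ := fun j h => pK (KL + j * w) (by omega) (by
    have := hj j h
    calc (KL + j * w) * (Lp δ x * sp x) ≤ 2 * KL * (Lp δ x * sp x) :=
          Nat.mul_le_mul_right _ (by omega)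
      _ = 2 * (KL * (Lp δ x * sp x)) := mul_assoc _ _ _
      _ ≤ 4 * x := by omega)
  have hP : ∀ j ∈ range (rr ^ 9), Par x rr w (KL + j * w) := fun j h => by
    have := hj j h
    refine ⟨p8, by rw [mul_comm, ← hw0]; omega, ?_, ?_, ?_, pex⟩
    · calc KL + j * w ≤ (p + 1 + 1) * w0 := by omega
        _ ≤ rr * w0 := Nat.mul_le_mul_right _ (by omega)
        _ = w * rr ^ 10 := by rw [hw0]; ring
    · have : rr ^ 199 * 8 ≤ rr ^ 200 := Nat.mul_le_mul_left _ p8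
      omega
    · exact (Nat.le_mul_of_pos_right _ (Nat.pow_pos r1)).trans (hj2 j h).2.1
  obtain ⟨g, hgd⟩ : ∃ g : ℕ → ℝ,
    g = fun m' => Ex al (PI 1 (x + 1)) fun Q => gg (cx x Q) K0 m' := ⟨_, rfl⟩
  have hg0 : ∀ m, 0 ≤ g m := fun m =>
    hgd ▸ Ex_nonneg hT.prob fun Q _ => gg_nonneg (cx_infinite x Q) hK01 m
  have hg1 : ∀ m, g m ≤ 1 := fun m =>
    hgd ▸ Ex_le_const hT.prob fun Q _ => gg_le_one (cx_infinite x Q) hK01 m
  have hosc := ho KL K2 _ H N B hL hx (by omega) (by omega) rfl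
    (hH ▸ Nat.mul_le_mul_left _ (pl.trans r8)) k2 hNd hB g hg0 hg1
  obtain ⟨c, hcd⟩ : ∃ c : ℝ, c = (K2 : ℝ) / (K0 * ((H : ℝ) - K2)) := ⟨_, rfl⟩
  have hc0 : 0 ≤ c := by
    have : (K2 : ℝ) < H := by exact_mod_cast hH2
    exact hcd ▸ div_nonneg (Nat.cast_nonneg _) (mul_nonneg (Nat.cast_nonneg _) (sub_pos.2 this).le)
  have hcc : c * ((H : ℝ) + K2) * (1 + ε / 2) ≤ (1 + ε) * (1 + 4 / (R : ℝ)) ∧ c * H ≤ 6 := by
    have r8' : (rr : ℝ) ≤ (rr : ℝ) ^ 8 := by exact_mod_cast r8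
    have h3 : 8 + 6 * ε ≤ ε * (rr : ℝ) ^ 8 := (div_le_iff₀' hε).1 (by linarith)
    have h := Range3_const (q := (p : ℝ) + 1) (w := w0) (u := (rr : ℝ) ^ 8) hε hR'
      (by exact_mod_cast hq1) (by exact_mod_cast (by omega : 0 < w0)) (by linarith) h3
    have f0 : (K0 : ℝ) = ((p : ℝ) + 1 - 1) * w0 := by rw [hK0d]; push_cast; ring
    have f2 : (K2 : ℝ) = ((p : ℝ) + 1 + 1) * w0 := by rw [hK2d]; push_cast; ring
    have fH : (H : ℝ) = ((p : ℝ) + 1) * w0 * (rr : ℝ) ^ 8 := by rw [hH, hKLd]; push_cast; ring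
    rw [hcd, f0, f2, fH]
    exact h
  have r0 : (0 : ℝ) < rr := by exact_mod_cast r1
  refine ⟨fun n => 1 / (rr : ℝ) + c * |∑ K ∈ Ioc KL K2,
    ∑ m ∈ (Icc 1 N).filter (fun m => n < K * m ∧ K * m ≤ n + H), (g m - gbar g B m)| +
      c * ∑ j ∈ range (rr ^ 9), tw al x w rr (KL + j * w) N H n, fun n => add_nonneg
    (add_nonneg (one_div_pos.2 r0).le (mul_nonneg hc0 (abs_nonneg _)))
    (mul_nonneg hc0 (sum_nonneg fun _ _ => RangeC_tw _ _ _ _ _ _ _ _)), ?_, ?_⟩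
  · rw [sum_add_distrib, sum_add_distrib, ← mul_sum, ← mul_sum, sum_comm]
    refine le_trans (add_le_add (add_le_add ?_ (mul_le_mul_of_nonneg_left hosc hc0))
      (mul_le_mul_of_nonneg_left ?_ hc0)) (RangeC_err hcc.2 (Nat.cast_nonneg x) hy pC2)
    · rw [sum_const, Nat.card_Ioc, nsmul_eq_mul]
      exact mul_le_mul_of_nonneg_right (Nat.cast_le.2 (Nat.sub_le _ _)) (one_div_pos.2 r0).le
    · refine (sum_le_card_nsmul _ _ _ fun j h => ht rr w KL _ H N hrr (hP j h) hL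
        (Nat.le_add_right _ _) ((hj j h).trans (by omega)) (by rw [mul_comm, ← hw0]; omega) hH k2
        hNd).trans_eq ?_
      rw [Finset.card_range, nsmul_eq_mul, Nat.cast_pow]
  intro n hn
  obtain ⟨hn1, hn2⟩ := mem_Ioc.1 hn
  have hn3 : η * x < n := (Nat.floor_lt (by positivity)).1 hn1
  have hKn : 4 * KL < n :=
    (Nat.le_mul_of_pos_right _ (Nat.pow_pos r1)).trans_lt (k1.trans_lt hn1)
  have hlog : ∀ K ∈ Ioc KL K2, (1 : ℝ) < (n : ℝ) / K := by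
    intro K hK
    obtain ⟨k1, k2⟩ := mem_Ioc.1 hK
    have k0 : (0 : ℝ) < K := by exact_mod_cast (by omega : 0 < K)
    rw [one_lt_div k0]
    exact_mod_cast (by omega : K < n)
  have ha := add_nonneg hT.nonneg (half_pos hε).le
  have key := sum_g_le (K2 := K2) (N := N) (H := H) (n := n) hK1 g (gbar g B)
    (fun K => (α + ε / 2) / Real.log ((n : ℝ) / K))
    (fun K hK => div_nonneg ha (Real.log_pos (hlog K hK)).le)
    (by
      intro K hK m m1 m2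
      obtain ⟨k1, k2'⟩ := mem_Ioc.1 hK
      have k0 : (0 : ℝ) < K := by exact_mod_cast (by omega : 0 < K)
      have m3 : n < 2 * KL * m := m1.trans_le (Nat.mul_le_mul_right _ (by omega))
      have m4 : m ≤ N := Nat.le_of_mul_le_mul_left
        ((Nat.mul_le_mul_right _ k1.le).trans (m2.trans (le_trans (by omega) hxN))) hK1
      have m5 : η * x ≤ 2 * KL * m := hn3.le.trans (by exact_mod_cast m3.le)
      refine (hgd ▸ hg K0 KL _ H N B m hK01 (by omega) hL hx rfl k2 hNd hB m5 m4).trans ?_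
      have m6 : (n : ℝ) / K ≤ m := by
        rw [div_le_iff₀' k0]; exact_mod_cast m1.le
      have m7 := hlog K hK
      exact div_le_div_of_nonneg_left ha (Real.log_pos m7)
        (Real.log_le_log (one_pos.trans m7) m6))
  have hS : ∑ K ∈ Ioc KL K2, (α + ε / 2) / Real.log ((n : ℝ) / K) / K =
      (α + ε / 2) * ∑ K ∈ Ioc KL K2, 1 / (K * Real.log ((n : ℝ) / K)) := by
    rw [mul_sum]
    refine sum_congr rfl fun K _ => ?_
    rw [div_div, mul_one_div, mul_comm (K : ℝ)]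
  have hS0 : 0 ≤ ∑ K ∈ Ioc KL K2, 1 / (K * Real.log ((n : ℝ) / K)) :=
    sum_nonneg fun K hK =>
      div_nonneg zero_le_one (mul_nonneg (Nat.cast_nonneg _) (Real.log_pos (hlog K hK)).le)
  have hm := mul_le_mul_of_nonneg_right (RangeC_const
    (mul_nonneg hc0 (add_nonneg (Nat.cast_nonneg _) (Nat.cast_nonneg _))) hT.nonneg hT.le_one hε
    hcc.1) hS0
  rw [hS] at key
  refine (sum_le_sum fun j h => short_range hT.prob (hP j h) (K00 := K0) (KL := KL) (K2 := K2)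
    (N := N) (H := H) (hj2 j h).2.2.1 (fun u _ => hv u) ((hj2 j h).1.trans hn1.le)
    (hH ▸ Nat.mul_le_mul_right _ (Nat.le_add_right _ _)) hK01 (by omega) (Nat.le_add_right _ _)
    (hj j h) hH2 (le_trans (by omega) hxN)).trans ?_
  have s1 : ∑ j ∈ range (rr ^ 9), (w : ℝ) / (((KL + j * w : ℕ) : ℝ) * rr) ≤ 1 / rr := by
    have w1 : (0 : ℝ) < w := by exact_mod_cast hw1
    refine (sum_le_card_nsmul _ _ ((w : ℝ) / (rr ^ 9 * w * rr)) fun j _ => ?_).trans_eq ?_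
    · refine div_le_div_of_nonneg_left w1.le (by positivity) (mul_le_mul_of_nonneg_right ?_ r0.le)
      exact_mod_cast (by omega : rr ^ 9 * w ≤ KL + j * w)
    · rw [Finset.card_range, nsmul_eq_mul, Nat.cast_pow]
      field_simp
  rw [sum_add_distrib, ← mul_sum, sum_add_distrib, sum_short, ← hw0, ← hcd,
    show KL + w0 = K2 by omega]
  rw [hgd] at key
  have k3 := mul_le_mul_of_nonneg_left key hc0
  rw [hgd]
  linarith


end Pool.Agent.Work.MP_9a1701_nt.P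
end

-- merged part: Pool.Agent.Work.MP_9a1701_nt.T.ModC2
section
/-!
# The thinned primes satisfy the finite hypotheses
-/

set_option autoImplicit false
open Finset Filter

namespace Pool.Agent.Work.MP_9a1701_nt.P

variable {al : ℕ → ℝ} {α : ℝ}

/-- One long range, good and bad blocks together. -/
lemma ModC2_range (hT : Thin al α) {δ : ℝ} (h0 : 0 < δ) (h1 : δ ≤ 1 / 10) :
    ∃ κ : ℝ, 0 < κ ∧ κ ≤ δ / 400 ∧ ∀ (η ε : ℝ) (R : ℕ), 0 < η → η ≤ 1 →
      0 < ε → 2 ≤ R → ∀ᶠ x : ℕ in atTop, ∀ q ∈ Ico R (2 * R), ∀ w : ℕ,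
        Lp δ x ≤ 2 * R * (Lp κ x ^ 9 * w) → q * (Lp κ x ^ 9 * w) * (Lp δ x * sp x) ≤ 2 * x →
        ∃ err : ℕ → ℝ, (∀ n, 0 ≤ err n) ∧
          ∑ n ∈ Ioc ⌊η * x⌋₊ x, err n ≤ 2 * (x / (Real.log x + 1) ^ 2) ∧
          ∀ n ∈ Ioc ⌊η * x⌋₊ x,
            ∑ K ∈ Ioc (q * (Lp κ x ^ 9 * w)) ((q + 1) * (Lp κ x ^ 9 * w)),
              Ex al (PI 1 (x + 1))
                (fun Q => (cntK (cx x Q) (Lp δ x * sp x) (2 * (x / K)) K n : ℝ)) ≤
              (α + ε) * (1 + 4 / (R : ℝ)) *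
                ∑ K ∈ Ioc (q * (Lp κ x ^ 9 * w)) ((q + 1) * (Lp κ x ^ 9 * w)),
                  1 / (K * Real.log ((n : ℝ) / K)) + err n := by
  obtain ⟨κ, k0, k1, hF⟩ := range_finalC hT h0 h1
  refine ⟨κ, k0, k1, fun η ε R hη hη1 hε hR => ?_⟩
  filter_upwards [hF κ η ε R k0 le_rfl hη hη1 hε hR,
    bad_range hT.prob h0 h1 k0 k1 (show 1 ≤ R by omega), ModB_big h0 1]
    with x hG hB hL q hq w hw hx
  obtain ⟨err, g1, g2, g3⟩ := hG _ rfl q hq w hw hx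
  have hB' := hB _ rfl q hq w hw hx (Ioc ⌊η * x⌋₊ x)
  generalize Lp κ x = rr at *
  have hq0 : 0 < q * (rr ^ 9 * w) := by
    have b1 := (mem_Ico.1 hq).1
    rcases Nat.eq_zero_or_pos (rr ^ 9 * w) with e | e
    · rw [e] at hw
      omega
    · exact Nat.mul_pos (by omega) e
  refine ⟨fun n => err n + ∑ j ∈ range (rr ^ 9),
    ∑ K ∈ Ioc (q * (rr ^ 9 * w) + j * w) (q * (rr ^ 9 * w) + j * w + w),
      (Ex al (PI 1 (x + 1)) (fun Q => (cntK (cx x Q) (Lp δ x * sp x)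
          (2 * (x / (q * (rr ^ 9 * w) + j * w))) K n : ℝ)) -
        Ex al (PI 1 (x + 1)) (fun Q => (cntGood (cx x Q) (Lp δ x * sp x)
          (2 * (x / (q * (rr ^ 9 * w) + j * w))) (w * rr) (q * (rr ^ 9 * w) + j * w) rr
          (2 * w) K n : ℝ))), fun n => add_nonneg (g1 n) ?_, ?_, fun n hn => ?_⟩
  · exact sum_nonneg fun j _ => sum_nonneg fun K _ => sub_nonneg.2
      (Ex_mono hT.prob fun Q _ => Nat.cast_le.2 (cntGood_le _ _ _ _ _ _ _ _ _))
  · rw [sum_add_distrib]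
    linarith only [g2, hB']
  · have b1 := g3 n hn
    have b2 : (q + 1) * (rr ^ 9 * w) = q * (rr ^ 9 * w) + rr ^ 9 * w := by ring
    have b3 : ∑ K ∈ Ioc (q * (rr ^ 9 * w)) ((q + 1) * (rr ^ 9 * w)), Ex al (PI 1 (x + 1))
        (fun Q => (cntK (cx x Q) (Lp δ x * sp x) (2 * (x / K)) K n : ℝ)) ≤
        ∑ j ∈ range (rr ^ 9),
          ∑ K ∈ Ioc (q * (rr ^ 9 * w) + j * w) (q * (rr ^ 9 * w) + j * w + w),
            Ex al (PI 1 (x + 1)) (fun Q => (cntK (cx x Q) (Lp δ x * sp x)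
              (2 * (x / (q * (rr ^ 9 * w) + j * w))) K n : ℝ)) := by
      rw [b2, ← sum_short]
      refine sum_le_sum fun j _ => sum_le_sum fun K hK => Ex_mono hT.prob fun Q _ =>
        Nat.cast_le.2 (cntK_mono _ le_rfl (Nat.mul_le_mul_left 2 ?_) _ _)
      exact Nat.div_le_div_left (mem_Ioc.1 hK).1.le (by omega)
    simp only [sum_sub_distrib]
    linarith only [b1, b3]

/-- As `hupB` in `P/ModB`. Take `κ = κ0`, `rr = Lp κ x`, `exists_scales` for `R rr ^ 9 ≤ L`,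
`Y = x / (L s)`. `lam_le` with `u K = Ex (cntK (cx x Q) (L s) (2 (x / K)) K n)` (`cell_le` with
`K1 = K`); extend the sum to `Ioc (R rr ^ 9 2 ^ e0) (R rr ^ 9 2 ^ e1)`, tile it (`sum_ranges'`,
`sum_short`), pass to `2 (x / K1)` by `cntK_mono`, split into good (`range_finalC`) and bad
(`bad_range`, nonnegative by `cntGood_le`) parts, `sum_U`. -/
theorem hupC (hT : Thin al α) {δ η : ℝ} (h0 : 0 < δ) (h1 : δ ≤ 1 / 10) (hη : 0 < η)
    (hη1 : η ≤ 1) : ∀ᶠ x : ℕ in atTop,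
      HUP ∅ (rhoC al) x (sp x) (Lp δ x) (ip δ x) ⌊η * x⌋₊ (α * Real.log 2) η := by
  obtain ⟨κ, q0, q1, hF⟩ := ModC2_range hT h0 h1
  obtain ⟨a, a0, ha⟩ : ∃ a : ℝ, 0 < a ∧ 20 * a = η := ⟨η / 20, by positivity, by ring⟩
  obtain ⟨R, hR⟩ := exists_nat_ge (4 / a)
  have r1 : 4 ≤ R * a := (div_le_iff₀ a0).1 hR
  have r2 : (2 : ℝ) ≤ R := by nlinarith only [r1, ha, hη1, Nat.cast_nonneg (α := ℝ) R]
  have r3 : 2 ≤ R := by exact_mod_cast r2
  have a1 : 0 ≤ 1 + a := by linarith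
  have α0 := hT.nonneg
  have α1 := hT.le_one
  have hlog : ∀ᶠ x : ℕ in atTop, 8 * R / η ≤ Real.log x :=
    (Real.tendsto_log_atTop.comp tendsto_natCast_atTop_atTop).eventually_ge_atTop _
  filter_upwards [par1 h0 h1 hη, ModB_big q0 R, par3 h0 h1 q0 q1 hη one_pos,
    hF η a R hη hη1 a0 r3, hlog, eventually_ge_atTop 2]
    with x ⟨p1, p2, _, p4, _, _, p7⟩ hL ⟨t1, _, t3, _⟩ hF hl x2
  choose! err g1 g2 g3 using hF
  have hc : R * Lp κ x ^ 9 ≤ Lp δ x := by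
    refine ((Nat.mul_le_mul_right _ hL).trans ?_).trans t3
    rw [← pow_succ']
    exact Nat.pow_le_pow_right (by omega) (by norm_num)
  have c0 : 0 < Lp κ x ^ 9 := Nat.pow_pos (by omega)
  generalize Lp κ x ^ 9 = c at *
  obtain ⟨e0, e1, k1, k2, k3, k4, k5, k6⟩ :=
    exists_scales (Nat.mul_pos (by omega) c0) hc (ModB_cube p1 p2).2
  have s0 : 1 ≤ sp x := Nat.succ_pos _
  have x0 : (0 : ℝ) < x := by exact_mod_cast (show 0 < x by omega)
  have y1 := Nat.div_mul_le_self x (Lp δ x * sp x)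
  have y2 := Nat.div_le_self x (Lp δ x * sp x)
  have y3 : ((x / (Lp δ x * sp x) : ℕ) : ℝ) ≤ x / (Lp δ x * sp x) := by
    rw [← Nat.cast_mul]
    exact Nat.cast_div_le
  have y4 := (ModB_cube p1 p2).2
  unfold HUP
  have hlam := fun n h1 h2 u => lam_le (D := ∅) (ρ := rhoC al) (x := x) (i1 := ip δ x) s0
    (by omega : 1 ≤ Lp δ x) (n := n) h1 h2 u
  generalize x / (Lp δ x * sp x) = Y at *
  have c1 : ∀ e ∈ Ico e0 e1, Lp δ x ≤ 2 * R * (c * 2 ^ e) := fun e he => by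
    refine k3.trans ?_
    rw [← mul_assoc, ← mul_assoc]
    exact Nat.mul_le_mul_left _ (Nat.pow_le_pow_right two_pos (mem_Ico.1 he).1)
  have c2 : ∀ e ∈ Ico e0 e1, ∀ q ∈ Ico R (2 * R),
      q * (c * 2 ^ e) * (Lp δ x * sp x) ≤ 2 * x :=
    fun e he q hq => by
      have b1 : q * (c * 2 ^ e) ≤ R * c * 2 ^ e1 := by
        refine (Nat.mul_le_mul_right _ (mem_Ico.1 hq).2.le).trans (le_trans (le_of_eq ?_)
          (Nat.mul_le_mul_left (R * c) (Nat.pow_le_pow_right two_pos (mem_Ico.1 he).2)))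
        rw [Nat.pow_succ]
        ring
      refine (Nat.mul_le_mul_right _ (b1.trans k5)).trans ?_
      rw [mul_assoc]
      exact Nat.mul_le_mul_left 2 y1
  have K1 : R ≤ R * c * 2 ^ e0 := by
    rw [mul_assoc]
    exact Nat.le_mul_of_pos_right _ (by positivity)
  refine (sum_le_sum (g := fun n => η / 2 + ∑ e ∈ Ico e0 e1, ∑ q ∈ Ico R (2 * R),
    err q (2 ^ e) n) fun n hn => ?_).trans ?_
  · have E0 : 0 ≤ ∑ e ∈ Ico e0 e1, ∑ q ∈ Ico R (2 * R), err q (2 ^ e) n :=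
      sum_nonneg fun e he => sum_nonneg fun q hq => g1 q hq _ (c1 e he) (c2 e he q hq) n
    refine max_le ?_ (by linarith only [E0, hη])
    have hn' := mem_Ioc.1 hn
    have u0 : ∀ K : ℕ, 0 ≤ Ex al (PI 1 (x + 1))
        (fun Q => (cntK (cx x Q) (Lp δ x * sp x) (2 * (x / K)) K n : ℝ)) := fun K =>
      Ex_nonneg hT.prob fun Q _ => Nat.cast_nonneg _
    have b1 := hlam n (by omega) hn'.2 _ (fun K _ => u0 K) fun i hi K hK h2 _ =>
      cell_le hT.prob (mem_Ico.1 hi).1 (by omega) (by omega) le_rfl h2 hn'.2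
    have b3 := sum_le_sum_of_subset_of_nonneg (Ioc_subset_Ioc k2 k4) fun K _ _ => u0 K
    rw [← sum_ranges' R c e0 e1 k1] at b3
    have b4 := b3.trans (sum_le_sum fun e he => sum_le_sum fun q hq =>
      g3 q hq _ (c1 e he) (c2 e he q hq) n hn)
    simp only [sum_add_distrib, ← mul_sum] at b4
    rw [sum_ranges' R c e0 e1 k1 fun K => 1 / (K * Real.log ((n : ℝ) / K))] at b4
    have b5 := sum_U (K1 := R * c * 2 ^ e0) (K2 := R * c * 2 ^ e1) x2 hn'.2 (by omega) (by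
      have d1 : ((R * c * 2 ^ e1 : ℕ) : ℝ) ≤ 2 * Y := by exact_mod_cast k5
      refine le_trans (mul_le_mul_of_nonneg_left ?_ (Real.sqrt_nonneg _))
        (p7.trans (Nat.cast_le.2 hn'.1.le))
      rw [mul_div_assoc]
      linarith only [d1, y3])
    have b6 : 4 / (R : ℝ) ≤ a := by
      rw [div_le_iff₀ (by linarith only [r2])]
      linarith only [r1]
    have b7 : 1 / ((R * c * 2 ^ e0 : ℕ) : ℝ) ≤ a := by
      have d1 : (R : ℝ) ≤ (R * c * 2 ^ e0 : ℕ) := by exact_mod_cast K1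
      rw [div_le_iff₀ (by linarith only [d1, r2])]
      linarith only [r1, mul_le_mul_of_nonneg_left d1 a0.le]
    have l0 := Real.log_two_gt_d9
    have l1 := Real.log_two_lt_d9
    have l2 : 0 ≤ Real.log 2 := by linarith only [l0]
    have a2 : 0 ≤ α + a := by linarith only [α0, a0]
    have b8 := (mul_le_mul_of_nonneg_left
      (b5.trans (mul_le_mul_of_nonneg_right (add_le_add_right b7 1) l2))
      (show 0 ≤ (α + a) * (1 + 4 / (R : ℝ)) by positivity)).trans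
      (mul_le_mul_of_nonneg_right (mul_le_mul_of_nonneg_left (add_le_add_right b6 1) a2)
        (mul_nonneg a1 l2))
    have b9 : (α + a) * (1 + a) * (1 + a) ≤ α + 5 * a := by
      have d1 : (1 + a) * (1 + a) ≤ 1 + 41 / 20 * a := by nlinarith only [a0, ha, hη1]
      have d2 := mul_le_mul_of_nonneg_left d1 a2
      have d3 := mul_le_mul_of_nonneg_right α1 a0.le
      nlinarith only [d2, d3, a0, ha, hη1]
    have b11 := mul_le_mul_of_nonneg_right b9 l2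
    have b13 := mul_le_mul_of_nonneg_left (by linarith only [l1] : Real.log 2 ≤ 1) a0.le
    linarith only [b1, b4, b8, b11, b13, ha, a0]
  · rw [sum_add_distrib, sum_const, Nat.card_Ioc, nsmul_eq_mul, sum_comm]
    have b1 : ((x - ⌊η * x⌋₊ : ℕ) : ℝ) ≤ x := Nat.cast_le.2 (Nat.sub_le _ _)
    have b2 := sum_le_card_nsmul (Ico e0 e1) (fun e => ∑ n ∈ Ioc ⌊η * x⌋₊ x,
      ∑ q ∈ Ico R (2 * R), err q (2 ^ e) n) (R * (2 * (x / (Real.log x + 1) ^ 2)))
      fun e he => by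
        rw [sum_comm]
        refine (sum_le_card_nsmul _ _ _ fun q hq =>
          g2 q hq _ (c1 e he) (c2 e he q hq)).trans (le_of_eq ?_)
        rw [Nat.card_Ico, nsmul_eq_mul, two_mul R, Nat.add_sub_cancel]
    rw [Nat.card_Ico, nsmul_eq_mul] at b2
    have l0 : 0 ≤ Real.log x := Real.log_natCast_nonneg x
    have b3 : ((e1 - e0 : ℕ) : ℝ) ≤ 2 * (Real.log x + 1) := by
      have d1 : ((e1 - e0 : ℕ) : ℝ) ≤ e1 := Nat.cast_le.2 (Nat.sub_le _ _)
      have d2 := Real.log_le_log (by exact_mod_cast (show 0 < Y by omega)) (Nat.cast_le.2 y2)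
      linarith only [d1, d2, k6]
    have b4 : 2 * (Real.log x + 1) * (R * (2 * (x / (Real.log x + 1) ^ 2))) ≤ η / 2 * x := by
      rw [div_le_iff₀ hη] at hl
      have d1 : 2 * (Real.log x + 1) * (R * (2 * (x / (Real.log x + 1) ^ 2))) =
          4 * R / (Real.log x + 1) * x := by
        field_simp
        ring
      rw [d1]
      refine mul_le_mul_of_nonneg_right ?_ x0.le
      rw [div_le_iff₀ (by linarith only [l0])]
      linarith only [hl, hη]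
    have b5 := (b2.trans (mul_le_mul_of_nonneg_right b3 (by positivity))).trans b4
    have b6 := mul_le_mul_of_nonneg_right b1 (half_pos hη).le
    linarith only [b5, b6]

theorem hfinC (hT : Thin al α) : HFing ∅ (rhoC al) (α * Real.log 2) := fun _ _ h0 h1 hη hη1 =>
  (hptC hT h0 h1).and (hupC hT h0 h1 hη hη1)

end Pool.Agent.Work.MP_9a1701_nt.P
end

-- merged part: Pool.Agent.Work.MP_9a1701_nt.V.V3
section
/-!
# The finite hypotheses with one exponent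
-/

set_option autoImplicit false
open Finset Filter

namespace Pool.Agent.Work.MP_9a1701_nt.P

variable {al : ℕ → ℝ} {α : ℝ}

theorem hptV (hT : Thin0 al α) {δ : ℝ} (h0 : 0 < δ) (h1 : δ ≤ 1 / 10)
    (hV : VarK al (δ / 2)) : ∀ᶠ x : ℕ in atTop,
    HPTg ∅ (rhoC al) x (sp x) (Lp δ x) (ip δ x) ((x : ℝ) ^ (δ / 2)) := by
  obtain ⟨v0, hv0⟩ := eventually_atTop.1 hV
  filter_upwards [par1 h0 h1 one_pos,
    log_pow_le_sp 0 (show (0 : ℝ) < (v0 : ℝ) + 1 by positivity)] with x hp hs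
  obtain ⟨p1, -, p3, -⟩ := hp
  have hs' : v0 + 1 ≤ sp x := by
    have : ((v0 + 1 : ℕ) : ℝ) ≤ sp x := by simpa using hs
    exact_mod_cast this
  intro i hi z hz K hK n
  rw [mem_Ico] at hi
  have a1 : (i + 1) * sp x ≤ ip δ x * sp x := Nat.mul_le_mul_right _ hi.2
  have a2 : 1 * sp x ≤ i * sp x := Nat.mul_le_mul_right _ (by omega)
  have hK' : (0 : ℝ) < K := by exact_mod_cast (show 0 < K by omega)
  have hr : (0 : ℝ) ≤ (x : ℝ) ^ (δ / 2) := by positivity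
  refine (ptA (prob_rhoC hT.prob) (r := (x : ℝ) ^ (δ / 2)) (by omega) (by omega) (by omega) hr
    (fun v hv => ?_) n).trans (by gcongr; linarith)
  rw [mem_Ico] at hv
  unfold rhoC
  split_ifs
  · have hv1 : (0 : ℝ) < v := by exact_mod_cast (show 0 < v by omega)
    have b1 := hv0 v (by omega)
    obtain ⟨b2, b3⟩ := hT.prob v
    have b4 : (v : ℝ) ^ (δ / 2) ≤ (x : ℝ) ^ (δ / 2) :=
      Real.rpow_le_rpow hv1.le (by exact_mod_cast (show v ≤ x by omega)) (half_pos h0).le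
    have b5 : (v : ℝ) ^ (δ / 2) * (v : ℝ) ^ (-(δ / 2)) = 1 := by
      rw [← Real.rpow_add hv1, add_neg_cancel, Real.rpow_zero]
    have b6 : (v : ℝ) ^ (-(δ / 2)) ≤ 1 - al v := by nlinarith
    calc al v ≤ (v : ℝ) ^ (δ / 2) * (v : ℝ) ^ (-(δ / 2)) := by rw [b5]; exact b3
      _ ≤ _ := mul_le_mul b4 b6 (by positivity) hr
  · simpa using hr
lemma V3_range {δ : ℝ} (h0 : 0 < δ) (h1 : δ ≤ 1 / 10) :
    ∃ κ : ℝ, 0 < κ ∧ κ ≤ δ / 400 ∧ ∀ (al : ℕ → ℝ) (α : ℝ), Thin0 al α → VarK al κ →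
      ∀ (η ε : ℝ) (R : ℕ), 0 < η → η ≤ 1 →
      0 < ε → 2 ≤ R → ∀ᶠ x : ℕ in atTop, ∀ q ∈ Ico R (2 * R), ∀ w : ℕ,
        Lp δ x ≤ 2 * R * (Lp κ x ^ 9 * w) → q * (Lp κ x ^ 9 * w) * (Lp δ x * sp x) ≤ 2 * x →
        ∃ err : ℕ → ℝ, (∀ n, 0 ≤ err n) ∧
          ∑ n ∈ Ioc ⌊η * x⌋₊ x, err n ≤ 2 * (x / (Real.log x + 1) ^ 2) ∧
          ∀ n ∈ Ioc ⌊η * x⌋₊ x,
            ∑ K ∈ Ioc (q * (Lp κ x ^ 9 * w)) ((q + 1) * (Lp κ x ^ 9 * w)),
              Ex al (PI 1 (x + 1))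
                (fun Q => (cntK (cx x Q) (Lp δ x * sp x) (2 * (x / K)) K n : ℝ)) ≤
              (α + ε) * (1 + 4 / (R : ℝ)) *
                ∑ K ∈ Ioc (q * (Lp κ x ^ 9 * w)) ((q + 1) * (Lp κ x ^ 9 * w)),
                  1 / (K * Real.log ((n : ℝ) / K)) + err n := by
  obtain ⟨κ, k0, k1, hF⟩ := range_finalV h0 h1
  refine ⟨κ, k0, k1, fun al α hT hV η ε R hη hη1 hε hR => ?_⟩
  filter_upwards [hF al α hT κ η ε R k0 le_rfl hV hη hη1 hε hR,
    bad_range hT.prob h0 h1 k0 k1 (show 1 ≤ R by omega), ModB_big h0 1]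
    with x hG hB hL q hq w hw hx
  obtain ⟨err, g1, g2, g3⟩ := hG _ rfl q hq w hw hx
  have hB' := hB _ rfl q hq w hw hx (Ioc ⌊η * x⌋₊ x)
  generalize Lp κ x = rr at *
  have hq0 : 0 < q * (rr ^ 9 * w) := by
    have b1 := (mem_Ico.1 hq).1
    rcases Nat.eq_zero_or_pos (rr ^ 9 * w) with e | e
    · rw [e] at hw
      omega
    · exact Nat.mul_pos (by omega) e
  refine ⟨fun n => err n + ∑ j ∈ range (rr ^ 9),
    ∑ K ∈ Ioc (q * (rr ^ 9 * w) + j * w) (q * (rr ^ 9 * w) + j * w + w),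
      (Ex al (PI 1 (x + 1)) (fun Q => (cntK (cx x Q) (Lp δ x * sp x)
          (2 * (x / (q * (rr ^ 9 * w) + j * w))) K n : ℝ)) -
        Ex al (PI 1 (x + 1)) (fun Q => (cntGood (cx x Q) (Lp δ x * sp x)
          (2 * (x / (q * (rr ^ 9 * w) + j * w))) (w * rr) (q * (rr ^ 9 * w) + j * w) rr
          (2 * w) K n : ℝ))), fun n => add_nonneg (g1 n) ?_, ?_, fun n hn => ?_⟩
  · exact sum_nonneg fun j _ => sum_nonneg fun K _ => sub_nonneg.2
      (Ex_mono hT.prob fun Q _ => Nat.cast_le.2 (cntGood_le _ _ _ _ _ _ _ _ _))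
  · rw [sum_add_distrib]
    linarith only [g2, hB']
  · have b1 := g3 n hn
    have b2 : (q + 1) * (rr ^ 9 * w) = q * (rr ^ 9 * w) + rr ^ 9 * w := by ring
    have b3 : ∑ K ∈ Ioc (q * (rr ^ 9 * w)) ((q + 1) * (rr ^ 9 * w)), Ex al (PI 1 (x + 1))
        (fun Q => (cntK (cx x Q) (Lp δ x * sp x) (2 * (x / K)) K n : ℝ)) ≤
        ∑ j ∈ range (rr ^ 9),
          ∑ K ∈ Ioc (q * (rr ^ 9 * w) + j * w) (q * (rr ^ 9 * w) + j * w + w),
            Ex al (PI 1 (x + 1)) (fun Q => (cntK (cx x Q) (Lp δ x * sp x)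
              (2 * (x / (q * (rr ^ 9 * w) + j * w))) K n : ℝ)) := by
      rw [b2, ← sum_short]
      refine sum_le_sum fun j _ => sum_le_sum fun K hK => Ex_mono hT.prob fun Q _ =>
        Nat.cast_le.2 (cntK_mono _ le_rfl (Nat.mul_le_mul_left 2 ?_) _ _)
      exact Nat.div_le_div_left (mem_Ioc.1 hK).1.le (by omega)
    simp only [sum_sub_distrib]
    linarith only [b1, b3]
theorem hupV {δ : ℝ} (h0 : 0 < δ) (h1 : δ ≤ 1 / 10) :
    ∃ κ : ℝ, 0 < κ ∧ κ ≤ δ / 400 ∧ ∀ (al : ℕ → ℝ) (α : ℝ), Thin0 al α → VarK al κ →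
      ∀ η : ℝ, 0 < η → η ≤ 1 → ∀ᶠ x : ℕ in atTop,
        HUP ∅ (rhoC al) x (sp x) (Lp δ x) (ip δ x) ⌊η * x⌋₊ (α * Real.log 2) η := by
  obtain ⟨κ, q0, q1, hF⟩ := V3_range h0 h1
  refine ⟨κ, q0, q1, fun al α hT hV η hη hη1 => ?_⟩
  replace hF := hF al α hT hV
  obtain ⟨a, a0, ha⟩ : ∃ a : ℝ, 0 < a ∧ 20 * a = η := ⟨η / 20, by positivity, by ring⟩
  obtain ⟨R, hR⟩ := exists_nat_ge (4 / a)
  have r1 : 4 ≤ R * a := (div_le_iff₀ a0).1 hR
  have r2 : (2 : ℝ) ≤ R := by nlinarith only [r1, ha, hη1, Nat.cast_nonneg (α := ℝ) R]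
  have r3 : 2 ≤ R := by exact_mod_cast r2
  have a1 : 0 ≤ 1 + a := by linarith
  have α0 := hT.nonneg
  have α1 := hT.le_one
  have hlog : ∀ᶠ x : ℕ in atTop, 8 * R / η ≤ Real.log x :=
    (Real.tendsto_log_atTop.comp tendsto_natCast_atTop_atTop).eventually_ge_atTop _
  filter_upwards [par1 h0 h1 hη, ModB_big q0 R, par3 h0 h1 q0 q1 hη one_pos,
    hF η a R hη hη1 a0 r3, hlog, eventually_ge_atTop 2]
    with x ⟨p1, p2, _, p4, _, _, p7⟩ hL ⟨t1, _, t3, _⟩ hF hl x2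
  choose! err g1 g2 g3 using hF
  have hc : R * Lp κ x ^ 9 ≤ Lp δ x := by
    refine ((Nat.mul_le_mul_right _ hL).trans ?_).trans t3
    rw [← pow_succ']
    exact Nat.pow_le_pow_right (by omega) (by norm_num)
  have c0 : 0 < Lp κ x ^ 9 := Nat.pow_pos (by omega)
  generalize Lp κ x ^ 9 = c at *
  obtain ⟨e0, e1, k1, k2, k3, k4, k5, k6⟩ :=
    exists_scales (Nat.mul_pos (by omega) c0) hc (ModB_cube p1 p2).2
  have s0 : 1 ≤ sp x := Nat.succ_pos _
  have x0 : (0 : ℝ) < x := by exact_mod_cast (show 0 < x by omega)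
  have y1 := Nat.div_mul_le_self x (Lp δ x * sp x)
  have y2 := Nat.div_le_self x (Lp δ x * sp x)
  have y3 : ((x / (Lp δ x * sp x) : ℕ) : ℝ) ≤ x / (Lp δ x * sp x) := by
    rw [← Nat.cast_mul]
    exact Nat.cast_div_le
  have y4 := (ModB_cube p1 p2).2
  unfold HUP
  have hlam := fun n h1 h2 u => lam_le (D := ∅) (ρ := rhoC al) (x := x) (i1 := ip δ x) s0
    (by omega : 1 ≤ Lp δ x) (n := n) h1 h2 u
  generalize x / (Lp δ x * sp x) = Y at *
  have c1 : ∀ e ∈ Ico e0 e1, Lp δ x ≤ 2 * R * (c * 2 ^ e) := fun e he => by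
    refine k3.trans ?_
    rw [← mul_assoc, ← mul_assoc]
    exact Nat.mul_le_mul_left _ (Nat.pow_le_pow_right two_pos (mem_Ico.1 he).1)
  have c2 : ∀ e ∈ Ico e0 e1, ∀ q ∈ Ico R (2 * R),
      q * (c * 2 ^ e) * (Lp δ x * sp x) ≤ 2 * x :=
    fun e he q hq => by
      have b1 : q * (c * 2 ^ e) ≤ R * c * 2 ^ e1 := by
        refine (Nat.mul_le_mul_right _ (mem_Ico.1 hq).2.le).trans (le_trans (le_of_eq ?_)
          (Nat.mul_le_mul_left (R * c) (Nat.pow_le_pow_right two_pos (mem_Ico.1 he).2)))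
        rw [Nat.pow_succ]
        ring
      refine (Nat.mul_le_mul_right _ (b1.trans k5)).trans ?_
      rw [mul_assoc]
      exact Nat.mul_le_mul_left 2 y1
  have K1 : R ≤ R * c * 2 ^ e0 := by
    rw [mul_assoc]
    exact Nat.le_mul_of_pos_right _ (by positivity)
  refine (sum_le_sum (g := fun n => η / 2 + ∑ e ∈ Ico e0 e1, ∑ q ∈ Ico R (2 * R),
    err q (2 ^ e) n) fun n hn => ?_).trans ?_
  · have E0 : 0 ≤ ∑ e ∈ Ico e0 e1, ∑ q ∈ Ico R (2 * R), err q (2 ^ e) n :=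
      sum_nonneg fun e he => sum_nonneg fun q hq => g1 q hq _ (c1 e he) (c2 e he q hq) n
    refine max_le ?_ (by linarith only [E0, hη])
    have hn' := mem_Ioc.1 hn
    have u0 : ∀ K : ℕ, 0 ≤ Ex al (PI 1 (x + 1))
        (fun Q => (cntK (cx x Q) (Lp δ x * sp x) (2 * (x / K)) K n : ℝ)) := fun K =>
      Ex_nonneg hT.prob fun Q _ => Nat.cast_nonneg _
    have b1 := hlam n (by omega) hn'.2 _ (fun K _ => u0 K) fun i hi K hK h2 _ =>
      cell_le hT.prob (mem_Ico.1 hi).1 (by omega) (by omega) le_rfl h2 hn'.2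
    have b3 := sum_le_sum_of_subset_of_nonneg (Ioc_subset_Ioc k2 k4) fun K _ _ => u0 K
    rw [← sum_ranges' R c e0 e1 k1] at b3
    have b4 := b3.trans (sum_le_sum fun e he => sum_le_sum fun q hq =>
      g3 q hq _ (c1 e he) (c2 e he q hq) n hn)
    simp only [sum_add_distrib, ← mul_sum] at b4
    rw [sum_ranges' R c e0 e1 k1 fun K => 1 / (K * Real.log ((n : ℝ) / K))] at b4
    have b5 := sum_U (K1 := R * c * 2 ^ e0) (K2 := R * c * 2 ^ e1) x2 hn'.2 (by omega) (by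
      have d1 : ((R * c * 2 ^ e1 : ℕ) : ℝ) ≤ 2 * Y := by exact_mod_cast k5
      refine le_trans (mul_le_mul_of_nonneg_left ?_ (Real.sqrt_nonneg _))
        (p7.trans (Nat.cast_le.2 hn'.1.le))
      rw [mul_div_assoc]
      linarith only [d1, y3])
    have b6 : 4 / (R : ℝ) ≤ a := by
      rw [div_le_iff₀ (by linarith only [r2])]
      linarith only [r1]
    have b7 : 1 / ((R * c * 2 ^ e0 : ℕ) : ℝ) ≤ a := by
      have d1 : (R : ℝ) ≤ (R * c * 2 ^ e0 : ℕ) := by exact_mod_cast K1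
      rw [div_le_iff₀ (by linarith only [d1, r2])]
      linarith only [r1, mul_le_mul_of_nonneg_left d1 a0.le]
    have l0 := Real.log_two_gt_d9
    have l1 := Real.log_two_lt_d9
    have l2 : 0 ≤ Real.log 2 := by linarith only [l0]
    have a2 : 0 ≤ α + a := by linarith only [α0, a0]
    have b8 := (mul_le_mul_of_nonneg_left
      (b5.trans (mul_le_mul_of_nonneg_right (add_le_add_right b7 1) l2))
      (show 0 ≤ (α + a) * (1 + 4 / (R : ℝ)) by positivity)).trans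
      (mul_le_mul_of_nonneg_right (mul_le_mul_of_nonneg_left (add_le_add_right b6 1) a2)
        (mul_nonneg a1 l2))
    have b9 : (α + a) * (1 + a) * (1 + a) ≤ α + 5 * a := by
      have d1 : (1 + a) * (1 + a) ≤ 1 + 41 / 20 * a := by nlinarith only [a0, ha, hη1]
      have d2 := mul_le_mul_of_nonneg_left d1 a2
      have d3 := mul_le_mul_of_nonneg_right α1 a0.le
      nlinarith only [d2, d3, a0, ha, hη1]
    have b11 := mul_le_mul_of_nonneg_right b9 l2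
    have b13 := mul_le_mul_of_nonneg_left (by linarith only [l1] : Real.log 2 ≤ 1) a0.le
    linarith only [b1, b4, b8, b11, b13, ha, a0]
  · rw [sum_add_distrib, sum_const, Nat.card_Ioc, nsmul_eq_mul, sum_comm]
    have b1 : ((x - ⌊η * x⌋₊ : ℕ) : ℝ) ≤ x := Nat.cast_le.2 (Nat.sub_le _ _)
    have b2 := sum_le_card_nsmul (Ico e0 e1) (fun e => ∑ n ∈ Ioc ⌊η * x⌋₊ x,
      ∑ q ∈ Ico R (2 * R), err q (2 ^ e) n) (R * (2 * (x / (Real.log x + 1) ^ 2)))
      fun e he => by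
        rw [sum_comm]
        refine (sum_le_card_nsmul _ _ _ fun q hq =>
          g2 q hq _ (c1 e he) (c2 e he q hq)).trans (le_of_eq ?_)
        rw [Nat.card_Ico, nsmul_eq_mul, two_mul R, Nat.add_sub_cancel]
    rw [Nat.card_Ico, nsmul_eq_mul] at b2
    have l0 : 0 ≤ Real.log x := Real.log_natCast_nonneg x
    have b3 : ((e1 - e0 : ℕ) : ℝ) ≤ 2 * (Real.log x + 1) := by
      have d1 : ((e1 - e0 : ℕ) : ℝ) ≤ e1 := Nat.cast_le.2 (Nat.sub_le _ _)
      have d2 := Real.log_le_log (by exact_mod_cast (show 0 < Y by omega)) (Nat.cast_le.2 y2)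
      linarith only [d1, d2, k6]
    have b4 : 2 * (Real.log x + 1) * (R * (2 * (x / (Real.log x + 1) ^ 2))) ≤ η / 2 * x := by
      rw [div_le_iff₀ hη] at hl
      have d1 : 2 * (Real.log x + 1) * (R * (2 * (x / (Real.log x + 1) ^ 2))) =
          4 * R / (Real.log x + 1) * x := by
        field_simp
        ring
      rw [d1]
      refine mul_le_mul_of_nonneg_right ?_ x0.le
      rw [div_le_iff₀ (by linarith only [l0])]
      linarith only [hl, hη]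
    have b5 := (b2.trans (mul_le_mul_of_nonneg_right b3 (by positivity))).trans b4
    have b6 := mul_le_mul_of_nonneg_right b1 (half_pos hη).le
    linarith only [b5, b6]

/-- Both finite hypotheses for one `δ`. -/
def HFinD (D : Set ℕ) (ρ : ℕ → ℝ) (l0 δ : ℝ) : Prop :=
  ∀ η : ℝ, 0 < η → η ≤ 1 → ∀ᶠ x : ℕ in atTop,
    HPTg D ρ x (sp x) (Lp δ x) (ip δ x) ((x : ℝ) ^ (δ / 2)) ∧
      HUP D ρ x (sp x) (Lp δ x) (ip δ x) ⌊η * x⌋₊ l0 η

theorem hfinV {δ : ℝ} (h0 : 0 < δ) (h1 : δ ≤ 1 / 10) :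
    ∃ κ : ℝ, 0 < κ ∧ ∀ (al : ℕ → ℝ) (α : ℝ), Thin0 al α → VarK al κ →
      HFinD ∅ (rhoC al) (α * Real.log 2) δ := by
  obtain ⟨κ, q0, q1, h⟩ := hupV h0 h1
  exact ⟨κ, q0, fun al α hT hV η hη hη1 =>
    (hptV hT h0 h1 (hV.mono (by linarith))).and (h al α hT hV η hη hη1)⟩

end Pool.Agent.Work.MP_9a1701_nt.P
end

-- merged part: Pool.Agent.Work.MP_9a1701_nt.V.V6
section
/-!
# Both bounds for one value of `δ`
-/

set_option autoImplicit false
open Finset Filter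

namespace Pool.Agent.Work.MP_9a1701_nt.P

variable {D : Set ℕ} {ρ : ℕ → ℝ}

lemma V6_tail {δ η : ℝ} (hδ : 0 < δ) (hδ1 : δ ≤ 1 / 10) (hη : 0 < η) (hη1 : η ≤ 1 / 4) :
    ∀ᶠ x : ℕ in atTop, 1 ≤ (x : ℝ) ^ (δ / 2) ∧ (x : ℝ) ^ (δ / 2) / Lp δ x ≤ η ∧
      8 / (η ^ 2 * Lp δ x) + (4 * (sp x : ℝ) ^ 3 + 2 * (x : ℝ) ^ 2 / sp x) / (η * x) ^ 2 +
        32 * (x : ℝ) ^ (δ / 2) / (η * Lp δ x) ≤ 1 / Real.log x ^ 2 := by
  have hC : 0 < 106 / η ^ 2 := by positivity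
  filter_upwards [par1 hδ hδ1 hη, CoreG_ratio hδ hC,
    CoreG_ratio hδ (show 0 < 1 / η by positivity), log_pow_le_sp 2 hC, eventually_ge_atTop 2]
    with x h2 h4 h4' h5 hx
  obtain ⟨p1, -⟩ := h2
  have hx0 : (0 : ℝ) < x := Nat.cast_pos.2 (by omega)
  have hs0 : (0 : ℝ) < sp x := Nat.cast_pos.2 (An_sp_pos x)
  have hsx : (sp x : ℝ) ^ 2 ≤ 4 * x := by
    have := pow_le_pow_left₀ hs0.le (sp_le (show 1 ≤ x by omega)) 2
    rw [mul_pow, Real.sq_sqrt hx0.le] at this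
    linarith only [this]
  have hP : 1 ≤ (x : ℝ) ^ (δ / 2) := Real.one_le_rpow (by exact_mod_cast (by omega : 1 ≤ x))
    (by positivity)
  have hL0 : (0 : ℝ) < Lp δ x := Nat.cast_pos.2 (by omega)
  have hlog : 0 < Real.log x := Real.log_pos (by exact_mod_cast hx)
  have hLP : (x : ℝ) ^ (δ / 2) / Lp δ x ≤ η := by
    have u1 : 1 / η ≤ Lp δ x / (x : ℝ) ^ (δ / 2) :=
      le_trans (le_mul_of_one_le_right (by positivity) (one_le_pow₀ (by linarith))) h4'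
    rw [div_le_div_iff₀ hη (by positivity)] at u1
    rw [div_le_iff₀ hL0]
    linarith
  have ht := Core4_tail hη (by linarith only [hη1]) hlog hx0 hs0 hsx h4 h5
  have e1 : 8 / (η ^ 2 * Lp δ x) ≤ 8 / (η ^ 2 * (Lp δ x / (x : ℝ) ^ (δ / 2))) := by
    gcongr
    exact div_le_self hL0.le hP
  have e2 : 32 * (x : ℝ) ^ (δ / 2) / (η * Lp δ x) =
      32 / (η * (Lp δ x / (x : ℝ) ^ (δ / 2))) := by field_simp
  exact ⟨hP, hLP, by rw [e2]; linarith⟩

lemma V6_mert (hρ : Prob ρ) {c : ℝ} (hc : 0 ≤ c) (hM : HMert D ρ c) (hS : HSparse D ρ)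
    {δ ε : ℝ} (hδ : 0 < δ) (hδ1 : δ ≤ 1 / 10) (hε : 0 < ε) : ∀ᶠ x : ℕ in atTop,
      Ex ρ (Icc 1 x) (fun Q => Wt (cfg D Q) x (sp x) (Lp δ x) (ip δ x)) ≤
        (7 * c * δ + 12 * ε) * x ∧
      c * Real.log 2 - 8 * c * δ - 2 * ε ≤
        ∑ t ∈ Ico (Lp δ x * sp x) (ip δ x * sp x), pit D ρ t / t := by
  obtain ⟨z0, hz0⟩ := hM _ hε
  obtain ⟨z1, hz1⟩ := eventually_atTop.1 (hS _ hε)
  filter_upwards [par1 hδ hδ1 one_pos, par2 hδ hδ1,
    log_pow_le_sp 0 (show (0 : ℝ) < (z0 + z1 + 1 : ℕ) by positivity), eventually_ge_atTop 2]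
    with x h2 h3 h6 hx
  obtain ⟨p1, p2, p3, -⟩ := h2
  obtain ⟨q1, q2, q3, q4⟩ := h3
  rw [pow_zero, mul_one, Nat.cast_le] at h6
  have hx0 : (0 : ℝ) < x := Nat.cast_pos.2 (by omega)
  have hs : 1 ≤ sp x := by omega
  have hs0 : (0 : ℝ) < sp x := Nat.cast_pos.2 hs
  have hsx : (sp x : ℝ) ^ 2 ≤ 4 * x := by
    have := pow_le_pow_left₀ hs0.le (sp_le (show 1 ≤ x by omega)) 2
    rw [mul_pow, Real.sq_sqrt hx0.le] at this
    linarith only [this]
  have r1 : sp x ≤ Lp δ x * sp x := Nat.le_mul_of_pos_left _ (by omega)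
  have r2 : Lp δ x * sp x ≤ ip δ x * sp x := Nat.mul_le_mul_right _ p2
  have m1 := Core4_up hc hε.le (hz0 _ _ (by omega) r1) q1 (by linarith only [hδ1])
  have m2 := Core4_up hc hε.le (hz0 (ip δ x * sp x) (x + 1) (by omega) (by omega)) q2
    (by linarith only [hδ1])
  have m3 := (abs_le.1 (hz0 _ _ (by omega) r2)).1
  have m4 := mul_le_mul_of_nonneg_left (hz1 (sp x) (by omega)) (show (0 : ℝ) ≤ 2 * sp x by
    positivity)
  constructor
  · have n1 := mul_le_mul_of_nonneg_left m1 hx0.le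
    have n2 := mul_le_mul_of_nonneg_left m2 hx0.le
    have n3 := mul_le_mul_of_nonneg_left hsx hε.le
    linarith only [mean_Wt (D := D) (x := x) hρ hs (show 1 ≤ Lp δ x by omega) p2, n1, n2, n3, m4]
  · have n1 := mul_le_mul_of_nonneg_left q3 hc
    have n2 := mul_le_mul_of_nonneg_left q4 hε.le
    linarith only [m3, n1, n2]

theorem core_upV (hρ : Prob ρ) {c δ η : ℝ} (hc : 0 ≤ c) (hc1 : c ≤ 1) (hM : HMert D ρ c)
    (hS : HSparse D ρ) (hδ : 0 < δ) (hη : 0 < η) (hη1 : η ≤ 1 / 4) (hδη : 16 * δ ≤ η)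
    (hF : HFinD D ρ (c * Real.log 2) δ) (k : ℕ) : ∀ᶠ x : ℕ in atTop,
      Ex ρ (Icc 1 x) (fun Q => ind ((poi k (c * Real.log 2) + 140 * η) * x < Rk (cfg D Q) k x)) ≤
        1 / Real.log x ^ 2 := by
  have hδ1 : δ ≤ 1 / 10 := by linarith
  have l1 := Real.log_two_lt_d9
  have l2 : 0 ≤ Real.log 2 := Real.log_nonneg one_le_two
  have hl : 0 ≤ c * Real.log 2 := mul_nonneg hc l2
  have hl1 : c * Real.log 2 ≤ 1 := mul_le_one₀ hc1 l2 (by linarith)
  filter_upwards [hF η hη (by linarith), par1 hδ hδ1 hη, V6_tail hδ hδ1 hη hη1,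
    V6_mert hρ hc hM hS hδ hδ1 (show 0 < η / 24 by positivity), eventually_ge_atTop 1]
    with x h1 h2 h3 h4 hx
  obtain ⟨p1, p2, p3, p4, p5, -⟩ := h2
  have hx0 : (0 : ℝ) ≤ x := Nat.cast_nonneg x
  have a1 : c * δ ≤ δ := mul_le_of_le_one_left hδ.le hc1
  refine le_trans (Ex_mono hρ fun Q _ => ?_) ((core_fing hρ h1.1 h3.1 (An_sp_pos x) (by omega) p2
    hx (le_sp_sq x) (by omega) p4 k hl hη hη1 h1.2 (Nat.floor_le (by positivity)) p5 h3.2.1
      (le_trans (by linarith) h4.2)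
      (h4.1.trans (mul_le_mul_of_nonneg_right (by linarith) hx0))).trans h3.2.2)
  by_cases h : (poi k (c * Real.log 2) + 140 * η) * x < Rk (cfg D Q) k x
  · have a2 := mul_le_mul_of_nonneg_right hl1 (mul_nonneg hη.le hx0)
    rw [ind_pos h, ind_pos (lt_of_lt_of_le (by nlinarith) (le_abs_self _))]
  · rw [ind_neg h]
    exact ind_nonneg _

theorem core_lowV (hρ : Prob ρ) {c δ γ : ℝ} (hc : 0 ≤ c) (hc1 : c ≤ 1) (hM : HMert D ρ c)
    (hS : HSparse D ρ) (hδ : 0 < δ) (hδ1 : δ ≤ 1 / 12) (hγ : 0 < γ) (hγ1 : γ ≤ 1)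
    (hF : HFinD D ρ (c * Real.log 2) δ) (k : ℕ) {η0 : ℝ} (hη0 : 0 < η0) : ∀ᶠ x : ℕ in atTop,
      Ex ρ (Icc 1 x) (fun Q => ind (Rk (cfg D Q) k x <
        ((1 - γ) ^ k * poi k (c * Real.log 2) * (1 - 21 * (δ / γ)) - η0) * x)) ≤
        1 / Real.log x ^ 2 := by
  classical
  have hδ2 : δ ≤ 1 / 10 := by linarith
  have l0 := Real.log_two_gt_d9
  have l1 := Real.log_two_lt_d9
  have l2 : 0 ≤ Real.log 2 := Real.log_nonneg one_le_two
  have hl : 0 ≤ c * Real.log 2 := mul_nonneg hc l2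
  have hl1 : c * Real.log 2 ≤ 1 := mul_le_one₀ hc1 l2 (by linarith)
  have a0 : 8 * c * δ ≤ c * Real.log 2 * (12 * δ) := by
    have := mul_le_mul_of_nonneg_left (show (8 : ℝ) ≤ 12 * Real.log 2 by linarith)
      (mul_nonneg hc hδ.le)
    linarith
  generalize hl0 : c * Real.log 2 = l at *
  obtain ⟨η, hη, hη1, hη2, hη3⟩ : ∃ η : ℝ, 0 < η ∧ η ≤ δ ∧ 73 * η ≤ η0 ∧
      (0 < l → 8 * η ≤ γ * l * δ) := by
    rcases hl.eq_or_lt with e | e
    · exact ⟨min δ (η0 / 73), by positivity, min_le_left _ _,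
        (le_div_iff₀' (by norm_num)).1 (min_le_right _ _), fun h => absurd h e.not_lt⟩
    · exact ⟨min (min δ (η0 / 73)) (γ * l * δ / 8), by positivity,
        (min_le_left _ _).trans (min_le_left _ _),
        (le_div_iff₀' (by norm_num)).1 ((min_le_left _ _).trans (min_le_right _ _)),
        fun _ => (le_div_iff₀' (by norm_num)).1 (min_le_right _ _)⟩
  have hη4 : η ≤ 1 / 4 := by linarith
  have hdg : δ ≤ δ / γ := le_div_self hδ.le hγ hγ1
  filter_upwards [hF η hη (by linarith), par1 hδ hδ2 hη, V6_tail hδ hδ2 hη hη4,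
    V6_mert hρ hc hM hS hδ hδ2 (show 0 < η / 24 by positivity), eventually_ge_atTop 1]
    with x h1 h2 h3 h4 hx
  obtain ⟨p1, p2, p3, p4, p5, p6, -⟩ := h2
  rw [hl0] at h4
  have hx0 : (0 : ℝ) ≤ x := Nat.cast_nonneg x
  have a1 : c * δ ≤ δ := mul_le_of_le_one_left hδ.le hc1
  have hn0 : ((⌊η * x⌋₊ : ℕ) : ℝ) ≤ η * x := Nat.floor_le (by positivity)
  have hβ : (((Ioc ⌊η * x⌋₊ x).filter fun n =>
      ¬ (1 - γ) * l ≤ lam D ρ x (sp x) (Lp δ x) (ip δ x) n).card : ℝ) ≤ 13 * (δ / γ) * x := by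
    rcases hl.eq_or_lt with e | e
    · rw [filter_false_of_mem fun n _ => not_not.2 (by
        rw [← e, mul_zero]
        exact lam_nonneg hρ n), card_empty, Nat.cast_zero]
      positivity
    · have b1 := low_count (γ := γ) (θ := 12 * δ) hρ (An_sp_pos x) (by omega) p2 (le_sp_sq x)
        (by omega) hl hη hη4 (by positivity) (by linarith) h1.2 hn0 p5 p6
        (le_trans (by linarith) h4.2)
      refine le_of_mul_le_mul_left (b1.trans ?_) (mul_pos hγ e)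
      have b2 : γ * l * (13 * (δ / γ) * x) = 13 * δ * l * x := by field_simp
      have b3 := mul_le_mul_of_nonneg_right (hη3 e) hx0
      have b4 := mul_le_mul_of_nonneg_right hl1 (mul_nonneg hη.le hx0)
      have b5 := mul_le_mul_of_nonneg_right hγ1 (show 0 ≤ l * δ * x by positivity)
      rw [b2]
      nlinarith
  refine le_trans (Ex_mono hρ fun Q _ => ?_) ((core_low (θ := 8 * (δ / γ)) hρ h1.1 h3.1
    (An_sp_pos x) (by omega) p2 hx (le_sp_sq x) (by omega) p4 k hl hη hη4 hγ1 hγ.le h1.2 hn0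
      h3.2.1 hβ (h4.1.trans (mul_le_mul_of_nonneg_right (by linarith) hx0))).trans h3.2.2)
  by_cases h : Rk (cfg D Q) k x < ((1 - γ) ^ k * poi k l * (1 - 21 * (δ / γ)) - η0) * x
  · have a2 := mul_le_mul_of_nonneg_right hl1 hη.le
    rw [ind_pos h, ind_pos (h.trans_le (mul_le_mul_of_nonneg_right (by linarith) hx0))]
  · rw [ind_neg h]
    exact ind_nonneg _

end Pool.Agent.Work.MP_9a1701_nt.P
end

-- merged part: Pool.Agent.Work.MP_9a1701_nt.V.V7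
section
/-!
# The almost sure statement with one exponent
-/

set_option autoImplicit false
open Finset Filter MeasureTheory ProbabilityTheory Topology

namespace Pool.Agent.Work.MP_9a1701_nt.P

lemma V7_grid {d : ℝ} (hd : 0 < d) {B : ℕ → Prop}
    (h : ∀ᶠ j : ℕ in atTop, B ⌊(1 + d) ^ j⌋₊) :
    ∀ᶠ x : ℕ in atTop, ∃ y e : ℕ, x = y + e ∧ B y ∧ (e : ℝ) ≤ d * x + 1 := by
  obtain ⟨J, hJ⟩ := eventually_atTop.1 h
  have hq : 1 < 1 + d := by linarith
  obtain ⟨N1, hN1⟩ := exists_nat_ge ((1 + d) ^ J)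
  filter_upwards [eventually_ge_atTop (N1 + 1)] with x hx
  have hx1 : (N1 : ℝ) ≤ x := by exact_mod_cast (by omega : N1 ≤ x)
  have hx0 : (1 : ℝ) ≤ x := by exact_mod_cast (by omega : 1 ≤ x)
  obtain ⟨j, hj1, hj2⟩ := exists_nat_pow_near hx0 hq
  have hJj : J ≤ j := by
    by_contra hn
    have : (1 + d) ^ (j + 1) ≤ (1 + d) ^ J := pow_le_pow_right₀ hq.le (by omega)
    linarith
  have hg := hJ j hJj
  set y : ℕ := ⌊(1 + d) ^ j⌋₊ with hy
  have hy1 : (y : ℝ) ≤ (1 + d) ^ j := Nat.floor_le (by positivity)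
  have hy2 : (1 + d) ^ j < y + 1 := Nat.lt_floor_add_one _
  have hyx : y ≤ x := by exact_mod_cast hy1.trans hj1
  obtain ⟨e, he⟩ := Nat.exists_eq_add_of_le hyx
  refine ⟨y, e, he, hg, ?_⟩
  have hdr : (x : ℝ) = y + e := by exact_mod_cast he
  rw [pow_succ] at hj2
  have : d * (1 + d) ^ j ≤ d * x := mul_le_mul_of_nonneg_left hj1 hd.le
  nlinarith

lemma V7_bc {Ω : Type*} [MeasurableSpace Ω] (μ : Measure Ω) [IsProbabilityMeasure μ]
    (E : ℕ → Set Ω) (hm : ∀ n, MeasurableSet (E n)) (hind : iIndepSet E μ) (D : Set ℕ) (k : ℕ)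
    (B : ℕ → ℝ → Prop) (h : ∀ᶠ x : ℕ in atTop, Ex (fun n => μ.real (E n)) (Icc 1 x)
      (fun Q => ind (B x (Rk (cfg D Q) k x))) ≤ 1 / Real.log x ^ 2) {d : ℝ} (hd : 0 < d) :
    ∀ᵐ ω ∂μ, ∀ᶠ x : ℕ in atTop, ∃ y e : ℕ, x = y + e ∧
      ¬ B y (Rk (D ∪ {t | ω ∈ E t}) k y) ∧ (e : ℝ) ≤ d * x + 1 := by
  classical
  have hq : 1 < 1 + d := by linarith
  set S : ℕ → Set Ω := fun j =>
    {ω | B ⌊(1 + d) ^ j⌋₊ (Rk (D ∪ {t | ω ∈ E t}) k ⌊(1 + d) ^ j⌋₊)} with hB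
  have hlim : Tendsto (fun j : ℕ => ⌊(1 + d) ^ j⌋₊) atTop atTop :=
    tendsto_nat_floor_atTop.comp (tendsto_pow_atTop_atTop_of_one_lt hq)
  have hsum : Summable fun j => μ.real (S j) := by
    refine Summable.of_norm_bounded_eventually_nat (Bridge_summable hq) ?_
    filter_upwards [hlim.eventually h] with j hj
    rw [Real.norm_eq_abs, abs_of_nonneg measureReal_nonneg]
    refine le_trans (le_of_eq ?_) hj
    rw [← meas_eq_Ex μ E hm hind]
    congr 1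
    ext ω
    simp only [hB, Set.mem_ofPred_eq]
    rw [Bridge_Rk_eq]
  have hne : ∑' j, μ (S j) ≠ ⊤ := by
    have := hsum.tsum_ofReal_ne_top
    simpa only [ofReal_measureReal (measure_ne_top μ _)] using this
  filter_upwards [ae_eventually_notMem hne] with ω hω
  exact V7_grid hd (B := fun y => ¬ B y (Rk (D ∪ {t | ω ∈ E t}) k y)) hω

lemma V7_big {a : ℝ} (ha : 0 < a) : ∀ᶠ x : ℕ in atTop, 1 ≤ a * x ∧ (0 : ℝ) < x := by
  filter_upwards [tendsto_natCast_atTop_atTop.eventually_ge_atTop (1 / a),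
    eventually_ge_atTop 1] with x h1 h2
  exact ⟨(div_le_iff₀' ha).1 h1, by exact_mod_cast h2⟩

theorem bridgeV {Ω : Type*} [MeasurableSpace Ω] (μ : Measure Ω) [IsProbabilityMeasure μ]
    (E : ℕ → Set Ω) (hm : ∀ n, MeasurableSet (E n)) (hind : iIndepSet E μ) (D : Set ℕ)
    {c ε δ : ℝ} (hc : 0 ≤ c) (hc1 : c ≤ 1) (hε : 0 < ε) (hε1 : ε < 1) (hδ : 0 < δ)
    (hδ1 : 4480 * δ ≤ ε ^ 2) (hM : HMert D (fun n => μ.real (E n)) c)
    (hS : HSparse D fun n => μ.real (E n))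
    (hF : HFinD D (fun n => μ.real (E n)) (c * Real.log 2) δ) :
    ∀ᵐ ω ∂μ, ∀ k : ℕ, ∀ᶠ x : ℕ in atTop, Rk (D ∪ {t | ω ∈ E t}) k x / x ∈
      Set.Icc ((1 - ε) ^ (k + 1) * poi k (c * Real.log 2)) (poi k (c * Real.log 2) + ε) := by
  have hρ : Prob fun n => μ.real (E n) := fun _ => ⟨measureReal_nonneg, measureReal_le_one⟩
  have hl : 0 ≤ c * Real.log 2 := mul_nonneg hc (Real.log_nonneg one_le_two)
  have e2 : ε ^ 2 ≤ ε := by nlinarith
  have g0 : 0 < 1 - ε := sub_pos.2 hε1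
  rw [ae_all_iff]
  intro k
  have p0 := poi_nonneg k hl
  have p1 := poi_le_one k hl
  have up := V7_bc μ E hm hind D k (fun x r => (poi k (c * Real.log 2) + 140 * (ε / 280)) * x < r)
    (core_upV hρ hc hc1 hM hS hδ (show 0 < ε / 280 by positivity) (by linarith) (by linarith) hF k)
    (show 0 < ε / 4 by positivity)
  have low : ∀ᵐ ω ∂μ, ∀ᶠ x : ℕ in atTop,
      (1 - ε) ^ (k + 1) * poi k (c * Real.log 2) ≤ Rk (D ∪ {t | ω ∈ E t}) k x / x := by
    rcases p0.eq_or_lt with e | e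
    · refine ae_of_all _ fun ω => Eventually.of_forall fun x => ?_
      rw [← e, mul_zero]
      exact div_nonneg (Nat.cast_nonneg _) (Nat.cast_nonneg _)
    have c0 : 0 < (1 - ε) ^ k * poi k (c * Real.log 2) := mul_pos (pow_pos g0 k) e
    have h := V7_bc μ E hm hind D k (fun x r => r < ((1 - ε) ^ k * poi k (c * Real.log 2) *
      (1 - 21 * (δ / ε)) - (1 - ε) ^ k * poi k (c * Real.log 2) * (ε / 4)) * x)
      (core_lowV hρ hc hc1 hM hS hδ (by linarith) hε hε1.le hF k (by positivity))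
      (show 0 < ε / 8 by positivity)
    filter_upwards [h] with ω hω
    filter_upwards [hω, V7_big (show 0 < ε / 8 by positivity)] with x ⟨y, d, h1, h2, h3⟩ ⟨h4, h5⟩
    have h6 := (Bridge_incr _ (Bridge_Rk_step (D ∪ {t | ω ∈ E t}) k) y d).1
    rw [← h1] at h6
    have h7 : (x : ℝ) = y + d := by exact_mod_cast h1
    have h8 : 21 * (δ / ε) ≤ ε / 2 := by
      rw [← mul_div_assoc, div_le_iff₀ hε]
      nlinarith
    rw [le_div_iff₀ h5, pow_succ, mul_right_comm _ (1 - ε)]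
    generalize (1 - ε) ^ k * poi k (c * Real.log 2) = a at *
    have y0 : (0 : ℝ) ≤ y := Nat.cast_nonneg _
    have h9 : a * (1 - 3 * ε / 4) * y ≤ (a * (1 - 21 * (δ / ε)) - a * (ε / 4)) * y := by
      refine mul_le_mul_of_nonneg_right ?_ y0
      have := mul_le_mul_of_nonneg_left h8 c0.le
      linarith
    have h10 : (1 - ε / 4) * x ≤ y := by linarith
    have h11 := mul_le_mul_of_nonneg_left h10 (show 0 ≤ a * (1 - 3 * ε / 4) from
      mul_nonneg c0.le (by linarith))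
    have h12 : 0 ≤ a * ε ^ 2 * x := by positivity
    have h13 := not_lt.1 h2
    nlinarith
  filter_upwards [up, low] with ω h1 h2
  filter_upwards [h1, h2, V7_big (show 0 < ε / 4 by positivity)]
    with x ⟨y, d, a1, a2, a3⟩ a4 ⟨a5, a6⟩
  refine ⟨a4, ?_⟩
  have h6 := (Bridge_incr _ (Bridge_Rk_step (D ∪ {t | ω ∈ E t}) k) y d).2
  rw [← a1] at h6
  have h7 : (y : ℝ) ≤ x := by exact_mod_cast (by omega : y ≤ x)
  have h8 := mul_le_mul_of_nonneg_left h7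
    (show 0 ≤ poi k (c * Real.log 2) + 140 * (ε / 280) by positivity)
  have h9 := not_lt.1 a2
  rw [div_le_iff₀ a6]
  linarith

/-- The largest prime not above `t`. -/
noncomputable def prv (t : ℕ) : ℕ := Nat.nth Nat.Prime (Nat.count Nat.Prime (t + 1) - 1)

lemma prv_prime {t : ℕ} (h : t.Prime) : prv t = t := by
  unfold prv
  rw [Nat.count_succ, if_pos h, Nat.add_sub_cancel, Nat.nth_count h]

lemma prv_le {t : ℕ} (h : 2 ≤ t) : prv t ≤ t := by
  have h1 : Nat.count Nat.Prime (2 + 1) ≤ Nat.count Nat.Prime (t + 1) :=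
    Nat.count_monotone _ (by omega)
  have h2 : Nat.count Nat.Prime (2 + 1) = 1 := by decide
  have h3 : Nat.count Nat.Prime (t + 1) - 1 < Nat.count Nat.Prime (t + 1) := by omega
  exact Nat.lt_succ_iff.1 (Nat.nth_lt_of_lt_count h3)

lemma prv_tendsto : Tendsto (fun t => Nat.count Nat.Prime (t + 1) - 1) atTop atTop := by
  refine tendsto_atTop.2 fun m => ?_
  filter_upwards [eventually_ge_atTop (Nat.nth Nat.Prime m)] with t ht
  have h1 : m < Nat.count Nat.Prime (t + 1) := by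
    by_contra h
    have h2 := (Nat.count_le_iff_le_nth (p := Nat.Prime) Nat.infinite_setOfPred_prime).1
      (not_lt.1 h)
    omega
  omega

theorem thmV {ε : ℝ} (hε : 0 < ε) (hε1 : ε < 1) : ∃ κ : ℝ, 0 < κ ∧
    ∀ {Ω : Type*} [MeasurableSpace Ω] (μ : Measure Ω) [IsProbabilityMeasure μ]
      (E : ℕ → Set Ω), (∀ n, MeasurableSet (E n)) → iIndepSet E μ → ∀ α : ℝ,
      Tendsto (fun i => μ.real (E (Nat.nth Nat.Prime i))) atTop (𝓝 α) →
      (∀ᶠ p : ℕ in atTop, p.Prime → (p : ℝ) ^ (-κ) ≤ μ.real (E p) * (1 - μ.real (E p))) →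
      ∀ᵐ ω ∂μ, ∀ k : ℕ, ∀ᶠ x : ℕ in atTop, Rk {t | t.Prime ∧ ω ∈ E t} k x / x ∈
        Set.Icc ((1 - ε) ^ (k + 1) * poi k (α * Real.log 2)) (poi k (α * Real.log 2) + ε) := by
  classical
  have e2 : ε ^ 2 ≤ 1 := by nlinarith
  have hδ : 0 < ε ^ 2 / 4480 := by positivity
  obtain ⟨κ, k0, hF⟩ := hfinV hδ (by linarith)
  refine ⟨κ, k0, fun μ _ E hm hind α hlim hvar => ?_⟩
  set al : ℕ → ℝ := fun t => μ.real (E (prv t)) with hal
  have hT : Thin0 al α := ⟨fun _ => ⟨measureReal_nonneg, measureReal_le_one⟩,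
    hlim.comp prv_tendsto⟩
  have hV : VarK al κ := by
    have h1 := ((Nat.nth_strictMono Nat.infinite_setOfPred_prime).tendsto_atTop.comp
      prv_tendsto).eventually hvar
    filter_upwards [h1, eventually_ge_atTop 2] with t h2 h3
    have h4 : (prv t).Prime := Nat.prime_nth_prime _
    refine le_trans ?_ (h2 h4)
    exact Real.rpow_le_rpow_of_nonpos (by exact_mod_cast h4.pos) (by exact_mod_cast prv_le h3)
      (neg_nonpos.2 k0.le)
  set E' : ℕ → Set _ := fun n => if n.Prime then E n else ∅ with hE'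
  have hm' : ∀ n, MeasurableSet (E' n) := fun n => by
    by_cases h : n.Prime <;> simp [hE', h, hm n]
  have hind' : iIndepSet E' μ := by
    rw [iIndepSet_iff_meas_biInter hm']
    intro s
    by_cases h : ∀ n ∈ s, n.Prime
    · have e : ∀ n ∈ s, E' n = E n := fun n hn => by simp [hE', h n hn]
      rw [Set.iInter₂_congr e, prod_congr rfl fun n hn => by rw [e n hn]]
      exact hind.meas_biInter s
    · push Not at h
      obtain ⟨n, hn, hp⟩ := h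
      have e : E' n = ∅ := by simp [hE', hp]
      rw [prod_eq_zero hn (by rw [e, measure_empty])]
      exact measure_mono_null ((Set.biInter_subset_of_mem hn).trans e.subset) measure_empty
  have hρ : (fun n => μ.real (E' n)) = rhoC al := by
    funext n
    by_cases h : n.Prime
    · simp [hE', rhoC, h, hal, prv_prime h]
    · simp [hE', rhoC, h]
  have h := bridgeV μ E' hm' hind' ∅ hT.nonneg hT.le_one hε hε1 hδ (by linarith)
    (hρ ▸ hmertV hT) (hρ ▸ hsparseV hT) (hρ ▸ hF al α hT hV)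
  filter_upwards [h] with ω hω k
  have e : (∅ : Set ℕ) ∪ {t | ω ∈ E' t} = {t | t.Prime ∧ ω ∈ E t} := by
    ext t
    by_cases h : t.Prime <;> simp [hE', h]
  rw [← e]
  exact hω k

end Pool.Agent.Work.MP_9a1701_nt.P
end
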