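import Pool.Agent.Work.MP_9a1701_nt.V.V5
import Pool.Agent.Work.MP_9a1701_nt.T.ModC1
import Pool.Agent.Work.MP_9a1701_nt.P.ModB

-- merged part: Pool.Agent.Work.MP_9a1701_nt.V.W1
section
/-!
# The core estimates from a bound for the cell means and for the surplus
-/

set_option autoImplicit false
open Finset Filter

namespace Pool.Agent.Work.MP_9a1701_nt.P

variable {D : Set ℕ} {ρ : ℕ → ℝ} {x s L i1 : ℕ}

lemma mean_pointA (hρ : Prob ρ) (hs : 1 ≤ s) (hL : 1 ≤ L) (hi : i1 * s ≤ x) {n : ℕ} {η : ℝ}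
    (hη : 0 ≤ η) (hm8 : ∀ i ∈ Ico L i1,
      Ex ρ (Icc 1 x) (fun Q => (cnt (cfg D Q) (i * s) ((i + 1) * s) n : ℝ)) ≤ η)
    (k : ℕ) {l0 : ℝ} (hl : 0 ≤ l0) :
    |Ex ρ (Icc 1 x) (fun Q => ind (Yc (cfg D Q) s L i1 n = k)) - poi k l0| ≤
      2 * η * lam D ρ x s L i1 n + |lam D ρ x s L i1 n - l0| +
        ∑ i ∈ Ico L i1, Ex ρ (Icc 1 x) fun Q =>
          (cnt (cfg D Q) (i * s) ((i + 1) * s) n : ℝ) -
            ind (cnt (cfg D Q) (i * s) ((i + 1) * s) n ≠ 0) := by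
  have hLC := lecam (U := Icc 1 x) hρ (Ico L i1) (fun i => Ico (i * s) ((i + 1) * s))
    (fun i _ j _ hij => Core2_disj s hij)
    (by
      intro i hi0 t ht
      rw [mem_Ico] at hi0 ht
      rw [mem_Icc]
      have h1 : (i + 1) * s ≤ i1 * s := Nat.mul_le_mul_right s hi0.2
      have h2 : 1 * 1 ≤ i * s := Nat.mul_le_mul (hL.trans hi0.1) hs
      omega)
    (fun i Q => cnt (cfg D Q) (i * s) ((i + 1) * s) n ≠ 0)
    (by
      intro i _ Q
      have : cnt (cfg D Q) (i * s) ((i + 1) * s) n =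
          cnt (cfg D (Q ∩ Ico (i * s) ((i + 1) * s))) (i * s) ((i + 1) * s) n := by
        refine cnt_congr (fun t h1 h2 => ?_) n
        rw [mem_cfg, mem_cfg, mem_inter, mem_Ico]
        tauto
      rw [this]) k
  set p : ℕ → ℝ := fun i => Ex ρ (Icc 1 x) fun Q =>
    ind (cnt (cfg D Q) (i * s) ((i + 1) * s) n ≠ 0) with hp
  set m : ℕ → ℝ := fun i => Ex ρ (Icc 1 x) fun Q =>
    (cnt (cfg D Q) (i * s) ((i + 1) * s) n : ℝ) with hm
  have hp0 : ∀ i, 0 ≤ p i := fun i => Ex_nonneg hρ fun Q _ => ind_nonneg _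
  have hpm : ∀ i, p i ≤ m i := fun i => Ex_mono hρ fun Q _ => Core2_ind_le _
  have hlam : lam D ρ x s L i1 n = ∑ i ∈ Ico L i1, m i := rfl
  have hE : Ex ρ (Icc 1 x) (fun Q => ind (Yc (cfg D Q) s L i1 n = k)) =
      Ex ρ (Icc 1 x) (fun Q => ind ((@Finset.filter ℕ
        (fun i => cnt (cfg D Q) (i * s) ((i + 1) * s) n ≠ 0)
        (fun _ => Classical.propDecidable _) (Ico L i1)).card = k)) := by
    refine Ex_congr fun Q _ => ind_congr ?_
    unfold Yc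
    congr!
  have h1 : |Ex ρ (Icc 1 x) (fun Q => ind (Yc (cfg D Q) s L i1 n = k)) -
      poi k (∑ i ∈ Ico L i1, p i)| ≤ 2 * ∑ i ∈ Ico L i1, p i ^ 2 := by
    rw [hE]
    exact hLC
  have h2 : ∑ i ∈ Ico L i1, p i ^ 2 ≤ η * lam D ρ x s L i1 n := by
    rw [hlam, mul_sum]
    refine sum_le_sum fun i hi0 => ?_
    rw [sq]
    exact mul_le_mul ((hpm i).trans (hm8 i hi0)) (hpm i) (hp0 i) hη
  have h3 := poi_lip k (sum_nonneg fun i (_ : i ∈ Ico L i1) => hp0 i) hl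
  have h4 : ∑ i ∈ Ico L i1, (Ex ρ (Icc 1 x) fun Q =>
      (cnt (cfg D Q) (i * s) ((i + 1) * s) n : ℝ) -
        ind (cnt (cfg D Q) (i * s) ((i + 1) * s) n ≠ 0)) =
      lam D ρ x s L i1 n - ∑ i ∈ Ico L i1, p i := by
    rw [hlam, ← sum_sub_distrib]
    exact sum_congr rfl fun i _ => Ex_sub _ _
  have h5 : ∑ i ∈ Ico L i1, p i ≤ lam D ρ x s L i1 n := by
    rw [hlam]
    exact sum_le_sum fun i _ => hpm i
  have h6 : |∑ i ∈ Ico L i1, p i - l0| ≤
      |lam D ρ x s L i1 n - l0| + (lam D ρ x s L i1 n - ∑ i ∈ Ico L i1, p i) := by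
    have a1 := le_abs_self (lam D ρ x s L i1 n - l0)
    have a2 := neg_abs_le (lam D ρ x s L i1 n - l0)
    rw [abs_le]
    constructor <;> linarith
  have h7 := abs_sub_le (Ex ρ (Icc 1 x) (fun Q => ind (Yc (cfg D Q) s L i1 n = k)))
    (poi k (∑ i ∈ Ico L i1, p i)) (poi k l0)
  rw [h4]
  linarith

/-- The finite hypotheses of the two estimates. -/
structure FinA (D : Set ℕ) (ρ : ℕ → ℝ) (x s L i1 n0 : ℕ) (l0 η θ Λ : ℝ) : Prop where
  hs : 1 ≤ s
  hL : 1 ≤ L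
  hLi : L ≤ i1
  hx0 : 1 ≤ x
  hx : x ≤ s ^ 2
  hi : i1 * s ≤ x
  hup : HUP D ρ x s L i1 n0 l0 η
  hn0 : (n0 : ℝ) ≤ η * x
  hi' : ((i1 * s : ℕ) : ℝ) ≤ η * x
  hLη : 1 / (L : ℝ) ≤ η
  hS : l0 - η ≤ ∑ t ∈ Ico (L * s) (i1 * s), pit D ρ t / t
  cell : ∀ n, n0 < n → ∀ i ∈ Ico L i1,
    Ex ρ (Icc 1 x) (fun Q => (cnt (cfg D Q) (i * s) ((i + 1) * s) n : ℝ)) ≤ η
  hZ : Ex ρ (Icc 1 x) (fun Q => ∑ i ∈ Ico L i1, Zi (cfg D Q) x s i) ≤ 32 / Λ * x
  hΛ : 32 / Λ ≤ η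
  hΛ0 : 0 < Λ
  hΛL : Λ ≤ L
  hW : Ex ρ (Icc 1 x) (fun Q => Wt (cfg D Q) x s L i1) ≤ θ * x

variable {n0 : ℕ} {l0 η θ Λ : ℝ}

theorem mean_FGA (hρ : Prob ρ) (h : FinA D ρ x s L i1 n0 l0 η θ Λ) (k : ℕ) (hl : 0 ≤ l0)
    (hη : 0 < η) (hη1 : η ≤ 1 / 4) {G : Finset ℕ} (hG : G ⊆ Icc 1 x) :
    |Ex ρ (Icc 1 x) (fun Q => FG (cfg D Q) G s L i1 k) - G.card * poi k l0| ≤
      (10 + 5 * l0) * (η * x) := by
  have hx0 : (0 : ℝ) ≤ x := Nat.cast_nonneg x
  have hηx : η * x ≤ 1 / 4 * x := mul_le_mul_of_nonneg_right hη1 hx0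
  have hn0 := h.hn0
  have hn0x : n0 ≤ x := by
    have : (n0 : ℝ) ≤ x := by linarith
    exact_mod_cast this
  obtain ⟨hA, hB⟩ := lam_L1 hρ h.hs h.hL h.hLi h.hx h.hi hl hη hη1 h.hup h.hn0 h.hi' h.hLη h.hS
  have hZ := h.hZ.trans (mul_le_mul_of_nonneg_right h.hΛ hx0)
  set e : ℕ → ℝ := fun n => Ex ρ (Icc 1 x) (fun Q => ind (Yc (cfg D Q) s L i1 n = k)) with he
  set z : ℕ → ℝ := fun n => ∑ i ∈ Ico L i1, Ex ρ (Icc 1 x) fun Q =>
    (cnt (cfg D Q) (i * s) ((i + 1) * s) n : ℝ) -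
      ind (cnt (cfg D Q) (i * s) ((i + 1) * s) n ≠ 0) with hz
  have hF : Ex ρ (Icc 1 x) (fun Q => FG (cfg D Q) G s L i1 k) = ∑ n ∈ G, e n := by
    rw [← Ex_sum]
    refine Ex_congr fun Q _ => ?_
    unfold FG
    exact Core2_card _ _
  have hZ' : Ex ρ (Icc 1 x) (fun Q => ∑ i ∈ Ico L i1, Zi (cfg D Q) x s i) =
      ∑ n ∈ Icc 1 x, z n := by
    rw [Ex_sum, hz, sum_comm]
    refine sum_congr rfl fun i _ => ?_
    unfold Zi
    rw [Ex_sum]
  have hz0 : ∀ n, 0 ≤ z n := fun n =>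
    sum_nonneg fun i _ => Ex_nonneg hρ fun Q _ => sub_nonneg.mpr (Core2_ind_le _)
  have hsub : Ioc n0 x ⊆ Icc 1 x := by
    intro n hn1
    rw [mem_Ioc] at hn1
    rw [mem_Icc]
    omega
  have hz1 : ∑ n ∈ Ioc n0 x, z n ≤ η * x := by
    rw [hZ'] at hZ
    exact (sum_le_sum_of_subset_of_nonneg hsub fun n _ _ => hz0 n).trans hZ
  have hPP : (G.card : ℝ) * poi k l0 = ∑ _n ∈ G, poi k l0 := by
    rw [sum_const, nsmul_eq_mul]
  have hI : Icc 1 x = Ioc 0 x := by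
    ext n
    rw [mem_Icc, mem_Ioc]
    omega
  have hsplit : ∑ n ∈ Icc 1 x, |e n - poi k l0| =
      ∑ n ∈ Ioc 0 n0, |e n - poi k l0| + ∑ n ∈ Ioc n0 x, |e n - poi k l0| := by
    rw [hI, sum_Ioc_consecutive _ (Nat.zero_le n0) hn0x]
  have h1 : ∑ n ∈ Ioc 0 n0, |e n - poi k l0| ≤ n0 := by
    have : ∑ n ∈ Ioc 0 n0, |e n - poi k l0| ≤ ∑ _n ∈ Ioc 0 n0, (1 : ℝ) := by
      refine sum_le_sum fun n _ => ?_
      have a1 : 0 ≤ e n := Ex_nonneg hρ fun Q _ => ind_nonneg _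
      have a2 : e n ≤ 1 := Ex_le_const hρ fun Q _ => ind_le_one _
      have a3 := poi_nonneg k hl
      have a4 := poi_le_one k hl
      rw [abs_le]
      constructor <;> linarith
    rw [sum_const, nsmul_eq_mul, Nat.card_Ioc, Nat.sub_zero, mul_one] at this
    exact this
  have h2 : ∑ n ∈ Ioc n0 x, |e n - poi k l0| ≤
      2 * η * ∑ n ∈ Ioc n0 x, lam D ρ x s L i1 n +
        ∑ n ∈ Ioc n0 x, |lam D ρ x s L i1 n - l0| + ∑ n ∈ Ioc n0 x, z n := by
    rw [mul_sum, ← sum_add_distrib, ← sum_add_distrib]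
    refine sum_le_sum fun n hn1 => ?_
    rw [mem_Ioc] at hn1
    exact mean_pointA hρ h.hs h.hL h.hi hη.le (h.cell n hn1.1) k hl
  have h3 := mul_le_mul_of_nonneg_left hB (show 0 ≤ 2 * η by positivity)
  rw [hF, hPP, ← sum_sub_distrib]
  refine (abs_sum_le_sum_abs _ _).trans ((sum_le_sum_of_subset_of_nonneg hG
    fun n _ _ => abs_nonneg _).trans ?_)
  rw [hsplit]
  linarith

lemma W1_tail (hρ : Prob ρ) (h : FinA D ρ x s L i1 n0 l0 η θ Λ) (hη : 0 < η)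
    {F : Finset ℕ → ℝ} (c1 : Ex ρ (Icc 1 x) F ≤ 8 * (x : ℝ) ^ 2 / L / (η * x) ^ 2) :
    Ex ρ (Icc 1 x) (fun Q => F Q + ind (η * x < |Wt (cfg D Q) x s L i1 -
      Ex ρ (Icc 1 x) fun Q => Wt (cfg D Q) x s L i1|) +
        ind (η * x < ∑ i ∈ Ico L i1, Zi (cfg D Q) x s i)) ≤
      8 / (η ^ 2 * Λ) + (4 * (s : ℝ) ^ 3 + 2 * (x : ℝ) ^ 2 / s) / (η * x) ^ 2 + 32 / (η * Λ) := by
  have hxp : (0 : ℝ) < x := by exact_mod_cast h.hx0
  have hLp : (0 : ℝ) < L := by exact_mod_cast h.hL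
  have ha : 0 < η * x := mul_pos hη hxp
  have hΛ := h.hΛ0
  have hvW := var_Wt (D := D) (x := x) (L := L) (i1 := i1) hρ h.hs
  have c2 := chebyshev (U := Icc 1 x) hρ (fun Q => Wt (cfg D Q) x s L i1)
    (Ex ρ (Icc 1 x) fun Q => Wt (cfg D Q) x s L i1) ha
  have c3 := markov (U := Icc 1 x) (F := fun Q => ∑ i ∈ Ico L i1, Zi (cfg D Q) x s i) hρ
    (fun Q => sum_nonneg fun i _ => Zi_nonneg _ x s i) ha
  rw [Ex_add, Ex_add]
  refine add_le_add (add_le_add (c1.trans ?_) (c2.trans ?_)) (c3.trans ?_)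
  · calc 8 * (x : ℝ) ^ 2 / L / (η * x) ^ 2 = 8 / (η ^ 2 * L) := by field_simp
      _ ≤ _ := by
        gcongr
        exact h.hΛL
  · exact div_le_div_of_nonneg_right hvW (by positivity)
  · refine (div_le_div_of_nonneg_right h.hZ ha.le).trans (le_of_eq ?_)
    field_simp

theorem lowA (hρ : Prob ρ) (h : FinA D ρ x s L i1 n0 l0 η θ Λ) (k : ℕ) (hl : 0 ≤ l0)
    (hη : 0 < η) (hη1 : η ≤ 1 / 4) :
    Ex ρ (Icc 1 x) (fun Q => ind (Rk (cfg D Q) k x <
      (poi k l0 * (1 - θ) - (17 + 5 * l0) * η) * x)) ≤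
      8 / (η ^ 2 * Λ) + (4 * (s : ℝ) ^ 3 + 2 * (x : ℝ) ^ 2 / s) / (η * x) ^ 2 + 32 / (η * Λ) := by
  have hxp : (0 : ℝ) < x := by exact_mod_cast h.hx0
  have ha : 0 < η * x := mul_pos hη hxp
  refine (Ex_mono hρ fun Q _ => ?_).trans (W1_tail hρ h hη (dev_FG (D := D) hρ h.hs h.hL h.hi k ha))
  have hd := disc_low (cfg D Q) (i1 := i1) k h.hs h.hL h.hx h.hi
  have hm := (abs_le.1 (mean_FGA hρ h k hl hη hη1 (Gout_sub (cfg D Q) x s L i1))).1
  have hg := Gout_card (cfg D Q) h.hs h.hL h.hLi h.hx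
  have hL2 : 4 * (x : ℝ) / L ≤ 4 * (η * x) := by
    have := mul_le_mul_of_nonneg_right h.hLη hxp.le
    calc 4 * (x : ℝ) / L = 4 * (1 / L * x) := by ring
      _ ≤ 4 * (η * x) := by linarith
  refine Core3_union fun h0' => ?_
  by_contra hc
  simp only [not_or, not_lt] at hc
  obtain ⟨h1', h2, h3⟩ := hc
  have h4 := (abs_le.1 h1').1
  have h5 := (abs_le.1 h2).2
  have hW := h.hW
  have c0 := poi_nonneg k hl
  have c1 := poi_le_one k hl
  generalize poi k l0 = c at *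
  have h6 : x - θ * x - η * x ≤ ((Gout (cfg D Q) x s L i1).card : ℝ) := by linarith
  have h7 := mul_le_mul_of_nonneg_right h6 c0
  have h8 := mul_le_mul_of_nonneg_right c1 ha.le
  refine absurd h0' (not_lt.2 ?_)
  nlinarith

theorem upA (hρ : Prob ρ) (h : FinA D ρ x s L i1 n0 l0 η θ Λ) (k : ℕ) (hl : 0 ≤ l0)
    (hη : 0 < η) (hη1 : η ≤ 1 / 4) :
    Ex ρ (Icc 1 x) (fun Q => ind ((poi k l0 + θ + (15 + 5 * l0) * η) * x < Rk (cfg D Q) k x)) ≤
      8 / (η ^ 2 * Λ) + (4 * (s : ℝ) ^ 3 + 2 * (x : ℝ) ^ 2 / s) / (η * x) ^ 2 + 32 / (η * Λ) := by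
  have hxp : (0 : ℝ) < x := by exact_mod_cast h.hx0
  have ha : 0 < η * x := mul_pos hη hxp
  have c1 := (chebyshev (U := Icc 1 x) hρ (fun Q => Fk (cfg D Q) x s L i1 k)
    (Ex ρ (Icc 1 x) fun Q => Fk (cfg D Q) x s L i1 k) ha).trans
      (div_le_div_of_nonneg_right (var_Fk (D := D) hρ h.hs h.hL h.hi k) (by positivity))
  refine (Ex_mono hρ fun Q _ => ?_).trans (W1_tail hρ h hη c1)
  have hd := (abs_le.1 (disc (cfg D Q) (i1 := i1) k h.hs h.hL h.hx h.hi)).2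
  have hm : Ex ρ (Icc 1 x) (fun Q => Fk (cfg D Q) x s L i1 k) - x * poi k l0 ≤
      (10 + 5 * l0) * (η * x) := by
    have := (abs_le.1 (mean_FGA hρ h k hl hη hη1 (Subset.refl _))).2
    rwa [Nat.card_Icc, Nat.add_sub_cancel] at this
  have hL2 : 2 * (x : ℝ) / L ≤ 2 * (η * x) := by
    have := mul_le_mul_of_nonneg_right h.hLη hxp.le
    calc 2 * (x : ℝ) / L = 2 * (1 / L * x) := by ring
      _ ≤ 2 * (η * x) := by linarith
  refine Core3_union fun h0' => ?_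
  by_contra hc
  simp only [not_or, not_lt] at hc
  obtain ⟨h1', h2, h3⟩ := hc
  have h4 := (abs_le.1 h1').2
  have h5 := (abs_le.1 h2).2
  have hW := h.hW
  refine absurd h0' (not_lt.2 ?_)
  nlinarith

end Pool.Agent.Work.MP_9a1701_nt.P
end

-- merged part: Pool.Agent.Work.MP_9a1701_nt.V.W2
section
/-!
# A point bound that starts at a length `M`
-/

set_option autoImplicit false
open Finset Filter

namespace Pool.Agent.Work.MP_9a1701_nt.P

/-- The point bound for lengths from `M` on. -/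
def HPTm (D : Set ℕ) (ρ : ℕ → ℝ) (x s L i1 M : ℕ) : Prop :=
  ∀ i ∈ Ico L i1, ∀ z : ℕ, i * s ≤ z → ∀ K : ℕ, M ≤ K → ∀ n : ℕ,
    Ex ρ (Icc 1 x) (fun Q => (cntK (cfg D Q) z ((i + 1) * s) K n : ℝ)) ≤ 4 / K

variable {D : Set ℕ} {ρ : ℕ → ℝ} {x s L i1 M : ℕ}

lemma pt_geM (h : HPTm D ρ x s L i1 M) (hs : 1 ≤ s) {i : ℕ} (hi : i ∈ Ico L i1)
    {z : ℕ} (hz : i * s ≤ z) {M' m : ℕ} (h1 : M ≤ M') (h2 : m ≤ i) (h3 : m ≤ M') (h4 : 1 ≤ m)
    (n : ℕ) :
    Ex ρ (Icc 1 x) (fun Q => (cntGe (cfg D Q) z ((i + 1) * s) M' n : ℝ)) ≤ 8 / m := by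
  have hlo : 1 ≤ i * s := Nat.mul_pos (by omega) hs
  have h0 : ∀ Q : Finset ℕ, (cntGe (cfg D Q) z ((i + 1) * s) M' n : ℝ) =
      ∑ K ∈ (Icc 1 n).filter (fun K => M' ≤ K ∧ K * (i * s) ≤ n ∧ n < K * ((i + 1) * s)),
        (cntK (cfg D Q) z ((i + 1) * s) K n : ℝ) := by
    intro Q
    rw [cntGe_eq_sum _ hlo hz]
    push_cast
    rfl
  simp only [h0]
  rw [Ex_sum]
  have h5 := sum_inv_le (s := s) (i := i) (M := m) (n := n) hs h4 h2
  calc _ ≤ ∑ K ∈ (Icc 1 n).filter (fun K => M' ≤ K ∧ K * (i * s) ≤ n ∧ n < K * ((i + 1) * s)),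
        4 * (1 / (K : ℝ)) := by
        refine sum_le_sum fun K hK => ?_
        rw [mul_one_div]
        exact h i hi z hz K (h1.trans (mem_filter.1 hK).2.1) n
    _ ≤ ∑ K ∈ (Icc 1 n).filter (fun K => m ≤ K ∧ K * (i * s) ≤ n ∧ n < K * ((i + 1) * s)),
        4 * (1 / (K : ℝ)) := by
        refine sum_le_sum_of_subset_of_nonneg (fun K hK => ?_) fun K _ _ => by positivity
        rw [mem_filter] at hK ⊢
        exact ⟨hK.1, h3.trans hK.2.1, hK.2.2⟩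
    _ ≤ 4 * (2 / m) := by
        rw [← mul_sum]
        exact mul_le_mul_of_nonneg_left h5 (by norm_num)
    _ = 8 / m := by ring

lemma cell_meanM (h : HPTm D ρ x s L i1 M) (hs : 1 ≤ s) (hL : 1 ≤ L) (hLM : L ≤ M) {i : ℕ}
    (hi : i ∈ Ico L i1) {n : ℕ} (hn : M * (i1 * s) ≤ n) :
    Ex ρ (Icc 1 x) (fun Q => (cnt (cfg D Q) (i * s) ((i + 1) * s) n : ℝ)) ≤ 8 / L := by
  obtain ⟨hiL, hi1⟩ := mem_Ico.1 hi
  have h1 : M * ((i + 1) * s) ≤ n :=
    le_trans (Nat.mul_le_mul_left _ (Nat.mul_le_mul_right _ hi1)) hn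
  refine le_trans (le_of_eq (Ex_congr fun Q _ => ?_))
    (pt_geM h hs hi le_rfl (Nat.le_succ M) hiL (by omega) hL n)
  rw [cnt_eq_cntGe _ h1]

/-- Short blocks above a given block with the same sum. -/
noncomputable def cntLt (A : Set ℕ) (lo hi M n : ℕ) : ℕ :=
  ((blk A lo hi).filter fun p => bcard A p.1 p.2 < M ∧ bsum A p.1 p.2 = n).card

lemma cntGe_split (A : Set ℕ) (lo hi i M n : ℕ) :
    cntGe A lo hi i n ≤ cntGe A lo hi (max i M) n + cntLt A lo hi M n := by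
  classical
  unfold cntGe cntLt
  refine le_trans (card_le_card fun p hp => ?_) (card_union_le _ _)
  obtain ⟨h1, h2, h3⟩ := mem_filter.1 hp
  by_cases h : M ≤ bcard A p.1 p.2
  · exact mem_union_left _ (mem_filter.2 ⟨h1, max_le h2 h, h3⟩)
  · exact mem_union_right _ (mem_filter.2 ⟨h1, not_le.1 h, h3⟩)

/-- Pairs of separated blocks with equal sums, the upper one short: the trivial count. -/
lemma short_pairs (A : Set ℕ) {s i : ℕ} (M : ℕ) (hs : 1 ≤ s) (hi : 1 ≤ i) :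
    ∑ p ∈ blk A (i * s) ((i + 1) * s),
      cntLt A (p.2 + 1) ((i + 1) * s) M (bsum A p.1 p.2) ≤ s * (M * (M / i)) := by
  classical
  unfold cntLt
  rw [← card_sigma]
  have e : s * (M * (M / i)) =
      (Ico (i * s) ((i + 1) * s) ×ˢ (range M ×ˢ Icc 1 (M / i))).card := by
    rw [card_product, card_product, Nat.card_Ico, Finset.card_range, Nat.card_Icc,
      Nat.add_sub_cancel, add_mul, one_mul, Nat.add_sub_cancel_left]
  rw [e]
  have up : ∀ {p q : ℕ × ℕ}, p ∈ blk A (i * s) ((i + 1) * s) →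
      q ∈ blk A (p.2 + 1) ((i + 1) * s) → q ∈ blk A (i * s) ((i + 1) * s) := by
    intro p q hp hq
    rw [mem_blk] at hp hq ⊢
    exact ⟨by omega, hq.2⟩
  have lt : ∀ {p q : ℕ × ℕ}, p ∈ blk A (i * s) ((i + 1) * s) →
      q ∈ blk A (p.2 + 1) ((i + 1) * s) → bsum A q.1 q.2 = bsum A p.1 p.2 →
      bcard A q.1 q.2 < bcard A p.1 p.2 := by
    intro p q hp hq h
    have a1 := (card_range hq).2.1
    have a2 := bsum_le_bcard_mul A p.1 p.2
    have a3 := (card_range hp).1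
    by_contra hc
    have a4 := Nat.mul_le_mul_right (p.2 + 1) (not_lt.1 hc)
    rw [mul_add, mul_one] at a4
    omega
  refine card_le_card_of_injOn (fun r => (r.2.1, bcard A r.2.1 r.2.2,
    bcard A r.1.1 r.1.2 - bcard A r.2.1 r.2.2)) (fun r hr => ?_) fun r hr r' hr' e => ?_
  · obtain ⟨h1, h2⟩ := mem_sigma.1 (mem_coe.1 hr)
    obtain ⟨h3, h4, h5⟩ := mem_filter.1 h2
    have h6 := up h1 h3
    have h7 := lt h1 h3 h5
    have a1 := (card_range h1).2.1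
    have a2 := (card_range h6).2.2
    obtain ⟨b1, b2, b3, -⟩ := mem_blk.1 h6
    refine mem_coe.2 (mem_product.2 ⟨mem_Ico.2 ⟨b1, b2.trans_lt b3⟩, mem_product.2
      ⟨mem_range.2 h4, mem_Icc.2 ⟨Nat.sub_pos_of_lt h7, (Nat.le_div_iff_mul_le hi).2 ?_⟩⟩⟩)
    have a3 : bcard A r.1.1 r.1.2 * i * s < bcard A r.2.1 r.2.2 * (i + 1) * s := by
      rw [mul_assoc, mul_assoc]
      omega
    have a4 := Nat.lt_of_mul_lt_mul_right a3
    rw [mul_add, mul_one] at a4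
    show (bcard A r.1.1 r.1.2 - bcard A r.2.1 r.2.2) * i ≤ M
    rw [Nat.sub_mul]
    omega
  · obtain ⟨h1, h2⟩ := mem_sigma.1 (mem_coe.1 hr)
    obtain ⟨h3, -, h5⟩ := mem_filter.1 h2
    obtain ⟨g1, g2⟩ := mem_sigma.1 (mem_coe.1 hr')
    obtain ⟨g3, -, g5⟩ := mem_filter.1 g2
    obtain ⟨e1, e2⟩ := Prod.mk.inj e
    obtain ⟨e3, e4⟩ := Prod.mk.inj e2
    have e5 : r.2 = r'.2 := Bad_fst (up h1 h3) (up g1 g3) e3 e1
    have h7 := lt h1 h3 h5
    have g7 := lt g1 g3 g5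
    have e6 : r.1 = r'.1 := by
      refine card_le_one.1 (cntK_le_one A (i * s) ((i + 1) * s) (bcard A r.1.1 r.1.2)
        (bsum A r.1.1 r.1.2)) _ (mem_filter.2 ⟨h1, rfl, rfl⟩) _ (mem_filter.2 ⟨g1, by omega, ?_⟩)
      rw [← g5, ← h5, e5]
    exact Sigma.ext e6 (heq_of_eq e5)

lemma W2_harm (L i1 : ℕ) (hL : 1 ≤ L) : ∑ i ∈ Ico L i1, 1 / (i : ℝ) ≤ 1 + Real.log i1 := by
  have h := harmonic_le_one_add_log i1
  rw [harmonic_eq_sum_Icc] at h
  push_cast at h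
  refine le_trans ?_ h
  simp only [one_div]
  refine sum_le_sum_of_subset_of_nonneg (fun i hi => ?_) fun i _ _ => by positivity
  rw [mem_Ico] at hi
  exact mem_Icc.2 ⟨by omega, by omega⟩

theorem Ex_Z_M (hρ : Prob ρ) (h : HPTm D ρ x s L i1 M) (hs : 1 ≤ s) (hL : 1 ≤ L) :
    Ex ρ (Icc 1 x) (fun Q => ∑ i ∈ Ico L i1, Zi (cfg D Q) x s i) ≤
      32 * x / L + 2 * s * (M : ℝ) ^ 2 * (1 + Real.log i1) := by
  classical
  rw [Ex_sum]
  have key : ∀ i ∈ Ico L i1, Ex ρ (Icc 1 x) (fun Q => Zi (cfg D Q) x s i) ≤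
      16 * x * (1 / (i : ℝ) ^ 2) + 2 * s * (M : ℝ) ^ 2 * (1 / (i : ℝ)) := by
    intro i hi
    have hiL := (mem_Ico.1 hi).1
    have hi1 : 1 ≤ i := by omega
    have hi0 : (0 : ℝ) < i := by exact_mod_cast hi1
    have hpt : ∀ A : Set ℕ, Zi A x s i ≤
        2 * ∑ p ∈ Ico (i * s) ((i + 1) * s) ×ˢ Ico (i * s) ((i + 1) * s),
          ind (p ∈ blk A (i * s) ((i + 1) * s) ∧ bsum A p.1 p.2 ≤ x) *
            (cntGe A (p.2 + 1) ((i + 1) * s) (max i M) (bsum A p.1 p.2) : ℝ) +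
        2 * s * (M : ℝ) ^ 2 * (1 / (i : ℝ)) := by
      intro A
      refine (pairs A (x := x) hs hi1).trans ?_
      have a1 : ∑ p ∈ Ico (i * s) ((i + 1) * s) ×ˢ Ico (i * s) ((i + 1) * s),
          ind (p ∈ blk A (i * s) ((i + 1) * s) ∧ bsum A p.1 p.2 ≤ x) *
            (cntLt A (p.2 + 1) ((i + 1) * s) M (bsum A p.1 p.2) : ℝ) ≤
          s * (M : ℝ) ^ 2 * (1 / (i : ℝ)) := by
        have b1 := (Nat.cast_le (α := ℝ)).2 (short_pairs A M hs hi1)
        have b2 : ((M / i : ℕ) : ℝ) ≤ M / i := Nat.cast_div_le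
        push_cast at b1
        calc _ ≤ ∑ p ∈ Ico (i * s) ((i + 1) * s) ×ˢ Ico (i * s) ((i + 1) * s),
              if p ∈ blk A (i * s) ((i + 1) * s) then
                (cntLt A (p.2 + 1) ((i + 1) * s) M (bsum A p.1 p.2) : ℝ) else 0 := by
              refine sum_le_sum fun p _ => ?_
              split_ifs with hp
              · exact mul_le_of_le_one_left (Nat.cast_nonneg _) (ind_le_one _)
              · rw [ind_neg fun h => hp h.1, zero_mul]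
          _ ≤ ∑ p ∈ blk A (i * s) ((i + 1) * s),
                (cntLt A (p.2 + 1) ((i + 1) * s) M (bsum A p.1 p.2) : ℝ) := by
              rw [← sum_filter]
              exact sum_le_sum_of_subset_of_nonneg (fun p hp => (mem_filter.1 hp).2)
                fun p _ _ => Nat.cast_nonneg _
          _ ≤ s * (M * ((M / i : ℕ) : ℝ)) := b1
          _ ≤ s * (M * ((M : ℝ) / i)) := by gcongr
          _ = _ := by ring
      have a2 := sum_le_sum (s := Ico (i * s) ((i + 1) * s) ×ˢ Ico (i * s) ((i + 1) * s))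
        fun p _ => mul_le_mul_of_nonneg_left ((Nat.cast_le (α := ℝ)).2
          (cntGe_split A (p.2 + 1) ((i + 1) * s) i M (bsum A p.1 p.2)))
          (ind_nonneg (p ∈ blk A (i * s) ((i + 1) * s) ∧ bsum A p.1 p.2 ≤ x))
      simp only [Nat.cast_add, mul_add, sum_add_distrib] at a2
      linarith
    refine le_trans (Ex_mono hρ fun Q _ => hpt (cfg D Q)) ?_
    rw [Ex_add, Ex_const, Ex_const_mul, Ex_sum]
    refine add_le_add ?_ le_rfl
    have h1 : ∀ p ∈ Ico (i * s) ((i + 1) * s) ×ˢ Ico (i * s) ((i + 1) * s),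
        Ex ρ (Icc 1 x) (fun Q => ind (p ∈ blk (cfg D Q) (i * s) ((i + 1) * s) ∧
          bsum (cfg D Q) p.1 p.2 ≤ x) *
          (cntGe (cfg D Q) (p.2 + 1) ((i + 1) * s) (max i M) (bsum (cfg D Q) p.1 p.2) : ℝ)) ≤
        8 / i * Ex ρ (Icc 1 x) (fun Q => ind (p ∈ blk (cfg D Q) (i * s) ((i + 1) * s) ∧
          bsum (cfg D Q) p.1 p.2 ≤ x)) := by
      intro p hp
      have hp2 := (mem_Ico.1 (mem_product.1 hp).2).1
      have hlow : ∀ (Q : Finset ℕ) (t : ℕ), t ≤ p.2 →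
          (t ∈ cfg D Q ↔ t ∈ cfg D (Q ∩ range (p.2 + 1))) := by
        intro Q t ht
        simp only [mem_cfg, mem_inter, mem_range, Nat.lt_succ_iff, ht, and_true]
      have hsum : ∀ Q : Finset ℕ, bsum (cfg D Q) p.1 p.2 =
          bsum (cfg D (Q ∩ range (p.2 + 1))) p.1 p.2 :=
        fun Q => bsum_congr fun t _ ht => hlow Q t ht
      refine Ex_mul_le hρ (range (p.2 + 1)) _ (fun Q => bsum (cfg D Q) p.1 p.2)
        (fun Q n => (cntGe (cfg D Q) (p.2 + 1) ((i + 1) * s) (max i M) n : ℝ)) _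
        (fun Q => ind_nonneg _) (fun Q => ind_congr ?_) hsum (fun Q n => ?_) fun n => ?_
      · rw [← hsum Q, mem_blk, mem_blk]
        refine and_congr_left fun _ => and_congr_right fun _ => and_congr_right fun h12 =>
          and_congr_right fun _ => ?_
        rw [hlow Q p.1 h12, hlow Q p.2 le_rfl]
      · congr 1
        refine cntGe_congr (fun t ht _ => ?_) _ _
        have : ¬ t < p.2 + 1 := by omega
        simp only [mem_cfg, Finset.mem_sdiff, mem_range, this, not_false_eq_true, and_true]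
      · exact pt_geM h hs hi (by omega) (le_max_right _ _) le_rfl (le_max_left _ _) hi1 n
    refine le_trans (mul_le_mul_of_nonneg_left (sum_le_sum h1) (by norm_num)) ?_
    rw [← mul_sum, ← Ex_sum]
    have h2 : Ex ρ (Icc 1 x) (fun Q => ∑ p ∈ Ico (i * s) ((i + 1) * s) ×ˢ Ico (i * s) ((i + 1) * s),
        ind (p ∈ blk (cfg D Q) (i * s) ((i + 1) * s) ∧ bsum (cfg D Q) p.1 p.2 ≤ x)) ≤
        (x : ℝ) / i := by
      refine Ex_le_const hρ fun Q _ => le_trans ?_ (cell_count (cfg D Q) (x := x) hs hi1)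
      exact Core1_sum_ind _ _ _ fun p _ hp => mem_filter.2 hp
    calc _ ≤ 2 * (8 / (i : ℝ) * ((x : ℝ) / i)) := by gcongr
      _ = _ := by field_simp; ring
  refine le_trans (sum_le_sum key) ?_
  rw [sum_add_distrib, ← mul_sum, ← mul_sum]
  refine add_le_add ?_ (mul_le_mul_of_nonneg_left (W2_harm L i1 hL) (by positivity))
  calc _ ≤ 16 * (x : ℝ) * (2 / L) := mul_le_mul_of_nonneg_left (sum_inv_sq_le hL) (by positivity)
    _ = _ := by ring

theorem lam_leM (hs : 1 ≤ s) (hL : 1 ≤ L) {n : ℕ} (hn : M * (i1 * s) ≤ n) (hx : n ≤ x)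
    (u : ℕ → ℝ) (hu : ∀ K ∈ Ioc M (x / (L * s)), 0 ≤ u K)
    (h : ∀ i ∈ Ico L i1, ∀ K : ℕ, M < K → K * (i * s) ≤ n → n < K * ((i + 1) * s) →
      Ex ρ (Icc 1 x) (fun Q => (cntK (cfg D Q) (i * s) ((i + 1) * s) K n : ℝ)) ≤ u K) :
    lam D ρ x s L i1 n ≤ ∑ K ∈ Ioc M (x / (L * s)), u K := by
  set F : ℕ → Finset ℕ := fun i => (Icc 1 n).filter
    (fun K => M + 1 ≤ K ∧ K * (i * s) ≤ n ∧ n < K * ((i + 1) * s)) with hF
  have h1 : ∀ i ∈ Ico L i1, Ex ρ (Icc 1 x)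
      (fun Q => (cnt (cfg D Q) (i * s) ((i + 1) * s) n : ℝ)) ≤ ∑ K ∈ F i, u K := by
    intro i hi
    obtain ⟨hiL, hi1⟩ := mem_Ico.1 hi
    have hlo : 1 ≤ i * s := Nat.mul_pos (by omega) hs
    have h2 : M * ((i + 1) * s) ≤ n :=
      le_trans (Nat.mul_le_mul_left _ (Nat.mul_le_mul_right _ hi1)) hn
    have h0 : ∀ Q : Finset ℕ, (cnt (cfg D Q) (i * s) ((i + 1) * s) n : ℝ) =
        ∑ K ∈ F i, (cntK (cfg D Q) (i * s) ((i + 1) * s) K n : ℝ) := by
      intro Q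
      rw [cnt_eq_cntGe _ h2, cntGe_eq_sum _ hlo le_rfl]
      push_cast
      rfl
    simp only [h0]
    rw [Ex_sum]
    refine sum_le_sum fun K hK => ?_
    obtain ⟨-, a1, a2, a3⟩ := mem_filter.1 hK
    exact h i hi K a1 a2 a3
  have hlt : ∀ i j, i < j → Disjoint (F i) (F j) := by
    intro i j hij
    rw [disjoint_left]
    intro K hK hK'
    obtain ⟨-, -, -, a3⟩ := mem_filter.1 hK
    obtain ⟨-, -, b2, -⟩ := mem_filter.1 hK'
    have : K * ((i + 1) * s) ≤ K * (j * s) :=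
      Nat.mul_le_mul_left _ (Nat.mul_le_mul_right _ hij)
    omega
  have hdis : Set.PairwiseDisjoint (↑(Ico L i1) : Set ℕ) F := by
    intro i _ j _ hij
    rcases lt_or_gt_of_ne hij with h3 | h3
    · exact hlt i j h3
    · exact (hlt j i h3).symm
  unfold lam
  refine le_trans (sum_le_sum h1) ?_
  rw [← sum_biUnion hdis]
  refine sum_le_sum_of_subset_of_nonneg ?_ fun K hK _ => hu K hK
  intro K hK
  obtain ⟨i, hi, hK⟩ := mem_biUnion.1 hK
  obtain ⟨-, a1, a2, -⟩ := mem_filter.1 hK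
  refine mem_Ioc.2 ⟨a1, ?_⟩
  rw [Nat.le_div_iff_mul_le (Nat.mul_pos hL hs)]
  exact le_trans (Nat.mul_le_mul_left _ (Nat.mul_le_mul_right _ (mem_Ico.1 hi).1)) (a2.trans hx)

end Pool.Agent.Work.MP_9a1701_nt.P
end

-- merged part: Pool.Agent.Work.MP_9a1701_nt.V.W3
section
/-!
# Estimates without the lower bound for the intensity
-/

set_option autoImplicit false
open Finset Filter

namespace Pool.Agent.Work.MP_9a1701_nt.P

/-- Regularity of the intensity of the sparse random part. -/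
structure Noise0 (ρ : ℕ → ℝ) (n₁ : ℕ) : Prop where
  prob : Prob ρ
  anti : ∀ u v : ℕ, n₁ ≤ u → u ≤ v → ρ v ≤ ρ u
  mono : ∀ u v : ℕ, n₁ ≤ u → u ≤ v → u * ρ u ≤ v * ρ v
  small : Tendsto (fun n : ℕ => ρ n * Real.log n) atTop (nhds 0)

variable {ρ : ℕ → ℝ} {n₁ : ℕ}

theorem short_pntW (hN : Noise0 ρ n₁) {ε : ℝ} (hε : 0 < ε) (a : ℕ) :
    ∀ᶠ z : ℕ in atTop, ∀ B : ℕ, (z : ℝ) / Real.log z ^ a ≤ B → B ≤ z →
      ∑ t ∈ Ico z (z + B), pit PP ρ t ≤ (1 + ε) * B / Real.log (2 * z) := by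
  have hη : 0 < ε / 2 := half_pos hε
  obtain ⟨n0, hn0⟩ := eventually_atTop.1 (hN.small.eventually_le_const hη)
  have h2 := (tendsto_id.const_mul_atTop' (two_pos : 0 < 2)).eventually
    (Pool.Agent.Lib.ANT.pnt_error (a + 1))
  filter_upwards [h2, Primes_log.eventually_ge_atTop ((18 + ε) / ε), eventually_ge_atTop n0,
    eventually_ge_atTop 1] with z hz hl hz0 hz1 B hB1 hB2
  simp only [id] at hz
  have z0 : (0 : ℝ) < z := by exact_mod_cast hz1
  have hl' : 18 + ε ≤ Real.log z * ε := (div_le_iff₀ hε).1 hl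
  have l1 : 1 ≤ Real.log z := le_of_mul_le_mul_right (by linarith) hε
  have l0 : 0 < Real.log z := by linarith
  have e2 : Real.log (2 * z) = Real.log 2 + Real.log z := Real.log_mul two_ne_zero z0.ne'
  have g0 := Real.log_two_gt_d9
  have g1 := Real.log_two_lt_d9
  have B0 : (0 : ℝ) ≤ B := Nat.cast_nonneg _
  have k1 : Real.log z * ∑ t ∈ Ico z (z + B), pit PP ρ t ≤
      ∑ t ∈ Ico z (z + B), ArithmeticFunction.vonMangoldt t + B * (ε / 2) := by
    have e : (B : ℝ) * (ε / 2) = ∑ _t ∈ Ico z (z + B), ε / 2 := by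
      rw [sum_const, Nat.card_Ico, Nat.add_sub_cancel_left, nsmul_eq_mul]
    rw [e, ← sum_add_distrib, mul_sum]
    refine sum_le_sum fun t ht => ?_
    have ht1 := (mem_Ico.1 ht).1
    have hlog : Real.log z ≤ Real.log t := Real.log_le_log z0 (Nat.cast_le.2 ht1)
    have r1 := hn0 t (hz0.trans ht1)
    have r2 := mul_le_mul_of_nonneg_left hlog (hN.prob t).1
    have r3 := mul_le_mul_of_nonneg_left (Primes_pit hN.prob t).2 l0.le
    have r4 : Real.log z * ind t.Prime ≤ ArithmeticFunction.vonMangoldt t := by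
      by_cases h : t.Prime
      · rw [ind_pos h, mul_one, ArithmeticFunction.vonMangoldt_apply_prime h]
        exact hlog
      · rw [ind_neg h, mul_zero]
        exact ArithmeticFunction.vonMangoldt_nonneg
    rw [mul_add] at r3
    linarith
  have k2 : ((2 * z : ℕ) : ℝ) / Real.log ((2 * z : ℕ) : ℝ) ^ (a + 1) ≤ 2 * B / Real.log z := by
    rw [Nat.cast_mul, Nat.cast_ofNat, e2]
    have a1 : Real.log z ^ (a + 1) ≤ (Real.log 2 + Real.log z) ^ (a + 1) :=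
      pow_le_pow_left₀ l0.le (by linarith) _
    refine (div_le_div_of_nonneg_left (by positivity) (by positivity) a1).trans ?_
    rw [pow_succ, ← div_div, mul_div_assoc]
    exact div_le_div_of_nonneg_right (by linarith) l0.le
  have k3 : ∑ t ∈ Ico z (z + B), ArithmeticFunction.vonMangoldt t ≤ B + 4 * B / Real.log z := by
    have a1 := (abs_le.1 (hz (z + B - 1) (by omega))).2
    have a2 := (abs_le.1 (hz (z - 1) (by omega))).1
    have a3 : ((z + B - 1 : ℕ) : ℝ) = ((z - 1 : ℕ) : ℝ) + B := by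
      rw [← Nat.cast_add]
      exact congrArg _ (by omega)
    have a4 : 4 * (B : ℝ) / Real.log z = 2 * B / Real.log z + 2 * B / Real.log z := by ring
    rw [Primes_psi hz1]
    linarith
  have k4 : 4 * (B : ℝ) / Real.log z * (Real.log z + 1) ≤ 8 * B := by
    rw [div_mul_eq_mul_div, div_le_iff₀ l0]
    nlinarith [mul_le_mul_of_nonneg_left l1 B0]
  have k5 : 0 ≤ ∑ t ∈ Ico z (z + B), pit PP ρ t :=
    sum_nonneg fun t _ => (ind_nonneg _).trans (Primes_pit hN.prob t).1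
  generalize ∑ t ∈ Ico z (z + B), pit PP ρ t = S at k1 k5 ⊢
  rw [e2, le_div_iff₀ (by linarith)]
  refine le_of_mul_le_mul_left ?_ l0
  have k6 : Real.log z * S ≤ B + 4 * B / Real.log z + B * (ε / 2) := by linarith
  have k7 := mul_le_mul_of_nonneg_right k6 (show 0 ≤ Real.log z + 1 by linarith)
  have k8 : Real.log z * (S * (Real.log 2 + Real.log z)) ≤ Real.log z * S * (Real.log z + 1) := by
    rw [← mul_assoc]
    exact mul_le_mul_of_nonneg_left (by linarith) (mul_nonneg l0.le k5)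
  have k9 := mul_le_mul_of_nonneg_left hl' B0
  rw [add_mul, add_mul] at k7
  linarith

theorem hmertBW (hN : Noise0 ρ n₁) : HMert PP ρ 1 := by
  intro ε hε
  have hη : 0 < ε / 2 := half_pos hε
  obtain ⟨z0, h0⟩ := sum_rho_div le_rfl hN.small hη
  obtain ⟨z1, h1⟩ := eventually_atTop.1 (Primes_log.eventually_ge_atTop (98 / ε))
  refine ⟨max 2 (max z0 z1), fun u v hu huv => ?_⟩
  have u2 : 2 ≤ u := (le_max_left _ _).trans hu
  have u0 : (0 : ℝ) < u := by exact_mod_cast (by omega : 0 < u)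
  have uv : (u : ℝ) ≤ v := Nat.cast_le.2 huv
  have a0 := (abs_le.1 (h0 u v ((le_max_left _ _).trans ((le_max_right _ _).trans hu)) huv)).2
  have a1 := h1 u ((le_max_right _ _).trans ((le_max_right _ _).trans hu))
  have l0 : 0 < Real.log u := lt_of_lt_of_le (by positivity) a1
  have a2 := abs_le.1 (Pool.Agent.Lib.ANT.abs_sum_inv_prime_Ioc_sub_le u v u2 huv)
  have a3 := ll_mono u2 huv
  have e1 : ∑ p ∈ (Ioc u v).filter Nat.Prime, (p : ℝ)⁻¹ = ∑ t ∈ Ioc u v, ind t.Prime / t := by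
    rw [sum_filter]
    refine sum_congr rfl fun t _ => ?_
    by_cases h : t.Prime
    · rw [if_pos h, ind_pos h, one_div]
    · rw [if_neg h, ind_neg h, zero_div]
  have e2 := (sum_Ico_add_eq_sum_Icc (f := fun t : ℕ => ind t.Prime / (t : ℝ)) huv).trans
    (add_sum_Ioc_eq_sum_Icc (f := fun t : ℕ => ind t.Prime / (t : ℝ)) huv).symm
  have b0 : (1 : ℝ) / u ≤ 1 / Real.log u :=
    div_le_div_of_nonneg_left zero_le_one l0 ((Real.log_le_sub_one_of_pos u0).trans (by linarith))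
  have b1 : ind u.Prime / (u : ℝ) ≤ 1 / u := div_le_div_of_nonneg_right (ind_le_one _) u0.le
  have b2 : 0 ≤ ind u.Prime / (u : ℝ) := div_nonneg (ind_nonneg _) u0.le
  have b3 : ind v.Prime / (v : ℝ) ≤ 1 / u := div_le_div₀ zero_le_one (ind_le_one _) u0 uv
  have b4 : 0 ≤ ind v.Prime / (v : ℝ) := div_nonneg (ind_nonneg _) (u0.le.trans uv)
  have b5 : 48 / Real.log u + 1 / Real.log u ≤ ε / 2 := by
    rw [← add_div, div_le_iff₀ l0]
    rw [div_le_iff₀ hε] at a1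
    linarith
  have c1 : ∑ t ∈ Ico u v, ind t.Prime / (t : ℝ) ≤ ∑ t ∈ Ico u v, pit PP ρ t / t :=
    sum_le_sum fun t _ => div_le_div_of_nonneg_right (Primes_pit hN.prob t).1 (Nat.cast_nonneg _)
  have c2 : ∑ t ∈ Ico u v, pit PP ρ t / t ≤
      ∑ t ∈ Ico u v, ind t.Prime / (t : ℝ) + ∑ t ∈ Ico u v, ρ t / t := by
    rw [← sum_add_distrib]
    refine sum_le_sum fun t _ => ?_
    rw [← add_div]
    exact div_le_div_of_nonneg_right (Primes_pit hN.prob t).2 (Nat.cast_nonneg _)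
  have c3 := mul_nonneg hε.le (sub_nonneg.2 a3)
  rw [e1] at a2
  unfold ll at a0 a3 c3 ⊢
  rw [abs_le]
  constructor <;> linarith [a2.1, a2.2]

theorem hsparseBW (hN : Noise0 ρ n₁) : HSparse PP ρ := by
  intro ε hε
  have hη : 0 < ε / 2 := half_pos hε
  have h1 := (Pool.Agent.Lib.ANT.tendsto_primeCounting_mul_log_div.comp
    tendsto_natCast_atTop_atTop).eventually_le_const one_lt_two
  filter_upwards [h1, sum_rho_le hN.prob hN.small hη, Primes_log.eventually_ge_atTop (4 / ε),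
    eventually_ge_atTop 1] with z a1 a2 a3 a4
  have z0 : (0 : ℝ) < z := by exact_mod_cast a4
  simp only [Function.comp_apply, Nat.floor_natCast] at a1
  rw [div_le_iff₀ z0] at a1
  rw [div_le_iff₀ hε] at a3
  have b1 : ∑ t ∈ Ico 1 z, ind t.Prime ≤ (Nat.primeCounting z : ℝ) := by
    have e : (Nat.primeCounting z : ℝ) = ∑ t ∈ range (z + 1), ind t.Prime := by
      rw [Nat.primeCounting, Nat.primeCounting', Nat.count_eq_card_filter_range, card_filter,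
        Nat.cast_sum]
      refine sum_congr rfl fun t _ => ?_
      by_cases h : t.Prime
      · rw [if_pos h, ind_pos h, Nat.cast_one]
      · rw [if_neg h, ind_neg h, Nat.cast_zero]
    rw [e]
    refine sum_le_sum_of_subset_of_nonneg (fun t ht => ?_) fun t _ _ => ind_nonneg _
    have := (mem_Ico.1 ht).2
    exact mem_range.2 (by omega)
  have b2 : (Nat.primeCounting z : ℝ) ≤ ε / 2 * z := by
    have c1 := mul_le_mul_of_nonneg_left a3 (Nat.cast_nonneg (α := ℝ) (Nat.primeCounting z))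
    have c2 := mul_le_mul_of_nonneg_right a1 hε.le
    rw [← mul_assoc] at c1
    linarith
  have b3 : ∑ t ∈ Ico 1 z, pit PP ρ t ≤ ∑ t ∈ Ico 1 z, ind t.Prime + ∑ t ∈ Ico 1 z, ρ t := by
    rw [← sum_add_distrib]
    exact sum_le_sum fun t _ => (Primes_pit hN.prob t).2
  linarith

lemma Range3_sumW (hN : Noise0 ρ n₁) (x : ℕ) {K : ℕ} (hK : 1 ≤ K) (z B : ℕ) :
    ∑ m ∈ Ico z (z + B), Ex ρ (Icc 1 x) (fun Q => gg (cfg PP Q) K m) ≤
      ∑ t ∈ Ico z (z + B), pit PP ρ t + K := by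
  rw [← Ex_sum]
  calc Ex ρ (Icc 1 x) (fun Q => ∑ m ∈ Ico z (z + B), gg (cfg PP Q) K m)
      ≤ Ex ρ (Icc 1 x) (fun Q => ∑ t ∈ Ico z (z + B), ind (t ∈ cfg PP Q) + K) :=
        Ex_mono hN.prob fun Q _ => gg_sum (cfg_infinite PP_infinite Q) hK z B
    _ = ∑ t ∈ Ico z (z + B), Ex ρ (Icc 1 x) (fun Q => ind (t ∈ cfg PP Q)) + K := by
        rw [Ex_add, Ex_const, Ex_sum]
    _ ≤ _ := by
        gcongr with t ht
        exact Ex_mem_cfg_le hN.prob PP t

theorem gbar_leW (hN : Noise0 ρ n₁) {δ η ε : ℝ} (h0 : 0 < δ) (h1 : δ ≤ 1 / 10) (hη : 0 < η)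
    (hε : 0 < ε) :
    ∀ᶠ x : ℕ in atTop, ∀ K0 K1 l H N B m : ℕ, 1 ≤ K0 → K0 ≤ K1 → Lp δ x ≤ 2 * K1 →
      K1 * (Lp δ x * sp x) ≤ 2 * x → l = ⌈Real.log x⌉₊ → H = K1 * l ^ 3 →
      N = (x + H) / K1 + 1 → B = N / l ^ 9 + 1 → η * x ≤ 2 * K1 * m → m ≤ N →
      gbar (fun m' => Ex ρ (Icc 1 x) fun Q => gg (cfg PP Q) K0 m') B m ≤
        (1 + ε) / Real.log m := by
  obtain ⟨z0, hz0⟩ := eventually_atTop.1 (short_pntW hN (half_pos hε) 10)
  filter_upwards [log_pow_le_Lp h0 10 (C := 8 / ε) (by positivity),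
    log_pow_le_Lp h0 0 (C := 8 / η) (by positivity), log_pow_le_Lp h0 3 (C := 4) (by norm_num),
    Range3_log_ge (8 / η), Range3_log_ge (2 ^ 19), eventually_ge_atTop (z0 ^ 2),
    eventually_ge_atTop 4] with x ha hb hc hd he hf hx4
  intro K0 K1 l H N B m hK0 hK01 hL hK hl hH hNd hB hm hmN
  have hK1 : 1 ≤ K1 := hK0.trans hK01
  have hK1' : (1 : ℝ) ≤ K1 := by exact_mod_cast hK1
  have hx' : (4 : ℝ) ≤ x := by exact_mod_cast hx4
  set lg : ℝ := Real.log x with hlg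
  have hlg1 : (1 : ℝ) ≤ lg := le_trans (by norm_num) he
  have hl1 : lg ≤ l := by rw [hl]; exact Nat.le_ceil _
  have hl2 : (l : ℝ) ≤ lg + 1 := by rw [hl]; exact (Nat.ceil_lt_add_one (by linarith)).le
  have hl0 : 1 ≤ l := by exact_mod_cast hlg1.trans hl1
  have hl0' : (1 : ℝ) ≤ l := hlg1.trans hl1
  obtain ⟨n1, n2, b1, b2⟩ := Range3_NB hK1 hl0 hH hNd hB
  set L : ℝ := (Lp δ x : ℝ) with hLd
  set s : ℝ := (sp x : ℝ) with hsd
  set y : ℝ := (x : ℝ) / K1 with hy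
  have hs1 : (1 : ℝ) ≤ s := by
    rw [hsd]; exact_mod_cast (Nat.le_add_left 1 _ : 1 ≤ Nat.sqrt x + 1)
  have hsq : √(x : ℝ) ≤ s := sqrt_le_sp x
  have hxs : (x : ℝ) ≤ s ^ 2 := by rw [hsd]; exact_mod_cast le_sp_sq x
  have hKr : (K1 : ℝ) * (L * s) ≤ 2 * x := by rw [hLd, hsd]; exact_mod_cast hK
  have hp3 : (1 : ℝ) ≤ (lg + 1) ^ 3 := one_le_pow₀ (by linarith)
  have hL4 : (4 : ℝ) ≤ L := by linarith
  have hy1 : L * s / 2 ≤ y := by
    rw [hy, le_div_iff₀ (by linarith)]; linarith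
  have hy2 : y ≤ x := by rw [hy]; exact div_le_self (by linarith) hK1'
  have hLs : L ≤ L * s := le_mul_of_one_le_right (by linarith) hs1
  have hl3 : (l : ℝ) ^ 3 ≤ (lg + 1) ^ 3 := by gcongr
  have hN2 : (N : ℝ) ≤ 2 * y := by linarith
  have hηL : 8 ≤ η * L := by
    have : 8 / η ≤ L := by simpa using hb
    rwa [div_le_iff₀' hη] at this
  have hm1 : η * y ≤ 2 * m := by
    rw [hy, ← mul_div_assoc, div_le_iff₀ (by linarith)]; linarith
  have hl9 : (l : ℝ) ≤ (l : ℝ) ^ 9 := le_self_pow₀ hl0' (by norm_num)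
  have hl9' : (0 : ℝ) < (l : ℝ) ^ 9 := by positivity
  have hηl : 8 ≤ η * (l : ℝ) ^ 9 := by
    have : 8 / η ≤ (l : ℝ) ^ 9 := hd.trans (hl1.trans hl9)
    rwa [div_le_iff₀' hη] at this
  have hηy : 4 * s ≤ η * y := by
    have h3 : η * (L * s / 2) ≤ η * y := mul_le_mul_of_nonneg_left hy1 hη.le
    have h4 : 8 * s ≤ η * L * s := mul_le_mul_of_nonneg_right hηL (by linarith)
    linarith
  have hBm : B ≤ m := by
    have h3 : (N : ℝ) / l ^ 9 ≤ η * y / 4 := by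
      rw [div_le_iff₀ hl9']
      have h4 : 0 ≤ y := by linarith
      have h5 : 8 * y ≤ η * (l : ℝ) ^ 9 * y := mul_le_mul_of_nonneg_right hηl h4
      linarith
    have : (B : ℝ) ≤ m := by linarith
    exact_mod_cast this
  have hB1 : 1 ≤ B := by rw [hB]; exact Nat.le_add_left 1 _
  have hB1' : (0 : ℝ) < B := by exact_mod_cast hB1
  set z : ℕ := B * (m / B) with hz
  have hzB : B ≤ z := by
    have : 1 ≤ m / B := (Nat.one_le_div_iff hB1).2 hBm
    exact Nat.le_mul_of_pos_right B this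
  have hzm : z ≤ m := Nat.mul_div_le m B
  have hz2 : m ≤ 2 * z := by
    have h := Nat.lt_mul_div_succ m hB1
    rw [mul_add, mul_one, ← hz] at h
    omega
  have hz2' : (m : ℝ) ≤ 2 * z := by exact_mod_cast hz2
  have hzs : √(x : ℝ) ≤ z := by linarith
  have hsx : (2 : ℝ) ≤ √(x : ℝ) := by
    rw [show (2 : ℝ) = √4 by rw [show (4 : ℝ) = 2 ^ 2 by norm_num, Real.sqrt_sq (by norm_num)]]
    exact Real.sqrt_le_sqrt hx'
  have hzz : z0 ≤ z := by
    have h3 : (z0 : ℝ) ≤ √(x : ℝ) := by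
      apply Real.le_sqrt_of_sq_le
      exact_mod_cast hf
    exact_mod_cast h3.trans hzs
  have hlz : lg / 2 ≤ Real.log z := by
    rw [hlg, ← Real.log_sqrt (by linarith)]
    exact Real.log_le_log (by linarith) hzs
  have hzlog : (z : ℝ) / Real.log z ^ 10 ≤ B := by
    refine le_trans ?_ b1
    have h3 : (l : ℝ) ^ 9 ≤ Real.log z ^ 10 := by
      calc (l : ℝ) ^ 9 ≤ (2 * lg) ^ 9 := by gcongr; linarith
        _ = lg ^ 9 * 2 ^ 19 / 2 ^ 10 := by ring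
        _ ≤ lg ^ 9 * lg / 2 ^ 10 := by gcongr
        _ = (lg / 2) ^ 10 := by ring
        _ ≤ _ := by gcongr
    have h4 : (z : ℝ) ≤ N := by exact_mod_cast hzm.trans hmN
    gcongr
  have hp := hz0 z hzz B hzlog hzB
  have hm2 : (2 : ℝ) ≤ m := by linarith
  have hlm : 0 < Real.log m := Real.log_pos (by linarith)
  have hlm2 : Real.log m ≤ lg + 1 := by
    have h3 : (m : ℝ) ≤ 2 * x := by
      have : (m : ℝ) ≤ N := by exact_mod_cast hmN
      linarith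
    have h4 : Real.log 2 ≤ 1 := by have := Real.log_two_lt_d9; linarith
    calc Real.log m ≤ Real.log (2 * x) := Real.log_le_log (by linarith) h3
      _ = Real.log 2 + lg := by rw [Real.log_mul (by norm_num) (by linarith)]
      _ ≤ _ := by linarith
  have hp2 : (1 + ε / 2) * B / Real.log (2 * z) ≤ (1 + ε / 2) * B / Real.log m := by
    gcongr
  have hK2 : (K0 : ℝ) ≤ ε / 2 * B / Real.log m := by
    rw [le_div_iff₀ hlm]
    have h3 : (K0 : ℝ) ≤ 2 * s := by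
      have h4 : (K0 : ℝ) ≤ K1 := by exact_mod_cast hK01
      have h5 : (K1 : ℝ) * s ≤ 2 * s * s := by
        have h6 : (K1 : ℝ) * s * 1 ≤ K1 * s * L :=
          mul_le_mul_of_nonneg_left (by linarith) (by positivity)
        linarith
      have := le_of_mul_le_mul_right h5 (by linarith)
      linarith
    have h4 : L * s / 2 / (lg + 1) ^ 9 ≤ B := by
      refine le_trans ?_ b1
      gcongr
      linarith
    have h5 : 8 * (lg + 1) ^ 10 ≤ ε * L := by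
      have := mul_le_mul_of_nonneg_left ha hε.le
      calc 8 * (lg + 1) ^ 10 = ε * (8 / ε * (lg + 1) ^ 10) := by field_simp
        _ ≤ _ := this
    have h6 : 2 * s * (lg + 1) ≤ ε / 2 * (L * s / 2 / (lg + 1) ^ 9) := by
      rw [← mul_div_assoc, le_div_iff₀ (by positivity)]
      calc 2 * s * (lg + 1) * (lg + 1) ^ 9 = s / 4 * (8 * (lg + 1) ^ 10) := by ring
        _ ≤ s / 4 * (ε * L) := by gcongr
        _ = _ := by ring
    calc (K0 : ℝ) * Real.log m ≤ 2 * s * (lg + 1) := by gcongr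
      _ ≤ _ := h6
      _ ≤ ε / 2 * B := by gcongr
  have hsum := Range3_sumW hN x hK0 z B
  unfold gbar
  rw [← hz, div_le_iff₀ hB1']
  calc _ ≤ _ := hsum
    _ ≤ (1 + ε / 2) * B / Real.log m + ε / 2 * B / Real.log m := by linarith
    _ = _ := by ring
theorem range_finalW (hN : Noise0 ρ n₁) {δ η ε : ℝ} (h0 : 0 < δ) (h1 : δ ≤ 1 / 10) (hη : 0 < η)
    (hη1 : η ≤ 1) (hε : 0 < ε) {R : ℕ} (hR : 2 ≤ R) :
    ∀ᶠ x : ℕ in atTop, ∀ q ∈ Ico R (2 * R), ∀ w : ℕ, Lp δ x ≤ 2 * R * w →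
      q * w * (Lp δ x * sp x) ≤ 2 * x → ∃ err : ℕ → ℝ, (∀ n, 0 ≤ err n) ∧
        ∑ n ∈ Ioc ⌊η * x⌋₊ x, err n ≤ x / (Real.log x + 1) ^ 2 ∧
        ∀ n ∈ Ioc ⌊η * x⌋₊ x,
          ∑ K ∈ Ioc (q * w) ((q + 1) * w), Ex ρ (Icc 1 x) (fun Q => Phi (cfg PP Q) K n) ≤
            (1 + ε) * (1 + 4 / (R : ℝ)) *
              ∑ K ∈ Ioc (q * w) ((q + 1) * w), 1 / (K * Real.log ((n : ℝ) / K)) + err n := by
  have hR' : (2 : ℝ) ≤ R := by exact_mod_cast hR
  filter_upwards [gbar_leW hN h0 h1 hη (half_pos hε),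
    osc h0 h1 hη (show (0 : ℝ) < 1 / 6 by norm_num),
    log_pow_le_Lp h0 3 (C := 8 * R) (by positivity),
    log_pow_le_Lp h0 0 (C := 4 / η) (by positivity),
    Range3_log_ge ((8 + 6 * ε) / ε), Range3_log_ge 4] with x hg ho ha hb hc hd
  intro q hq w hw hx
  obtain ⟨hq1, -⟩ := mem_Ico.1 hq
  have hq2 : 2 ≤ q := hR.trans hq1
  set l : ℕ := ⌈Real.log x⌉₊ with hl
  have hl1 : Real.log x ≤ l := Nat.le_ceil _
  have hl2 : (l : ℝ) ≤ Real.log x + 1 := (Nat.ceil_lt_add_one (by linarith)).le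
  have hl4 : (4 : ℝ) ≤ l := hd.trans hl1
  have hl3 : (l : ℝ) ≤ (l : ℝ) ^ 3 := le_self_pow₀ (by linarith) (by norm_num)
  have hl3n : 4 ≤ l ^ 3 := by
    have : (4 : ℝ) ≤ (l : ℝ) ^ 3 := hl4.trans hl3
    exact_mod_cast this
  have hw2 : 2 * (l ^ 3 + 1) ≤ w := by
    have h3 : (l : ℝ) ^ 3 ≤ (Real.log x + 1) ^ 3 := by gcongr
    have h4 : (Lp δ x : ℝ) ≤ 2 * R * w := by exact_mod_cast hw
    have h5 : (2 * R : ℝ) * (4 * (l : ℝ) ^ 3) ≤ 2 * R * w := by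
      calc (2 * R : ℝ) * (4 * (l : ℝ) ^ 3) = 8 * R * (l : ℝ) ^ 3 := by ring
        _ ≤ 8 * R * (Real.log x + 1) ^ 3 := by gcongr
        _ ≤ _ := ha.trans h4
    have h6 : 4 * (l : ℝ) ^ 3 ≤ w := le_of_mul_le_mul_left h5 (by linarith)
    have h7 : 4 * l ^ 3 ≤ w := by exact_mod_cast h6
    omega
  have hw1 : 1 ≤ w := by omega
  obtain ⟨p, rfl⟩ : ∃ p, q = p + 1 := ⟨q - 1, by omega⟩
  have hp1 : 1 ≤ p := by omega
  set K0 : ℕ := p * w with hK0d
  set K1 : ℕ := (p + 1) * w with hK1d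
  set K2 : ℕ := (p + 1 + 1) * w with hK2d
  have hK0 : 1 ≤ K0 := Nat.mul_pos hp1 hw1
  have e1 : K1 = K0 + w := by rw [hK1d, hK0d]; ring
  have e2 : K2 = K0 + 2 * w := by rw [hK2d, hK0d]; ring
  have hK1 : 1 ≤ K1 := by omega
  have hL : Lp δ x ≤ 2 * K1 := by
    refine hw.trans ?_
    rw [hK1d, mul_assoc]
    gcongr
  set H : ℕ := K1 * l ^ 3 with hH
  set N : ℕ := (x + H) / K1 + 1 with hNd
  set B : ℕ := N / l ^ 9 + 1 with hB
  set g : ℕ → ℝ := fun m' => Ex ρ (Icc 1 x) fun Q => gg (cfg PP Q) K0 m' with hgd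
  have hg0 : ∀ m, 0 ≤ g m := fun m =>
    Ex_nonneg hN.prob fun Q _ => gg_nonneg (cfg_infinite PP_infinite Q) hK0 m
  have hg1 : ∀ m, g m ≤ 1 := fun m =>
    Ex_le_const hN.prob fun Q _ => gg_le_one (cfg_infinite PP_infinite Q) hK0 m
  have hH4 : K1 * 4 ≤ H := Nat.mul_le_mul_left _ hl3n
  have hH2 : K2 < H := by omega
  have hxN : x + H ≤ K1 * N := by
    have h := Nat.lt_mul_div_succ (x + H) hK1
    exact h.le
  have hosc := ho K1 K2 l H N B hL hx (by omega) (by omega) rfl rfl rfl rfl g hg0 hg1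
  set c : ℝ := (K2 : ℝ) / (K0 * ((H : ℝ) - K2)) with hcd
  have hc0 : 0 ≤ c := by
    have : (K2 : ℝ) < H := by exact_mod_cast hH2
    exact div_nonneg (Nat.cast_nonneg _) (mul_nonneg (Nat.cast_nonneg _) (by linarith))
  have hcc : c * ((H : ℝ) + K2) * (1 + ε / 2) ≤ (1 + ε) * (1 + 4 / (R : ℝ)) ∧ c * H ≤ 6 := by
    have h3 : 8 + 6 * ε ≤ ε * (l : ℝ) ^ 3 := by
      have : (8 + 6 * ε) / ε ≤ (l : ℝ) ^ 3 := hc.trans (hl1.trans hl3)
      rwa [div_le_iff₀' hε] at this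
    have h := Range3_const (q := (p : ℝ) + 1) (w := w) (u := (l : ℝ) ^ 3) hε hR'
      (by exact_mod_cast hq1) (by exact_mod_cast hw1) (hl4.trans hl3) h3
    have f0 : (K0 : ℝ) = ((p : ℝ) + 1 - 1) * w := by rw [hK0d]; push_cast; ring
    have f2 : (K2 : ℝ) = ((p : ℝ) + 1 + 1) * w := by rw [hK2d]; push_cast; ring
    have fH : (H : ℝ) = ((p : ℝ) + 1) * w * (l : ℝ) ^ 3 := by rw [hH, hK1d]; push_cast; ring
    rw [hcd, f0, f2, fH]
    exact h
  refine ⟨fun n => c * |∑ K ∈ Ioc K1 K2,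
    ∑ m ∈ (Icc 1 N).filter (fun m => n < K * m ∧ K * m ≤ n + H), (g m - gbar g B m)|,
    fun n => mul_nonneg hc0 (abs_nonneg _), ?_, ?_⟩
  · rw [← mul_sum]
    calc _ ≤ c * (1 / 6 * H * x / (Real.log x + 1) ^ 2) := mul_le_mul_of_nonneg_left hosc hc0
      _ = c * H / 6 * (x / (Real.log x + 1) ^ 2) := by ring
      _ ≤ 1 * (x / (Real.log x + 1) ^ 2) :=
        mul_le_mul_of_nonneg_right (by linarith [hcc.2]) (by positivity)
      _ = _ := one_mul _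
  intro n hn
  obtain ⟨hn1, hn2⟩ := mem_Ioc.1 hn
  have hn3 : η * x < n := (Nat.floor_lt (by positivity)).1 hn1
  have hKn : 2 * K1 < n := by
    have h3 : 4 ≤ η * Lp δ x := by
      have : 4 / η ≤ Lp δ x := by simpa using hb
      rwa [div_le_iff₀' hη] at this
    have h4 : (K1 : ℝ) * Lp δ x ≤ 2 * x := by
      have h5 : K1 * Lp δ x ≤ 2 * x := by
        refine le_trans (Nat.mul_le_mul_left _ (Nat.le_mul_of_pos_right _ ?_)) hx
        exact Nat.succ_pos _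
      exact_mod_cast h5
    have h5 : (K1 : ℝ) * 4 ≤ K1 * (η * Lp δ x) := by gcongr
    have h6 : η * (K1 * Lp δ x) ≤ η * (2 * x) := by gcongr
    have : (2 * K1 : ℝ) < n := by linarith
    exact_mod_cast this
  have hlog : ∀ K ∈ Ioc K1 K2, (1 : ℝ) < (n : ℝ) / K := by
    intro K hK
    obtain ⟨k1, k2⟩ := mem_Ioc.1 hK
    have k0 : (0 : ℝ) < K := by exact_mod_cast (by omega : 0 < K)
    rw [one_lt_div k0]
    exact_mod_cast (by omega : K < n)
  have key := range_det hK0 hK1 hH2 (le_trans (by omega) hxN : n + H ≤ K1 * N)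
    (fun K => Ex ρ (Icc 1 x) (fun Q => Phi (cfg PP Q) K n)) g (gbar g B)
    (fun K => (1 + ε / 2) / Real.log ((n : ℝ) / K))
    (fun K hK => Ex_nonneg hN.prob fun Q _ =>
      Phi_nonneg (cfg_infinite PP_infinite Q) (by have := (mem_Ioc.1 hK).1; omega) n)
    (fun K hK => div_nonneg (by linarith) (Real.log_pos (hlog K hK)).le)
    (by
      intro K hK m m1 m2
      obtain ⟨k1, k2⟩ := mem_Ioc.1 hK
      obtain ⟨k, rfl⟩ : ∃ k, K = K0 + k := ⟨K - K0, by omega⟩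
      rw [← Ex_const_mul]
      refine Ex_mono hN.prob fun Q _ =>
        gg_ge (cfg_infinite PP_infinite Q) (h := l ^ 3 + 1) hK0 (by omega) m1.le ?_
      have : H ≤ l ^ 3 * (K0 + k) := by
        rw [hH, mul_comm]; exact Nat.mul_le_mul_left _ k1.le
      rw [mul_add _ m, mul_one, add_mul (l ^ 3), one_mul]
      omega)
    (by
      intro K hK m m1 m2
      obtain ⟨k1, k2⟩ := mem_Ioc.1 hK
      have k0 : (0 : ℝ) < K := by exact_mod_cast (by omega : 0 < K)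
      have m3 : n < 2 * K1 * m := m1.trans_le (Nat.mul_le_mul_right _ (by omega))
      have m4 : m ≤ N := by
        have : K1 * m ≤ K1 * N :=
          (Nat.mul_le_mul_right _ k1.le).trans (m2.trans (le_trans (by omega) hxN))
        exact Nat.le_of_mul_le_mul_left this hK1
      have m5 : η * x ≤ 2 * K1 * m := hn3.le.trans (by exact_mod_cast m3.le)
      refine (hg K0 K1 l H N B m hK0 (by omega) hL hx rfl rfl rfl rfl m5 m4).trans ?_
      have m6 : (n : ℝ) / K ≤ m := by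
        rw [div_le_iff₀' k0]; exact_mod_cast m1.le
      have m7 := hlog K hK
      exact div_le_div_of_nonneg_left (by linarith) (Real.log_pos m7)
        (Real.log_le_log (by linarith) m6))
  refine key.trans ?_
  rw [← hcd, mul_add]
  refine add_le_add ?_ le_rfl
  have hS : ∑ K ∈ Ioc K1 K2, (1 + ε / 2) / Real.log ((n : ℝ) / K) / K =
      (1 + ε / 2) * ∑ K ∈ Ioc K1 K2, 1 / (K * Real.log ((n : ℝ) / K)) := by
    rw [mul_sum]
    refine sum_congr rfl fun K _ => ?_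
    rw [div_div, mul_one_div, mul_comm (K : ℝ)]
  have hS0 : 0 ≤ ∑ K ∈ Ioc K1 K2, 1 / (K * Real.log ((n : ℝ) / K)) :=
    sum_nonneg fun K hK =>
      div_nonneg zero_le_one (mul_nonneg (Nat.cast_nonneg _) (Real.log_pos (hlog K hK)).le)
  rw [hS]
  calc _ = c * ((H : ℝ) + K2) * (1 + ε / 2) *
        ∑ K ∈ Ioc K1 K2, 1 / (K * Real.log ((n : ℝ) / K)) := by ring
    _ ≤ _ := mul_le_mul_of_nonneg_right hcc.1 hS0


end Pool.Agent.Work.MP_9a1701_nt.P
end
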