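import Pool.Agent.Work.MP_9a1701_nt.P.An

/-!
# Parameters for cells that end at `x ^ v`
-/

set_option autoImplicit false
open Finset Filter

namespace Pool.Agent.Work.MP_9a1701_nt.P

theorem sum_UW {x n K1 K2 : ℕ} {b : ℝ} (hx : 2 ≤ x) (h1 : 1 ≤ K1)
    (h2 : √(x : ℝ) * (K2 + 1) ≤ n) (hb1 : 1 ≤ b)
    (ha2 : Real.log ((n : ℝ) / (K1 + 1)) ≤ b * (Real.log x / 2)) :
    ∑ K ∈ Ioc K1 K2, 1 / (K * Real.log ((n : ℝ) / K)) ≤ (1 + 1 / (K1 : ℝ)) * Real.log b := by
  have hx' : (2 : ℝ) ≤ x := by exact_mod_cast hx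
  have hK1 : (1 : ℝ) ≤ K1 := by exact_mod_cast h1
  have hl2 : 0 ≤ Real.log b := Real.log_nonneg hb1
  have hc : 0 < 1 + 1 / (K1 : ℝ) := by positivity
  have hs : 1 < √(x : ℝ) := by
    rw [Real.lt_sqrt (by norm_num)]; linarith
  have key : ∀ m : ℕ, K1 ≤ m → m ≤ K2 →
      ∑ K ∈ Ioc K1 m, 1 / (K * Real.log ((n : ℝ) / K)) ≤ (1 + 1 / (K1 : ℝ)) *
        (Real.log (Real.log ((n : ℝ) / (K1 + 1))) - Real.log (Real.log ((n : ℝ) / (m + 1)))) := by
    intro m hm
    induction m, hm using Nat.le_induction with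
    | base => intro _; simp
    | succ m hm ih =>
      intro hm2
      rw [sum_Ioc_succ_top hm]
      have ih' := ih (by omega)
      have hm' : (K1 : ℝ) ≤ m := by exact_mod_cast hm
      have hm2' : (m : ℝ) + 1 ≤ K2 := by exact_mod_cast hm2
      have hlt : (m : ℝ) + 1 + 1 < n := by nlinarith
      have hst := An_step_U (n := n) (K := (m : ℝ) + 1) (by linarith) hlt
      have ha : 0 < Real.log ((n : ℝ) / (m + 1)) :=
        Real.log_pos (by rw [lt_div_iff₀ (by linarith)]; linarith)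
      push_cast
      have h3 : 1 / (((m : ℝ) + 1) * Real.log ((n : ℝ) / (m + 1))) ≤
          (1 + 1 / (K1 : ℝ)) * (1 / (((m : ℝ) + 1 + 1) * Real.log ((n : ℝ) / (m + 1)))) := by
        have e : 1 / (((m : ℝ) + 1) * Real.log ((n : ℝ) / (m + 1))) =
            (1 + 1 / ((m : ℝ) + 1)) * (1 / (((m : ℝ) + 1 + 1) * Real.log ((n : ℝ) / (m + 1)))) := by
          have : (m : ℝ) + 1 ≠ 0 := by linarith
          have : (m : ℝ) + 1 + 1 ≠ 0 := by linarith
          field_simp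
        rw [e]
        have : 1 / ((m : ℝ) + 1) ≤ 1 / (K1 : ℝ) :=
          one_div_le_one_div_of_le (by linarith) (by linarith)
        have hp : 0 ≤ 1 / (((m : ℝ) + 1 + 1) * Real.log ((n : ℝ) / (m + 1))) := by
          have : 0 < (m : ℝ) + 1 + 1 := by linarith
          positivity
        exact mul_le_mul_of_nonneg_right (by linarith) hp
      have h4 := mul_le_mul_of_nonneg_left hst hc.le
      linarith
  rcases le_or_gt K2 K1 with hle | hlt
  · rw [Ioc_eq_empty (by omega)]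
    simp only [sum_empty]
    positivity
  · refine (key K2 hlt.le le_rfl).trans (mul_le_mul_of_nonneg_left ?_ hc.le)
    have hlt' : (K1 : ℝ) ≤ K2 := by exact_mod_cast hlt.le
    have hn0 : (K2 : ℝ) + 1 < n := by nlinarith
    have hlx : 0 < Real.log x := Real.log_pos (by linarith)
    have ha : 0 < Real.log ((n : ℝ) / (K1 + 1)) :=
      Real.log_pos (by rw [lt_div_iff₀ (by linarith)]; linarith)
    have hb : Real.log x / 2 ≤ Real.log ((n : ℝ) / (K2 + 1)) := by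
      rw [← Real.log_sqrt (by linarith)]
      apply Real.log_le_log (by linarith)
      rw [le_div_iff₀ (by linarith)]; exact h2
    have h5 := Real.log_le_log ha ha2
    have h6 := Real.log_le_log (by linarith) hb
    rw [Real.log_mul (by linarith) (by linarith)] at h5
    linarith

/-- Last cell index plus one. -/
noncomputable def iW (v : ℝ) (x : ℕ) : ℕ := Lp v x / sp x

theorem parW1 {δ v μ η : ℝ} (h0 : 0 < δ) (hv : 1 / 2 + 2 * δ ≤ v) (hμ : 0 < μ)
    (hμ1 : μ ≤ 1 - v - δ) (hη : 0 < η) : ∀ᶠ x : ℕ in atTop,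
      Lp δ x ≤ iW v x ∧ iW v x * sp x + Lp μ x ≤ x ∧
      Lp (1 - v - δ) x * (iW v x * sp x) ≤ ⌊η * x⌋₊ ∧ ((iW v x * sp x : ℕ) : ℝ) ≤ η * x ∧
      (x : ℝ) ^ v / 2 ≤ (iW v x * sp x : ℕ) ∧ ((iW v x * sp x : ℕ) : ℝ) ≤ 2 * (x : ℝ) ^ v ∧
      ((iW v x * sp x + Lp μ x : ℕ) : ℝ) ≤ 4 * (x : ℝ) ^ v ∧ Lp μ x ≤ sp x := by
  filter_upwards [An_rpow_ev h0 4, An_rpow_ev h0 (4 / η), eventually_ge_atTop 1] with x h4 h5 hx
  have hx' : (1 : ℝ) ≤ x := by exact_mod_cast hx
  have x0 : (0 : ℝ) < x := by linarith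
  have mono : ∀ {a b : ℝ}, a ≤ b → (x : ℝ) ^ a ≤ (x : ℝ) ^ b := fun h =>
    Real.rpow_le_rpow_of_exponent_le hx' h
  have pos : ∀ a : ℝ, 0 < (x : ℝ) ^ a := fun a => Real.rpow_pos_of_pos x0 a
  have s1 := sp_le hx
  have s2 := sqrt_le_sp x
  rw [Real.sqrt_eq_rpow] at s1 s2
  have s0 := An_sp_pos x
  have l1 := Lp_le h0 hx
  have v0 : 0 < v := by linarith
  have v1 := le_Lp v x
  have v2 := Lp_le v0 hx
  have m1 := Lp_le hμ hx
  have m2 := Lp_le (show 0 < 1 - v - δ by linarith) hx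
  have d1 := pos δ
  have d2 := pos (1 / 2)
  have e1 : (x : ℝ) ^ δ * ((x : ℝ) ^ δ * (x : ℝ) ^ (1 / 2 : ℝ)) ≤ (x : ℝ) ^ v := by
    rw [← Real.rpow_add x0, ← Real.rpow_add x0]
    exact mono (by linarith)
  have e2 : 4 * ((x : ℝ) ^ δ * (x : ℝ) ^ (1 / 2 : ℝ)) ≤ (x : ℝ) ^ v :=
    (mul_le_mul_of_nonneg_right h4 (by positivity)).trans e1
  have e3 : 4 * (x : ℝ) ^ (1 / 2 : ℝ) ≤ (x : ℝ) ^ δ * (x : ℝ) ^ (1 / 2 : ℝ) :=
    mul_le_mul_of_nonneg_right h4 d2.le
  have i1 : iW v x * sp x ≤ Lp v x := Nat.div_mul_le_self _ _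
  have i2 : Lp v x < iW v x * sp x + sp x := Nat.lt_div_mul_add s0
  have i3 : ((iW v x * sp x : ℕ) : ℝ) ≤ 2 * (x : ℝ) ^ v := (Nat.cast_le.2 i1).trans v2
  have i4 : (Lp v x : ℝ) ≤ (iW v x * sp x : ℕ) + (sp x : ℝ) := by exact_mod_cast i2.le
  have e4 : (x : ℝ) ^ (1 - δ) * (x : ℝ) ^ δ = x := by
    rw [← Real.rpow_add x0, sub_add_cancel, Real.rpow_one]
  have e5 : (x : ℝ) ^ (1 - v - δ) * (x : ℝ) ^ v = (x : ℝ) ^ (1 - δ) := by
    rw [← Real.rpow_add x0]
    congr 1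
    ring
  have e6 : 4 * (x : ℝ) ^ (1 - δ) ≤ η * x := by
    rw [div_le_iff₀' hη] at h5
    have := mul_le_mul_of_nonneg_left h5 (pos (1 - δ)).le
    rw [mul_left_comm, e4] at this
    linarith
  have e7 : 4 * (x : ℝ) ^ (1 - δ) ≤ x := by
    have := mul_le_mul_of_nonneg_left h4 (pos (1 - δ)).le
    linarith
  have e8 : (x : ℝ) ^ v ≤ (x : ℝ) ^ (1 - δ) := mono (by linarith)
  have e9 : (x : ℝ) ^ μ ≤ (x : ℝ) ^ v := mono (by linarith)
  have e10 : ((iW v x * sp x + Lp μ x : ℕ) : ℝ) ≤ 4 * (x : ℝ) ^ v := by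
    rw [Nat.cast_add]
    linarith
  have d3 := pos (1 - δ)
  refine ⟨(Nat.le_div_iff_mul_le s0).2 ?_, ?_, Nat.le_floor ?_, by linarith, by linarith, i3, e10,
    ?_⟩
  · have : (Lp δ x : ℝ) * sp x ≤ Lp v x := by
      calc (Lp δ x : ℝ) * sp x ≤ (2 * (x : ℝ) ^ δ) * (2 * (x : ℝ) ^ (1 / 2 : ℝ)) := by gcongr
        _ ≤ _ := by linarith
    exact_mod_cast this
  · exact_mod_cast e10.trans (by linarith : 4 * (x : ℝ) ^ v ≤ x)
  · rw [Nat.cast_mul]
    calc (Lp (1 - v - δ) x : ℝ) * ((iW v x * sp x : ℕ) : ℝ)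
        ≤ (2 * (x : ℝ) ^ (1 - v - δ)) * (2 * (x : ℝ) ^ v) := by gcongr
      _ = 4 * (x : ℝ) ^ (1 - δ) := by rw [← e5]; ring
      _ ≤ _ := e6
  · have a1 : (x : ℝ) ^ δ * (x : ℝ) ^ μ ≤ (x : ℝ) ^ (1 / 2 : ℝ) := by
      rw [← Real.rpow_add x0]
      exact mono (by linarith)
    have a2 := mul_le_mul_of_nonneg_right h4 (pos μ).le
    have a3 := pos μ
    exact_mod_cast (by linarith : (Lp μ x : ℝ) ≤ sp x)

theorem parW2 {δ v : ℝ} (h0 : 0 < δ) (h1 : δ ≤ 1 / 20) (hv : 1 / 2 + 2 * δ ≤ v)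
    (hv1 : v + δ < 1) : ∀ᶠ x : ℕ in atTop,
      ll (x + 1) - ll (iW v x * sp x) ≤ -Real.log v + δ ∧
      Real.log (2 * v) - 4 * δ ≤ ll (iW v x * sp x) - ll (Lp δ x * sp x) ∧
      ll (iW v x * sp x) - ll (Lp δ x * sp x) ≤ 1 ∧
      ∀ n K : ℕ, n ≤ x → Lp (1 - v - δ) x ≤ 2 * K →
        Real.log ((n : ℝ) / (K + 1)) ≤ 2 * (v + 2 * δ) * (Real.log x / 2) := by
  filter_upwards [parW1 h0 hv (show 0 < 1 - v - δ by linarith) le_rfl one_pos,
    An_log_ev (12 / δ), An_rpow_ev h0 2, eventually_ge_atTop 1] with x hp hl hL hx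
  obtain ⟨-, -, -, -, p5, p6, -⟩ := hp
  have hx' : (1 : ℝ) ≤ x := by exact_mod_cast hx
  have x0 : (0 : ℝ) < x := by linarith
  have hl10 : 12 ≤ δ * Real.log x := by rw [div_le_iff₀ h0] at hl; linarith
  have hl2 : Real.log 2 ≤ 1 := by
    have := Real.log_le_sub_one_of_pos (show (0 : ℝ) < 2 by norm_num); linarith
  have hl2' : 0 < Real.log 2 := Real.log_pos (by norm_num)
  have hlx : 240 ≤ Real.log x := by nlinarith [Real.log_nonneg hx']
  have hL2' : (2 : ℝ) ≤ Lp δ x := hL.trans (le_Lp δ x)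
  have hs0 := An_sp_pos x
  have hs0' : (0 : ℝ) < sp x := by exact_mod_cast hs0
  have hsq0 : 0 < √(x : ℝ) := Real.sqrt_pos.mpr (by linarith)
  have hlL : Real.log (Lp δ x) ≤ Real.log 2 + δ * Real.log x := by
    have := Real.log_le_log (by linarith) (Lp_le h0 hx)
    rwa [Real.log_mul (by norm_num) (by positivity), Real.log_rpow (by linarith)] at this
  have hlL0 : 0 ≤ Real.log (Lp δ x) := Real.log_nonneg (by linarith)
  have hls1 : Real.log x / 2 ≤ Real.log (sp x) := by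
    rw [← Real.log_sqrt (by linarith)]; exact Real.log_le_log hsq0 (sqrt_le_sp x)
  have hls2 : Real.log (sp x) ≤ Real.log 2 + Real.log x / 2 := by
    have := Real.log_le_log hs0' (sp_le hx)
    rwa [Real.log_mul (by norm_num) hsq0.ne', Real.log_sqrt (by linarith)] at this
  have eB : Real.log ((Lp δ x * sp x : ℕ) : ℝ) = Real.log (Lp δ x) + Real.log (sp x) := by
    rw [Nat.cast_mul, Real.log_mul (by linarith) hs0'.ne']
  have xv : 0 < (x : ℝ) ^ v := by positivity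
  have hA1 : Real.log ((iW v x * sp x : ℕ) : ℝ) ≤ Real.log 2 + v * Real.log x := by
    have := Real.log_le_log (by linarith) p6
    rwa [Real.log_mul (by norm_num) xv.ne', Real.log_rpow x0] at this
  have hA2 : v * Real.log x - Real.log 2 ≤ Real.log ((iW v x * sp x : ℕ) : ℝ) := by
    have := Real.log_le_log (by positivity) p5
    rwa [Real.log_div xv.ne' (by norm_num), Real.log_rpow x0] at this
  have hX : Real.log ((x + 1 : ℕ) : ℝ) ≤ Real.log 2 + Real.log x := by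
    rw [← Real.log_mul (by norm_num) (by linarith)]
    apply Real.log_le_log (by positivity); push_cast; linarith
  have hX0 : 0 < Real.log ((x + 1 : ℕ) : ℝ) := An_log_pos (by omega)
  have hK : ∀ n K : ℕ, n ≤ x → Lp (1 - v - δ) x ≤ 2 * K →
      Real.log ((n : ℝ) / (K + 1)) ≤ 2 * (v + 2 * δ) * (Real.log x / 2) := by
    intro n K hn hK
    have a0 : 0 ≤ (v + δ) * Real.log x := mul_nonneg (by linarith) (by linarith)
    rcases Nat.eq_zero_or_pos n with e | e
    · rw [e, Nat.cast_zero, zero_div, Real.log_zero]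
      linarith
    have a1 : (x : ℝ) ^ (1 - v - δ) ≤ 2 * K := (le_Lp _ x).trans (by exact_mod_cast hK)
    have a2 : (x : ℝ) ^ (v + δ) * (x : ℝ) ^ (1 - v - δ) = x := by
      rw [← Real.rpow_add x0, show v + δ + (1 - v - δ) = 1 by ring, Real.rpow_one]
    have a3 : 0 < (x : ℝ) ^ (v + δ) := by positivity
    have a4 : (n : ℝ) / (K + 1) ≤ 2 * (x : ℝ) ^ (v + δ) := by
      rw [div_le_iff₀ (by positivity)]
      have b1 : (n : ℝ) ≤ x := by exact_mod_cast hn
      have b2 := mul_le_mul_of_nonneg_left a1 a3.le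
      linarith
    have a5 := Real.log_le_log (by positivity) a4
    rw [Real.log_mul (by norm_num) a3.ne', Real.log_rpow x0] at a5
    linarith
  refine ⟨?_, ?_, ?_, hK⟩
  all_goals
    unfold ll
    clear hK
    generalize Real.log ((iW v x * sp x : ℕ) : ℝ) = A at *
    generalize Real.log ((Lp δ x * sp x : ℕ) : ℝ) = B at *
    generalize Real.log ((x + 1 : ℕ) : ℝ) = X at *
    generalize Real.log (Lp δ x) = l at *
    generalize Real.log (sp x) = s at *
    generalize Real.log (x : ℝ) = y at *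
    have v0 : 0 < v := by linarith
    have c1 : y / 2 ≤ v * y := by nlinarith
    have c2 : v * y ≤ y := by nlinarith
    have c3 : 6 ≤ δ * (v * y) := by nlinarith
    have hApos : 0 < A := by linarith
    have hBpos : 0 < B := by linarith
    have c4 := mul_le_mul_of_nonneg_left hA2 h0.le
    have c5 := mul_le_mul_of_nonneg_left hl2 h0.le
  · have c6 := mul_le_mul_of_nonneg_left hX v0.le
    have c7 := mul_le_mul_of_nonneg_left hl2 v0.le
    have h7 := An_logdiff (a := v * X) (c := δ) (by positivity) hApos (by nlinarith)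
    rw [Real.log_mul v0.ne' hX0.ne'] at h7
    linarith
  · have c6 : B ≤ 2 + δ * y + y / 2 := by linarith
    have c7 := mul_le_mul_of_nonneg_left c6 (show 0 ≤ 2 * v by linarith)
    have h7 := An_logdiff (a := 2 * v * B) (c := 4 * δ) (by positivity) hApos (by nlinarith)
    rw [Real.log_mul (by positivity) hBpos.ne'] at h7
    linarith
  · have c6 : v * y ≤ (1 - δ) * y := mul_le_mul_of_nonneg_right (by linarith) (by linarith)
    exact An_logdiff hApos hBpos (by linarith)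

end Pool.Agent.Work.MP_9a1701_nt.P
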