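import Pool.Agent.Work.MP_9a1701_nt.V.W3
import Pool.Agent.Work.MP_9a1701_nt.V.W4
import Pool.Agent.Work.MP_9a1701_nt.V.V7

-- merged part: Pool.Agent.Work.MP_9a1701_nt.V.W5
section
/-!
# The finite hypotheses for a power sparse random part
-/

set_option autoImplicit false
open Finset Filter

namespace Pool.Agent.Work.MP_9a1701_nt.P

variable {ρ : ℕ → ℝ} {n₁ : ℕ}

/-- The lower bound for the intensity. -/
def LargeK (ρ : ℕ → ℝ) (κ : ℝ) : Prop := ∀ᶠ n : ℕ in atTop, (n : ℝ) ^ (-κ) ≤ ρ n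

/-- Sizes of the exponents. -/
structure ParW (κ v δ μ : ℝ) : Prop where
  k0 : 0 ≤ κ
  k1 : κ ≤ 1
  d0 : 0 < δ
  d1 : δ ≤ 1 / 20
  dv : 1 / 2 + 2 * δ ≤ v
  m0 : 0 < μ
  m1 : μ ≤ 1 - v - δ
  dm : δ ≤ μ
  km : κ * v < μ
  m4 : μ < 1 / 4

lemma Lp_mono {a b : ℝ} (h : a ≤ b) {x : ℕ} (hx : 1 ≤ x) : Lp a x ≤ Lp b x :=
  Nat.ceil_mono (Real.rpow_le_rpow_of_exponent_le (by exact_mod_cast hx) h)

lemma W5_rho (hN : Noise0 ρ n₁) {κ : ℝ} (hκ : LargeK ρ κ) {η : ℝ} (hη : 0 < η) :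
    ∃ T : ℕ, n₁ ≤ T ∧ ∀ t, T ≤ t → 0 < ρ t ∧ ρ t ≤ η := by
  have h1 : ∀ᶠ n : ℕ in atTop, 1 ≤ Real.log n :=
    (Real.tendsto_log_atTop.comp tendsto_natCast_atTop_atTop).eventually_ge_atTop 1
  obtain ⟨T, hT⟩ := eventually_atTop.1 ((hN.small.eventually_le_const hη).and
    (Eventually.and hκ (h1.and (eventually_gt_atTop 0))))
  refine ⟨max n₁ T, le_max_left _ _, fun t ht => ?_⟩
  obtain ⟨a1, a2, a3, a4⟩ := hT t ((le_max_right _ _).trans ht)
  exact ⟨(Real.rpow_pos_of_pos (Nat.cast_pos.2 a4) _).trans_le a2,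
    (le_mul_of_one_le_right (hN.prob t).1 a3).trans a1⟩

theorem ptW {D : Set ℕ} (hρ : Prob ρ) (hD : D.Infinite) {x y lo z hi L K d : ℕ}
    (hd : d ∈ D) (hdlo : d < lo) (hz : lo ≤ z) (hlo : lo ≤ hi) (hy : y ≤ x) (hhi : hi + L ≤ y)
    (hL : 1 ≤ L) (hK : L ≤ K) {η r κ : ℝ} (hr1 : r ≤ 1) (hκ : 0 ≤ κ)
    (hr : ∀ v ∈ Ico lo hi, ρ v ≤ r * (1 - ρ v))
    (hpos : ∀ t ∈ Icc lo (hi + L), 0 < (1 - η) * ρ t)
    (hrk : ∀ t ∈ Icc lo (hi + L), r ≤ κ * ((1 - η) * ρ t)) (n : ℕ) :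
    Ex ρ (Icc 1 x) (fun Q => (cntK (cfg D Q) z hi K n : ℝ)) ≤
      κ * Ex ρ (Icc 1 x) (fun Q => Phi (cfg D Q) K n) +
        2 * Ex ρ (Icc 1 x) (fun Q => ind (¬ Good D ρ y L η Q)) := by
  classical
  have hV : (Ico z hi).filter (fun t => t ∉ D) ⊆ Icc 1 x := fun t ht => by
    have := mem_Ico.1 (mem_filter.1 ht).1
    exact mem_Icc.2 ⟨by omega, by omega⟩
  have h2 := mecke hρ hV (r := r) (fun v hv => by
    have := mem_Ico.1 (mem_filter.1 hv).1
    exact hr v (mem_Ico.2 ⟨by omega, by omega⟩)) (PtB_g D z hi K n) (PtB_g_nonneg D z hi K n)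
  have h1 := Ex_mono (U := Icc 1 x) hρ fun Q _ =>
    PtB_one (D := D) (n := n) (by omega : 1 ≤ lo) hz hhi hK hpos Q
  have h3 := Ex_mono (U := Icc 1 x) hρ fun Q _ =>
    PtB_three (n := n) hD hd hdlo hz hlo hhi hL hK hr1 hκ hpos hrk Q
  rw [Ex_add] at h1
  rw [Ex_add, Ex_const_mul, Ex_const_mul] at h3
  linarith

lemma Good_local (D : Set ℕ) (y L : ℕ) (η : ℝ) (Q : Finset ℕ) :
    Good D ρ y L η Q ↔ Good D ρ y L η (Q ∩ Icc 1 y) := by
  classical
  unfold Good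
  refine forall_congr' fun e => forall_congr' fun e' => forall_congr' fun h1 =>
    forall_congr' fun _ => ?_
  rw [filter_congr (q := fun t => t ∈ Q ∩ Icc 1 y ∧ t ∉ D) fun t ht => by
    rw [mem_Ioo] at ht
    have : t ∈ Icc 1 y := mem_Icc.2 ⟨by omega, by omega⟩
    rw [mem_inter]
    tauto]

theorem goodW (hN : Noise0 ρ n₁) {κ v δ μ η : ℝ} (hP : ParW κ v δ μ) (hκ : LargeK ρ κ)
    (h0 : 0 < η) (h1 : η ≤ 1) : ∀ᶠ x : ℕ in atTop, Ex ρ (Icc 1 x)
      (fun Q => ind (¬ Good PP ρ (iW v x * sp x + Lp μ x) (Lp μ x) η Q)) ≤ 1 / (x : ℝ) ^ 3 := by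
  obtain ⟨L0, hL0⟩ := primes_sparse n₁ (η := η / 2) (by positivity)
  obtain ⟨T, hT⟩ := eventually_atTop.1 hκ
  filter_upwards [ModB_big hP.m0 (L0 + T + 1),
    An_log_pow (sub_pos.2 hP.km) 1 (C := 320 / η ^ 2) (by positivity),
    parW1 hP.d0 hP.dv hP.m0 hP.m1 one_pos, eventually_ge_atTop 1]
    with x a1 a2 ⟨_, p2, _, _, _, _, p7, _⟩ hx
  have hx1 : (1 : ℝ) ≤ x := by exact_mod_cast hx
  have hx0 : (0 : ℝ) < x := by linarith
  have a3 := hT (iW v x * sp x + Lp μ x) (by omega)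
  have a4 := le_Lp μ x
  have y0 : 0 < iW v x * sp x + Lp μ x := by omega
  generalize iW v x * sp x + Lp μ x = y at *
  have y1 : (0 : ℝ) < y := by exact_mod_cast y0
  have y2 : (y : ℝ) ≤ x := by exact_mod_cast p2
  rw [Ex_local (Icc_subset_Icc_right p2) fun Q => ind_congr (Good_local PP y _ η Q).not]
  refine (good_prob hN.prob h0 h1 (by omega) hN.anti fun e e' he => hL0 e e' (by omega)).trans ?_
  have b0 : (x : ℝ) ^ (-(κ * v)) / 4 ≤ ρ y := by
    refine le_trans ?_ a3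
    have c1 : (4 * (x : ℝ) ^ v) ^ (-κ) ≤ (y : ℝ) ^ (-κ) :=
      Real.rpow_le_rpow_of_nonpos y1 p7 (neg_nonpos.2 hP.k0)
    have c2 : (4 : ℝ) ^ (-1 : ℝ) ≤ 4 ^ (-κ) :=
      Real.rpow_le_rpow_of_exponent_le (by norm_num) (neg_le_neg hP.k1)
    rw [Real.rpow_neg_one] at c2
    rw [Real.mul_rpow (by norm_num) (by positivity), ← Real.rpow_mul hx0.le, mul_neg,
      mul_comm v κ] at c1
    refine le_trans ?_ c1
    rw [div_eq_inv_mul]
    exact mul_le_mul_of_nonneg_right c2 (by positivity)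
  have b1 : (x : ℝ) ^ (μ - κ * v) / 4 ≤ ρ y * Lp μ x := by
    calc (x : ℝ) ^ (μ - κ * v) / 4 = (x : ℝ) ^ (-(κ * v)) / 4 * (x : ℝ) ^ μ := by
          rw [div_mul_eq_mul_div, ← Real.rpow_add hx0]
          congr 2
          ring
      _ ≤ _ := mul_le_mul b0 a4 (by positivity) (hN.prob y).1
  rw [pow_one] at a2
  have b3 : 5 * (Real.log x + 1) ≤ η ^ 2 * ρ y * Lp μ x / 16 := by
    have c1 := mul_le_mul_of_nonneg_left a2 (sq_nonneg η)
    have c2 := mul_le_mul_of_nonneg_left b1 (sq_nonneg η)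
    have c3 : η ^ 2 * (320 / η ^ 2 * (Real.log x + 1)) = 320 * (Real.log x + 1) := by
      field_simp
    linarith
  have b4 : (x : ℝ) ^ 5 * 4 ≤ Real.exp (η ^ 2 * ρ y * Lp μ x / 16) := by
    refine le_trans ?_ (Real.exp_le_exp.2 b3)
    have c1 : Real.exp (5 * (Real.log x + 1)) = (x : ℝ) ^ 5 * Real.exp 5 := by
      rw [mul_add, mul_one, Real.exp_add, show (5 : ℝ) * Real.log x = (5 : ℕ) * Real.log x by
        norm_num, Real.exp_nat_mul, Real.exp_log hx0]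
    rw [c1]
    have := Real.add_one_le_exp (5 : ℝ)
    gcongr
    linarith
  rw [Real.exp_neg, ← div_eq_mul_inv, div_le_div_iff₀ (Real.exp_pos _) (by positivity), one_mul]
  refine le_trans ?_ b4
  calc ((y : ℝ) + 1) ^ 2 * x ^ 3 ≤ (2 * x) ^ 2 * x ^ 3 := by
        gcongr
        linarith
    _ = _ := by ring

theorem ptW_eventually (hN : Noise0 ρ n₁) {κ v δ μ ε : ℝ} (hP : ParW κ v δ μ)
    (hκ : LargeK ρ κ) (hε : 0 < ε) :
    ∀ᶠ x : ℕ in atTop, ∀ i ∈ Ico (Lp δ x) (iW v x), ∀ z : ℕ, i * sp x ≤ z → ∀ K : ℕ,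
      Lp μ x ≤ K → ∀ n : ℕ,
        Ex ρ (Icc 1 x) (fun Q => (cntK (cfg PP Q) z ((i + 1) * sp x) K n : ℝ)) ≤
          (1 + ε) * Ex ρ (Icc 1 x) (fun Q => Phi (cfg PP Q) K n) + 2 / (x : ℝ) ^ 3 := by
  obtain ⟨η, η0, η1, η2⟩ : ∃ η : ℝ, 0 < η ∧ η ≤ 1 / 10 ∧ 10 * η ≤ ε :=
    ⟨min (1 / 10) (ε / 10), by positivity, min_le_left _ _, by
      linarith [min_le_right (1 / 10) (ε / 10)]⟩
  obtain ⟨T, hT, hρ⟩ := W5_rho hN hκ (half_pos η0)
  have h0 := hP.d0
  filter_upwards [par1 h0 (by linarith [hP.d1]) η0, ModB_big hP.m0 (T + 2),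
    parW1 h0 hP.dv hP.m0 hP.m1 one_pos, goodW hN hP hκ η0 (by linarith)]
    with x ⟨p1, _, _, _, _, p6, _⟩ hM ⟨_, p3, _, _, _, _, _, hs⟩ hG i hi z hz K hK n
  rw [mem_Ico] at hi
  generalize Lp δ x = L at *
  generalize Lp μ x = M at *
  generalize sp x = s at *
  have e1 : L * s ≤ i * s := Nat.mul_le_mul_right s hi.1
  have e2 : (i + 1) * s ≤ iW v x * s := Nat.mul_le_mul_right s hi.2
  have e3 : 2 * s ≤ L * s := Nat.mul_le_mul_right s p1
  have e4 : (i + 1) * s = i * s + s := by ring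
  have r0 := hρ (i * s) (by omega)
  refine (ptW hN.prob PP_infinite (lo := i * s) (d := 2) (η := η) (r := (1 + η) * ρ (i * s))
    (κ := 1 + ε) Nat.prime_two (by omega) hz (by omega) p3 (by omega) (by omega) hK
    (by nlinarith only [r0.1, r0.2, η0, η1])
    (by linarith) (fun u hv => ?_) (fun t ht => ?_) (fun t ht => ?_) n).trans ?_
  · rw [mem_Ico] at hv
    have a1 := hN.anti (i * s) u (by omega) hv.1
    have a2 := hρ u (by omega)
    have a3 : 1 ≤ (1 + η) * (1 - ρ u) := by nlinarith only [a2.2, η0, η1]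
    linarith only [a1, mul_le_mul_of_nonneg_left a3 r0.1.le]
  · exact mul_pos (by linarith) (hρ t (by rw [mem_Icc] at ht; omega)).1
  · rw [mem_Icc] at ht
    have a1 := hN.mono (i * s) t (by omega) ht.1
    have a2 := (hρ t (by omega)).1
    have L0 : (0 : ℝ) < L := by exact_mod_cast (show 0 < L by omega)
    have a3 : (t : ℝ) ≤ (i * s : ℕ) + 2 * s := by exact_mod_cast (show t ≤ i * s + 2 * s by omega)
    have a4 : (L : ℝ) * s ≤ (i * s : ℕ) := by exact_mod_cast e1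
    have a5 : (0 : ℝ) < (i * s : ℕ) := by exact_mod_cast (show 0 < i * s by omega)
    rw [div_le_iff₀ L0] at p6
    generalize ((i * s : ℕ) : ℝ) = u at a1 a3 a4 a5
    have a6 : (s : ℝ) ≤ η * u :=
      (le_mul_of_one_le_left (Nat.cast_nonneg s) p6).trans
        (by linarith only [mul_le_mul_of_nonneg_left a4 η0.le])
    have a7 : ρ (i * s) ≤ (1 + 2 * η) * ρ t := by
      refine le_of_mul_le_mul_left (a1.trans ?_) a5
      rw [← mul_assoc]
      exact mul_le_mul_of_nonneg_right (by linarith) a2.le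
    have a8 : (1 + η) * (1 + 2 * η) ≤ (1 + ε) * (1 - η) := by nlinarith only [η0, η1, η2]
    have a9 := mul_le_mul_of_nonneg_right a8 a2.le
    linarith only [a9, mul_le_mul_of_nonneg_left a7 (show 0 ≤ 1 + η by linarith only [η0])]
  · rw [div_eq_mul_one_div]
    linarith

theorem hptW (hN : Noise0 ρ n₁) {κ v δ μ : ℝ} (hP : ParW κ v δ μ) (hκ : LargeK ρ κ) :
    ∀ᶠ x : ℕ in atTop, HPTm PP ρ x (sp x) (Lp δ x) (iW v x) (Lp μ x) := by
  filter_upwards [ModB_big hP.m0 1, parW1 hP.d0 hP.dv hP.m0 hP.m1 one_pos,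
    ptW_eventually hN hP hκ one_pos] with x p1 ⟨_, p3, _⟩ h i hi z hz K hK n
  have K0 : (0 : ℝ) < K := by exact_mod_cast (show 0 < K by omega)
  rcases le_or_gt K x with e | e
  · have a1 := Ex_le_const (U := Icc 1 x) hN.prob fun Q _ =>
      Phi_le (cfg_infinite PP_infinite Q) (show 1 ≤ K by omega) n
    have a2 : (K : ℝ) ≤ (x : ℝ) ^ 3 := by exact_mod_cast e.trans (Nat.le_self_pow (by norm_num) x)
    have a3 := div_le_div_of_nonneg_left zero_le_two K0 a2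
    have a4 := h i hi z hz K hK n
    rw [div_eq_mul_one_div 2 (K : ℝ)] at a3
    rw [div_eq_mul_one_div]
    linarith
  · refine Ex_le_const hN.prob fun Q _ => le_trans (le_of_eq ?_) (by positivity : (0 : ℝ) ≤ _)
    rw [Nat.cast_eq_zero, cntK, card_eq_zero, filter_eq_empty_iff]
    rintro p hp ⟨h2, -⟩
    have a1 := (mem_blk.1 hp).2.2.1
    have a2 := bcard_le (cfg PP Q) p.1 p.2
    have a3 : (i + 1) * sp x ≤ iW v x * sp x := Nat.mul_le_mul_right _ (mem_Ico.1 hi).2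
    omega

theorem hupW (hN : Noise0 ρ n₁) {κ v δ μ η : ℝ} (hW : ParW κ v δ μ) (hκ : LargeK ρ κ)
    (hη : 0 < η) (hη1 : η ≤ 1) (hδη : 32 * δ ≤ η) : ∀ᶠ x : ℕ in atTop,
      HUP PP ρ x (sp x) (Lp δ x) (iW v x) ⌊η * x⌋₊ (Real.log (2 * v)) η := by
  have h0 := hW.d0
  have h1 : δ ≤ 1 / 10 := by linarith [hW.d1]
  have w1 := hW.dv
  have w2 := hW.m1
  have w3 := hW.m0
  have w4 := hW.dm
  obtain ⟨a, a0, ha⟩ : ∃ a : ℝ, 0 < a ∧ 40 * a = η := ⟨η / 40, by positivity, by ring⟩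
  obtain ⟨R, hR⟩ := exists_nat_ge (4 / a)
  have r1 : 4 ≤ R * a := (div_le_iff₀ a0).1 hR
  have r2 : (2 : ℝ) ≤ R := by nlinarith only [r1, ha, hη1, Nat.cast_nonneg (α := ℝ) R]
  have r3 : 2 ≤ R := by exact_mod_cast r2
  have a1 : 0 ≤ 1 + a := by linarith
  have hlog : ∀ᶠ x : ℕ in atTop, 8 * R / η ≤ Real.log x :=
    (Real.tendsto_log_atTop.comp tendsto_natCast_atTop_atTop).eventually_ge_atTop _
  filter_upwards [par1 h0 h1 hη, ModB_big h0 R, ptW_eventually hN hW hκ a0,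
    range_finalW hN h0 h1 hη hη1 a0 r3, hlog, eventually_ge_atTop 2,
    tendsto_natCast_atTop_atTop.eventually_ge_atTop (8 / η), parW1 h0 w1 w3 w2 hη,
    parW2 h0 hW.d1 w1 (by linarith)]
    with x ⟨p1, _, _, _, _, _, p7⟩ hL hP hF hl x2 x8 ⟨p2, _, p4, _⟩ ⟨_, _, _, p8⟩
  choose! err g1 g2 g3 using hF
  have s0 : 1 ≤ sp x := Nat.succ_pos _
  have x0 : (0 : ℝ) < x := by exact_mod_cast (show 0 < x by omega)
  have t1 : Lp μ x ≤ Lp (1 - v - δ) x := Lp_mono w2 (by omega)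
  have t2 : Lp δ x ≤ Lp (1 - v - δ) x := Lp_mono (w4.trans w2) (by omega)
  have y4 : Lp (1 - v - δ) x ≤ x / (Lp δ x * sp x) := by
    refine (Nat.le_div_iff_mul_le (Nat.mul_pos (by omega) s0)).2 (le_trans
      (Nat.mul_le_mul_left _ (Nat.mul_le_mul_right _ p2)) (p4.trans ?_))
    exact Nat.floor_le_of_le (mul_le_of_le_one_left x0.le hη1)
  obtain ⟨e0, e1, k1, k2, k3, k4, k5, k6⟩ := exists_scales (by omega) (hL.trans t2) y4
  have y1 := Nat.div_mul_le_self x (Lp δ x * sp x)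
  have y2 := Nat.div_le_self x (Lp δ x * sp x)
  have y3 : ((x / (Lp δ x * sp x) : ℕ) : ℝ) ≤ x / (Lp δ x * sp x) := by
    rw [← Nat.cast_mul]
    exact Nat.cast_div_le
  unfold HUP
  have hlam := fun n h1 h2 u => lam_leM (D := PP) (ρ := ρ) (x := x) (i1 := iW v x)
    (M := Lp (1 - v - δ) x) s0 (by omega : 1 ≤ Lp δ x) (n := n) h1 h2 u
  generalize x / (Lp δ x * sp x) = Y at *
  have c1 : ∀ e ∈ Ico e0 e1, Lp δ x ≤ 2 * R * 2 ^ e := fun e he =>
    (t2.trans k3).trans (Nat.mul_le_mul_left _ (Nat.pow_le_pow_right two_pos (mem_Ico.1 he).1))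
  have c2 : ∀ e ∈ Ico e0 e1, ∀ q ∈ Ico R (2 * R), q * 2 ^ e * (Lp δ x * sp x) ≤ 2 * x :=
    fun e he q hq => by
      have b1 : q * 2 ^ e ≤ R * 2 ^ e1 := by
        refine (Nat.mul_le_mul_right _ (mem_Ico.1 hq).2.le).trans (le_trans (le_of_eq ?_)
          (Nat.mul_le_mul_left R (Nat.pow_le_pow_right two_pos (mem_Ico.1 he).2)))
        rw [Nat.pow_succ]
        ring
      refine (Nat.mul_le_mul_right _ (b1.trans k5)).trans ?_
      rw [mul_assoc]
      exact Nat.mul_le_mul_left 2 y1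
  have Φ0 : ∀ n K, 1 ≤ K → 0 ≤ Ex ρ (Icc 1 x) fun Q => Phi (cfg PP Q) K n := fun n K hK =>
    Ex_nonneg hN.prob fun Q _ => Phi_nonneg (cfg_infinite PP_infinite Q) hK n
  have K1 : R ≤ R * 2 ^ e0 := Nat.le_mul_of_pos_right _ (by positivity)
  refine (sum_le_sum (g := fun n => η / 2 + 2 * ∑ e ∈ Ico e0 e1, ∑ q ∈ Ico R (2 * R),
    err q (2 ^ e) n) fun n hn => ?_).trans ?_
  · have E0 : 0 ≤ ∑ e ∈ Ico e0 e1, ∑ q ∈ Ico R (2 * R), err q (2 ^ e) n :=
      sum_nonneg fun e he => sum_nonneg fun q hq => g1 q hq _ (c1 e he) (c2 e he q hq) n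
    refine max_le ?_ (by linarith only [E0, hη])
    have hn' := mem_Ioc.1 hn
    have b1 := hlam n (by omega) hn'.2
      (fun K => (1 + a) * Ex ρ (Icc 1 x) (fun Q => Phi (cfg PP Q) K n) + 2 / (x : ℝ) ^ 3)
      (fun K hK => add_nonneg (mul_nonneg a1 (Φ0 n K (by rw [mem_Ioc] at hK; omega)))
        (by positivity)) fun i hi K hK _ _ => hP i hi _ le_rfl K (t1.trans hK.le) n
    rw [sum_add_distrib, ← mul_sum, sum_const, Nat.card_Ioc, nsmul_eq_mul] at b1
    have b2 : ((Y - Lp (1 - v - δ) x : ℕ) : ℝ) * (2 / (x : ℝ) ^ 3) ≤ η / 4 := by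
      have d1 : ((Y - Lp (1 - v - δ) x : ℕ) : ℝ) ≤ x := by exact_mod_cast (show Y - Lp (1 - v - δ) x ≤ x by omega)
      have d2 : (x : ℝ) ^ 2 ≤ (x : ℝ) ^ 3 :=
        pow_le_pow_right₀ (by exact_mod_cast (show 1 ≤ x by omega)) (by norm_num)
      refine (mul_le_mul d1 (div_le_div_of_nonneg_left zero_le_two (by positivity) d2)
        (by positivity) x0.le).trans ?_
      rw [div_le_iff₀ hη] at x8
      rw [← mul_div_assoc, div_le_iff₀ (by positivity)]
      linarith only [mul_le_mul_of_nonneg_left x8 x0.le]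
    have b3 := sum_le_sum_of_subset_of_nonneg (Ioc_subset_Ioc k2 k4)
      fun K hK _ => Φ0 n K (by rw [mem_Ioc] at hK; omega)
    rw [← sum_ranges R e0 e1 k1] at b3
    have b4 := b3.trans (sum_le_sum fun e he => sum_le_sum fun q hq =>
      g3 q hq _ (c1 e he) (c2 e he q hq) n hn)
    simp only [sum_add_distrib, ← mul_sum] at b4
    rw [sum_ranges R e0 e1 k1 fun K => 1 / (K * Real.log ((n : ℝ) / K))] at b4
    have b5 := sum_UW (n := n) (K1 := R * 2 ^ e0) (K2 := R * 2 ^ e1) (b := 2 * (v + 2 * δ)) x2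
      (by omega) (by
      have d1 : ((R * 2 ^ e1 : ℕ) : ℝ) ≤ 2 * Y := by exact_mod_cast k5
      refine le_trans (mul_le_mul_of_nonneg_left ?_ (Real.sqrt_nonneg _))
        (p7.trans (Nat.cast_le.2 hn'.1.le))
      rw [mul_div_assoc]
      linarith only [d1, y3]) (by linarith only [w1, h0])
      (p8 n _ hn'.2 (by rw [← mul_assoc]; exact k3))
    have b6 : 4 / (R : ℝ) ≤ a := by
      rw [div_le_iff₀ (by linarith only [r2])]
      linarith only [r1]
    have b7 : 1 / ((R * 2 ^ e0 : ℕ) : ℝ) ≤ a := by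
      have d1 : (R : ℝ) ≤ (R * 2 ^ e0 : ℕ) := by exact_mod_cast K1
      rw [div_le_iff₀ (by linarith only [d1, r2])]
      linarith only [r1, mul_le_mul_of_nonneg_left d1 a0.le]
    have l0 : Real.log (2 * (v + 2 * δ)) - Real.log (2 * v) ≤ 4 * δ :=
      An_logdiff (by linarith only [w1, h0]) (by linarith only [w1, h0])
        (by nlinarith only [w1, h0])
    have l1 : Real.log (2 * (v + 2 * δ)) ≤ 1 := by
      have d1 : Real.log (2 * (v + 2 * δ)) - Real.log 2 ≤ 1 / 10 :=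
        An_logdiff (by linarith only [w1, h0]) two_pos (by linarith only [w2, w3, h1])
      linarith only [d1, Real.log_two_lt_d9]
    have l2 : 0 ≤ Real.log (2 * (v + 2 * δ)) := Real.log_nonneg (by linarith only [w1, h0])
    have b8 := mul_le_mul (mul_le_mul_of_nonneg_left (add_le_add_right b6 1) a1)
      (b5.trans (mul_le_mul_of_nonneg_right (add_le_add_right b7 1) l2))
      (sum_nonneg fun K hK => by
        have d1 : √(x : ℝ) * (2 * (x : ℝ) / (Lp δ x * sp x) + 1) ≤ n :=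
          p7.trans (Nat.cast_le.2 hn'.1.le)
        have d2 : (K : ℝ) ≤ 2 * Y := by exact_mod_cast (mem_Ioc.1 hK).2.trans k5
        have d3 : (0 : ℝ) < K := by exact_mod_cast (show 0 < K by rw [mem_Ioc] at hK; omega)
        have d4 : 1 ≤ √(x : ℝ) := Real.one_le_sqrt.2 (by exact_mod_cast (show 1 ≤ x by omega))
        have d5 := (le_mul_of_one_le_left (by positivity) d4).trans d1
        rw [mul_div_assoc] at d5
        exact one_div_nonneg.2 (mul_nonneg d3.le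
          (Real.log_nonneg ((one_le_div d3).2 (by linarith only [d2, d5, y3]))))) (by positivity)
    have b9 : (1 + a) * ((1 + a) * (1 + a) * (1 + a)) ≤ 1 + 5 * a := by
      have d1 : (1 + a) * (1 + a) ≤ 1 + 41 / 20 * a := by nlinarith only [a0, ha, hη1]
      have d2 := mul_le_mul d1 d1 (by positivity) (by positivity)
      nlinarith only [d2, a0, ha, hη1]
    have b10 := mul_le_mul_of_nonneg_left (b4.trans (add_le_add_left b8 _))
      a1
    have b11 := mul_le_mul_of_nonneg_right b9 l2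
    have b12 := mul_le_mul_of_nonneg_right (by linarith only [ha, hη1, a0] : a ≤ 1) E0
    have b13 := mul_le_mul_of_nonneg_left l1 a0.le
    linarith only [b1, b2, b10, b11, b12, b13, ha, l0, hδη]
  · rw [sum_add_distrib, ← mul_sum, sum_const, Nat.card_Ioc, nsmul_eq_mul, sum_comm]
    have b1 : ((x - ⌊η * x⌋₊ : ℕ) : ℝ) ≤ x := Nat.cast_le.2 (Nat.sub_le _ _)
    have b2 := sum_le_card_nsmul (Ico e0 e1) (fun e => ∑ n ∈ Ioc ⌊η * x⌋₊ x,
      ∑ q ∈ Ico R (2 * R), err q (2 ^ e) n) (R * (x / (Real.log x + 1) ^ 2)) fun e he => by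
        rw [sum_comm]
        refine (sum_le_card_nsmul _ _ _ fun q hq =>
          g2 q hq _ (c1 e he) (c2 e he q hq)).trans (le_of_eq ?_)
        rw [Nat.card_Ico, nsmul_eq_mul, two_mul, Nat.add_sub_cancel]
    rw [Nat.card_Ico, nsmul_eq_mul] at b2
    have l0 : 0 ≤ Real.log x := Real.log_natCast_nonneg x
    have b3 : ((e1 - e0 : ℕ) : ℝ) ≤ 2 * (Real.log x + 1) := by
      have d1 : ((e1 - e0 : ℕ) : ℝ) ≤ e1 := Nat.cast_le.2 (Nat.sub_le _ _)
      have d2 := Real.log_le_log (by exact_mod_cast (show 0 < Y by omega)) (Nat.cast_le.2 y2)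
      linarith only [d1, d2, k6]
    have b4 : 2 * (Real.log x + 1) * (R * (x / (Real.log x + 1) ^ 2)) ≤ η / 4 * x := by
      rw [div_le_iff₀ hη] at hl
      have d1 : 2 * (Real.log x + 1) * (R * (x / (Real.log x + 1) ^ 2)) =
          2 * R / (Real.log x + 1) * x := by field_simp
      rw [d1]
      refine mul_le_mul_of_nonneg_right ?_ x0.le
      rw [div_le_iff₀ (by linarith only [l0])]
      linarith only [hl, hη]
    have b5 := (b2.trans (mul_le_mul_of_nonneg_right b3 (by positivity))).trans b4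
    have b6 := mul_le_mul_of_nonneg_right b1 (half_pos hη).le
    linarith only [b5, b6]

end Pool.Agent.Work.MP_9a1701_nt.P
end

-- merged part: Pool.Agent.Work.MP_9a1701_nt.V.W6
section
/-!
# Primes together with a power sparse random set
-/

set_option autoImplicit false
open Finset Filter MeasureTheory ProbabilityTheory Topology

namespace Pool.Agent.Work.MP_9a1701_nt.P

section
variable {ρ : ℕ → ℝ} {n₁ : ℕ}

lemma ParW.log_nonneg {κ v δ μ : ℝ} (hP : ParW κ v δ μ) : 0 ≤ Real.log (2 * v) :=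
  Real.log_nonneg (by linarith [hP.dv, hP.d0])

lemma ParW.log_le {κ v δ μ : ℝ} (hP : ParW κ v δ μ) :
    Real.log (2 * v) ≤ 1 ∧ 0 ≤ -Real.log v ∧ -Real.log v ≤ 7 / 10 := by
  have h1 := hP.dv
  have h2 := hP.d0
  have h3 := hP.m0
  have h4 := hP.m1
  have v0 : 0 < v := by linarith
  have a1 : Real.log v ≤ 0 := Real.log_nonpos v0.le (by linarith)
  have a2 := hP.log_nonneg
  rw [Real.log_mul two_ne_zero v0.ne'] at a2 ⊢
  have := Real.log_two_lt_d9
  exact ⟨by linarith, by linarith, by linarith⟩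

theorem finW (hN : Noise0 ρ n₁) {κ v δ μ η : ℝ} (hP : ParW κ v δ μ) (hκ : LargeK ρ κ)
    (hη : 0 < η) (hη1 : η ≤ 1 / 4) (hδη : 32 * δ ≤ η) : ∀ᶠ x : ℕ in atTop,
      FinA PP ρ x (sp x) (Lp δ x) (iW v x) ⌊η * x⌋₊ (Real.log (2 * v)) η (-Real.log v + η)
        (106 / η ^ 2 * (Real.log x + 1) ^ 2) := by
  have h0 := hP.d0
  have h1 : δ ≤ 1 / 10 := by linarith [hP.d1]
  have w1 := hP.dv
  have w2 := hP.m1
  have w3 := hP.m0
  have w4 := hP.log_le.2
  have hε : 0 < η / 24 := by positivity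
  have hC : 0 < 106 / η ^ 2 := by positivity
  obtain ⟨z0, hz0⟩ := hmertBW hN _ hε
  obtain ⟨z1, hz1⟩ := eventually_atTop.1 (hsparseBW hN _ hε)
  filter_upwards [par1 h0 h1 (show 0 < η / 8 by positivity), par2 h0 h1, parW1 h0 w1 w3 w2 hη,
    parW2 h0 hP.d1 w1 (by linarith), hptW hN hP hκ, hupW hN hP hκ hη (by linarith) hδη,
    log_pow_le_Lp h0 2 (show 0 < 2 * (106 / η ^ 2) by positivity),
    An_log_pow (show 0 < 1 / 2 - 2 * μ by linarith [hP.m4]) 3 hC,
    log_pow_le_sp 0 (show (0 : ℝ) < (z0 + z1 + 1 : ℕ) by positivity), eventually_ge_atTop 2]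
    with x ⟨p1, _, _, _, _, p6, _⟩ ⟨q1, _⟩ ⟨r1, r2, r3, r4, _⟩ ⟨u1, u2, u3, _⟩ hpt hup hL hμ h6 hx
  rw [pow_zero, mul_one, Nat.cast_le] at h6
  have hx0 : (0 : ℝ) < x := Nat.cast_pos.2 (by omega)
  have hs : 1 ≤ sp x := by omega
  have hs0 : (0 : ℝ) < sp x := Nat.cast_pos.2 hs
  have hs2 := sp_le (show 1 ≤ x by omega)
  have hsx : (sp x : ℝ) ^ 2 ≤ 4 * x := by
    have := pow_le_pow_left₀ hs0.le hs2 2
    rw [mul_pow, Real.sq_sqrt hx0.le] at this
    linarith only [this]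
  have t1 : sp x ≤ Lp δ x * sp x := Nat.le_mul_of_pos_left _ (by omega)
  have t2 : Lp δ x * sp x ≤ iW v x * sp x := Nat.mul_le_mul_right _ r1
  have m1 := Core4_up zero_le_one hε.le (hz0 _ _ (by omega) t1) q1 (by linarith only [h1])
  have m2 := Core4_up zero_le_one hε.le (hz0 (iW v x * sp x) (x + 1) (by omega) (by omega)) u1
    (by linarith only [h1, w4.2])
  have m3 := (abs_le.1 (hz0 _ _ (by omega) t2)).1
  have m4 := mul_le_mul_of_nonneg_left (hz1 (sp x) (by omega)) (show (0 : ℝ) ≤ 2 * sp x by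
    positivity)
  have l0 : 0 ≤ Real.log x := Real.log_natCast_nonneg x
  have l1 : 1 ≤ (Real.log x + 1) ^ 2 := one_le_pow₀ (by linarith only [l0])
  have hΛ0 : 0 < 106 / η ^ 2 * (Real.log x + 1) ^ 2 := by positivity
  rw [mul_assoc] at hL
  refine ⟨hs, by omega, r1, by omega, le_sp_sq x, by omega, hup, Nat.floor_le (by positivity), r4,
    by linarith only [p6, hη], ?_, fun n hn i hi => ?_, ?_, ?_, hΛ0, by linarith only [hL, hΛ0], ?_⟩
  · have n2 := mul_le_mul_of_nonneg_left u3 hε.le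
    linarith only [m3, n2, u2, hδη, hη, h0]
  · refine (cell_meanM hpt hs (by omega) (Lp_mono hP.dm (by omega)) hi
      ((Nat.mul_le_mul_right _ (Lp_mono w2 (by omega))).trans (r3.trans hn.le))).trans ?_
    rw [div_eq_mul_one_div]
    linarith only [p6]
  · refine (Ex_Z_M hN.prob hpt hs (by omega)).trans ?_
    have a1 : 32 * (x : ℝ) / Lp δ x ≤ 32 * x / (2 * (106 / η ^ 2 * (Real.log x + 1) ^ 2)) :=
      div_le_div_of_nonneg_left (by positivity) (by positivity) hL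
    have a2 : Real.log (iW v x) ≤ Real.log x := by
      have : iW v x ≤ iW v x * sp x := Nat.le_mul_of_pos_right _ hs
      exact Real.log_le_log (Nat.cast_pos.2 (by omega)) (Nat.cast_le.2 (by omega))
    have a3 := Lp_le w3 (show 1 ≤ x by omega)
    have a4 : (x : ℝ) ^ (1 / 2 - 2 * μ) * (√(x : ℝ) * ((x : ℝ) ^ μ) ^ 2) = x := by
      rw [Real.sqrt_eq_rpow, sq, ← Real.rpow_add hx0, ← Real.rpow_add hx0, ← Real.rpow_add hx0,
        show 1 / 2 - 2 * μ + (1 / 2 + (μ + μ)) = 1 by ring, Real.rpow_one]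
    have a5 : 2 * (sp x : ℝ) * (Lp μ x : ℝ) ^ 2 * (1 + Real.log (iW v x)) ≤
        2 * (2 * √(x : ℝ)) * (2 * (x : ℝ) ^ μ) ^ 2 * (1 + Real.log x) := by
      have := Real.log_natCast_nonneg (iW v x)
      gcongr
    have a6 := mul_le_mul_of_nonneg_right hμ
      (show 0 ≤ √(x : ℝ) * ((x : ℝ) ^ μ) ^ 2 by positivity)
    rw [a4] at a6
    have a7 : 2 * (2 * √(x : ℝ)) * (2 * (x : ℝ) ^ μ) ^ 2 * (1 + Real.log x) ≤
        16 * x / (106 / η ^ 2 * (Real.log x + 1) ^ 2) := by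
      rw [le_div_iff₀ hΛ0]
      calc _ = 16 * (106 / η ^ 2 * (Real.log x + 1) ^ 3 * (√(x : ℝ) * ((x : ℝ) ^ μ) ^ 2)) := by
            ring
        _ ≤ _ := by linarith only [a6]
    generalize 106 / η ^ 2 * (Real.log x + 1) ^ 2 = Λ at *
    have a8 : 32 / Λ * x = 32 * x / (2 * Λ) + 16 * x / Λ := by
      field_simp
      ring
    linarith only [a1, a5, a7, a8]
  · rw [div_le_iff₀ hΛ0]
    have a1 : η * (106 / η ^ 2) = 106 / η := by field_simp
    have a2 : 32 ≤ 106 / η := by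
      rw [le_div_iff₀ hη]
      linarith only [hη1]
    rw [← mul_assoc, a1]
    exact a2.trans (le_mul_of_one_le_right (by positivity) l1)
  · have n1 := mul_le_mul_of_nonneg_left m1 hx0.le
    have n2 := mul_le_mul_of_nonneg_left m2 hx0.le
    have n3 := mul_le_mul_of_nonneg_left hsx hε.le
    have n4 := mul_le_mul_of_nonneg_left hδη hx0.le
    have n5 := mul_pos hx0 hη
    linarith only [mean_Wt (D := PP) (x := x) hN.prob hs (show 1 ≤ Lp δ x by omega) r1, n1, n2,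
      n3, n4, n5, m4]

lemma W6_tail {η : ℝ} (hη : 0 < η) (hη1 : η ≤ 1 / 4) : ∀ᶠ x : ℕ in atTop,
    8 / (η ^ 2 * (106 / η ^ 2 * (Real.log x + 1) ^ 2)) +
      (4 * (sp x : ℝ) ^ 3 + 2 * (x : ℝ) ^ 2 / sp x) / (η * x) ^ 2 +
        32 / (η * (106 / η ^ 2 * (Real.log x + 1) ^ 2)) ≤ 1 / Real.log x ^ 2 := by
  filter_upwards [log_pow_le_sp 2 (show 0 < 106 / η ^ 2 by positivity), eventually_ge_atTop 2]
    with x h5 hx
  have hx0 : (0 : ℝ) < x := Nat.cast_pos.2 (by omega)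
  have hs0 : (0 : ℝ) < sp x := Nat.cast_pos.2 (An_sp_pos x)
  have hsx : (sp x : ℝ) ^ 2 ≤ 4 * x := by
    have := pow_le_pow_left₀ hs0.le (sp_le (show 1 ≤ x by omega)) 2
    rw [mul_pow, Real.sq_sqrt hx0.le] at this
    linarith only [this]
  exact Core4_tail hη (by linarith only [hη1]) (Real.log_pos (by exact_mod_cast hx)) hx0 hs0 hsx
    le_rfl h5

lemma exists_parW {κ v η : ℝ} (hκ : 0 ≤ κ) (hv : 1 / 2 < v) (h1 : κ * v < 1 - v)
    (h2 : 4 * (κ * v) < 1) (hη : 0 < η) : ∃ δ μ : ℝ, ParW κ v δ μ ∧ 32 * δ ≤ η := by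
  have a0 : 0 ≤ κ * v := mul_nonneg hκ (by linarith)
  obtain ⟨μ, m1, m2⟩ := exists_between (lt_min h1 (show κ * v < 1 / 4 by linarith))
  have m3 := m2.trans_le (min_le_left _ _)
  have m4 := m2.trans_le (min_le_right _ _)
  have m0 : 0 < μ := by linarith
  set δ := min (min (1 / 20) (η / 32)) (min ((v - 1 / 2) / 2) (min (1 - v - μ) μ)) with hδ
  have d1 : δ ≤ 1 / 20 := (min_le_left _ _).trans (min_le_left _ _)
  have d2 : δ ≤ η / 32 := (min_le_left _ _).trans (min_le_right _ _)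
  have d3 : δ ≤ (v - 1 / 2) / 2 := (min_le_right _ _).trans (min_le_left _ _)
  have d4 : δ ≤ 1 - v - μ := (min_le_right _ _).trans ((min_le_right _ _).trans (min_le_left _ _))
  have d5 : δ ≤ μ := (min_le_right _ _).trans ((min_le_right _ _).trans (min_le_right _ _))
  have d0 : 0 < δ := lt_min (lt_min (by norm_num) (by positivity))
    (lt_min (by linarith) (lt_min (by linarith) m0))
  exact ⟨δ, μ, ⟨hκ, by nlinarith, d0, d1, by linarith, m0, by linarith, d5, m1, m4⟩, by linarith⟩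

end

theorem thmW {Ω : Type*} [MeasurableSpace Ω] (μ : Measure Ω) [IsProbabilityMeasure μ]
    (E : ℕ → Set Ω) (hm : ∀ n, MeasurableSet (E n)) (hind : iIndepSet E μ) {n₁ : ℕ}
    (hN : Noise0 (fun n => μ.real (E n)) n₁) {κ v : ℝ} (hκ : 0 ≤ κ) (hv : 1 / 2 < v)
    (h1 : κ * v < 1 - v) (h2 : 4 * (κ * v) < 1) (hL : LargeK (fun n => μ.real (E n)) κ) :
    ∀ᵐ ω ∂μ, ∀ (k : ℕ) (ε : ℝ), 0 < ε → ∀ᶠ x : ℕ in atTop, Rk {t | t.Prime ∨ ω ∈ E t} k x / x ∈
      Set.Icc ((1 + Real.log v) * poi k (Real.log (2 * v)) - ε)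
        (poi k (Real.log (2 * v)) - Real.log v + ε) := by
  have main : ∀ (k : ℕ) (ε : ℝ), 0 < ε → ε ≤ 1 → ∀ᵐ ω ∂μ, ∀ᶠ x : ℕ in atTop,
      Rk (PP ∪ {t | ω ∈ E t}) k x / x ∈ Set.Icc ((1 + Real.log v) * poi k (Real.log (2 * v)) - ε)
        (poi k (Real.log (2 * v)) - Real.log v + ε) := by
    intro k ε hε hε1
    have hη : 0 < ε / 50 := by positivity
    have hη1 : ε / 50 ≤ 1 / 4 := by linarith
    obtain ⟨δ, m, hP, hδ⟩ := exists_parW hκ hv h1 h2 hη
    have hl := hP.log_nonneg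
    obtain ⟨l1, l2, l3⟩ := hP.log_le
    have p0 := poi_nonneg k hl
    have p1 := poi_le_one k hl
    have hF := (finW hN hP hL hη hη1 hδ).and (W6_tail hη hη1)
    have up := V7_bc μ E hm hind PP k (fun x r => (poi k (Real.log (2 * v)) +
      (-Real.log v + ε / 50) + (15 + 5 * Real.log (2 * v)) * (ε / 50)) * x < r)
      (hF.mono fun x hx => (upA hN.prob hx.1 k hl hη hη1).trans hx.2)
      (show 0 < ε / 4 by positivity)
    have low := V7_bc μ E hm hind PP k (fun x r => r < (poi k (Real.log (2 * v)) *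
      (1 - (-Real.log v + ε / 50)) - (17 + 5 * Real.log (2 * v)) * (ε / 50)) * x)
      (hF.mono fun x hx => (lowA hN.prob hx.1 k hl hη hη1).trans hx.2)
      (show 0 < ε / 4 by positivity)
    filter_upwards [up, low] with ω g1 g2
    filter_upwards [g1, g2, V7_big (show 0 < ε / 4 by positivity)]
      with x ⟨y, d, a1, a2, a3⟩ ⟨y', d', b1, b2, b3⟩ ⟨a5, a6⟩
    have c1 := mul_le_mul_of_nonneg_right l1 hη.le
    have c2 := mul_le_mul_of_nonneg_right p1 hη.le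
    constructor
    · have h6 := (Bridge_incr _ (Bridge_Rk_step (PP ∪ {t | ω ∈ E t}) k) y' d').1
      rw [← b1] at h6
      have h7 : (x : ℝ) = y' + d' := by exact_mod_cast b1
      have h8 := not_lt.1 b2
      have y0 : (0 : ℝ) ≤ y' := Nat.cast_nonneg _
      have d0 : (0 : ℝ) ≤ d' := Nat.cast_nonneg _
      have c3 : (1 + Real.log v) * poi k (Real.log (2 * v)) ≤ 1 :=
        mul_le_one₀ (by linarith) p0 p1
      have h9 : ((1 + Real.log v) * poi k (Real.log (2 * v)) - ε / 2) * y' ≤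
          (poi k (Real.log (2 * v)) * (1 - (-Real.log v + ε / 50)) -
            (17 + 5 * Real.log (2 * v)) * (ε / 50)) * y' :=
        mul_le_mul_of_nonneg_right (by linarith) y0
      rw [le_div_iff₀ a6]
      generalize (1 + Real.log v) * poi k (Real.log (2 * v)) = a at *
      have h10 := mul_le_mul_of_nonneg_right c3 d0
      have h11 := mul_nonneg hε.le d0
      have h12 : (a - ε) * x = (a - ε / 2) * y' + a * d' - ε / 2 * d' - ε / 2 * x := by
        rw [h7]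
        ring
      linarith
    · have h6 := (Bridge_incr _ (Bridge_Rk_step (PP ∪ {t | ω ∈ E t}) k) y d).2
      rw [← a1] at h6
      have h7 : (y : ℝ) ≤ x := by exact_mod_cast (by omega : y ≤ x)
      have h8 := not_lt.1 a2
      have h9 : (poi k (Real.log (2 * v)) + (-Real.log v + ε / 50) +
          (15 + 5 * Real.log (2 * v)) * (ε / 50)) * y ≤
          (poi k (Real.log (2 * v)) - Real.log v + ε / 2) * x :=
        mul_le_mul (by linarith) h7 (Nat.cast_nonneg _) (by linarith)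
      rw [div_le_iff₀ a6]
      linarith
  have h := ae_all_iff.2 fun k : ℕ => ae_all_iff.2 fun j : ℕ =>
    main k (1 / ((j : ℝ) + 1)) (by positivity) (by
      rw [div_le_one (by positivity)]
      linarith [Nat.cast_nonneg (α := ℝ) j])
  filter_upwards [h] with ω hω k ε hε
  obtain ⟨j, hj⟩ := exists_nat_one_div_lt hε
  filter_upwards [hω k j] with x hx
  exact ⟨le_trans (by linarith) hx.1, hx.2.trans (by linarith)⟩

end Pool.Agent.Work.MP_9a1701_nt.P
end
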